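import Pool.Agent.Helper81_TMP.Kor
import Pool.Agent.Helper63_TMP.Coo

/-!
# Squad TMP, module CAT: Cartan decomposition, and the horocycles which meet a `K`-orbit
-/

set_option autoImplicit false

open scoped BigOperators

namespace Pool.Agent.TMP.H43.Cat

open Pool.Agent.DEN Pool.Agent.TMP

section
variable {r : ℕ} {C : Matrix (Fin r) (Fin r) ℤ} {K : Type} [Field K]

/-! ## Elementary facts -/

theorem hv_al (i : Fin r) : hv (al i) = 1 := by
  simp [hv, al, Pi.single_apply]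

theorem hv_sf (i : Fin r) (l : Fin r → ℤ) : hv (sf C i l) = hv l - ip C (al i) l := by
  have h := hv_al i
  unfold hv at h ⊢
  unfold sf
  simp only [Pi.sub_apply, Pi.smul_apply, smul_eq_mul, Finset.sum_sub_distrib, ← Finset.mul_sum, h,
    mul_one]

theorem ip_sf_sf (hC : SimplyLaced C) (i : Fin r) (x y : Fin r → ℤ) :
    ip C (sf C i x) (sf C i y) = ip C x y := by
  have h : ip C (al i) (al i) = 2 := by
    rw [ip_al_al]
    exact hC.diag i
  unfold sf
  simp only [ip_sub_left, ip_sub_right, ip_smul_left, ip_smul_right, h, hC.ip_comm x (al i)]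
  ring

theorem wr_norm (hC : SimplyLaced C) {l m : Fin r → ℤ} (h : WR C l m) : ip C m m = ip C l l := by
  induction h with
  | refl => rfl
  | tail _ h ih =>
    obtain ⟨i, rfl⟩ := h
    rw [ip_sf_sf hC, ih]

theorem wr_symm (hC : SimplyLaced C) {l m : Fin r → ℤ} (h : WR C l m) : WR C m l := by
  induction h with
  | refl => exact Relation.ReflTransGen.refl
  | @tail b c _ h ih =>
    obtain ⟨i, rfl⟩ := h
    exact Relation.ReflTransGen.head ⟨i, (H81.sf_sf hC i b).symm⟩ ih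

theorem wr_trans {l m n : Fin r → ℤ} (h : WR C l m) (h' : WR C m n) : WR C l n :=
  Relation.ReflTransGen.trans h h'

theorem smul_of_mul {a b : grp C K} {x y : XX C K} (h : a • x = y) : (b * a) • x = b • y := by
  rw [mul_smul, h]

theorem smul_cancel (g : grp C K) (x : XX C K) : g⁻¹ • g • x = x := inv_smul_smul g x

/-! ## Finiteness -/

theorem orb_fin [Finite K] (hC : SimplyLaced C) (hKF : DEN.TMP.KfinStmt) (z : XX C K) :
    {y : XX C K | ∃ k ∈ maxK C K, y = k • z}.Finite := by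
  obtain ⟨g, rfl⟩ := exists_smul z
  have h := hKF r C hC K g
  refine h.subset ?_
  rintro y ⟨k, hk, rfl⟩
  refine ⟨k, hk, ?_⟩
  rw [← mul_smul]
  unfold oo
  rw [smul_pt, mul_one]
  rfl

theorem hor_uniq (hor : HorStmt) (hC : SimplyLaced C) {u v : grp C K} (hu : u ∈ Ug C K)
    (hv : v ∈ Ug C K) {l m : Fin r → ℤ} (h : u • tp hC K l = v • tp hC K m) : l = m := by
  refine (hor r C hC K).1 (v⁻¹ * u) (mul_mem (inv_mem hv) hu) l m ?_
  rw [mul_smul, h, inv_smul_smul]

/-- The types of the horocycles meeting the orbit of `z`. -/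
def Lam (hC : SimplyLaced C) (K : Type) [Field K] (z : XX C K) : Set (Fin r → ℤ) :=
  {m | ∃ k ∈ maxK C K, ∃ u ∈ Ug C K, k • z = u • tp hC K m}

theorem lam_fin [Finite K] (hC : SimplyLaced C) (hKF : DEN.TMP.KfinStmt) (hor : HorStmt)
    (z : XX C K) : (Lam hC K z).Finite := by
  classical
  choose uu huu ll hll using fun x : XX C K => iwa hC x
  refine ((orb_fin hC hKF z).image ll).subset ?_
  rintro m ⟨k, hk, u, hu, h⟩
  refine ⟨k • z, ⟨k, hk, rfl⟩, ?_⟩
  refine hor_uniq hor hC (huu (k • z)) hu ?_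
  rw [← hll, h]

theorem lam_ne (hC : SimplyLaced C) (z : XX C K) : (Lam hC K z).Nonempty := by
  obtain ⟨u, hu, l, h⟩ := iwa hC z
  exact ⟨l, 1, one_mem _, u, hu, by rw [one_smul, h]⟩

theorem lam_max [Finite K] (hC : SimplyLaced C) (hKF : DEN.TMP.KfinStmt) (hor : HorStmt)
    (z : XX C K) : ∃ m ∈ Lam hC K z, ∀ m' ∈ Lam hC K z, ip C m' m' ≤ ip C m m :=
  Set.exists_max_image _ (fun m => ip C m m) (lam_fin hC hKF hor z) (lam_ne hC z)

/-- The antidominant representative. -/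
theorem anti_rep [Finite K] (hC : SimplyLaced C) (hKF : DEN.TMP.KfinStmt) (hor : HorStmt)
    (kor : KorStmt) (l : Fin r → ℤ) : ∃ m, WR C l m ∧ IsAnti C m := by
  have hfin : {m | WR C l m}.Finite := by
    refine (lam_fin (K := K) hC hKF hor (tp hC K l)).subset ?_
    intro m hm
    obtain ⟨k, hk, h⟩ := (kor r C hC K l).2 m hm
    exact ⟨k, hk, 1, one_mem _, by rw [one_smul, h]⟩
  obtain ⟨m, hm, hmin⟩ := Set.exists_min_image _ (fun m => hv m) hfin
    ⟨l, Relation.ReflTransGen.refl⟩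
  refine ⟨m, hm, fun i => ?_⟩
  by_contra hi
  push Not at hi
  have h1 := hmin (sf C i m) (H81.WR_tail i hm)
  rw [hv_sf] at h1
  omega

/-- A nonzero antidominant vector has a negative coordinate. -/
theorem anti_neg (hC : SimplyLaced C) {l : Fin r → ℤ} (hl : IsAnti C l) (h0 : l ≠ 0) :
    ∃ i, l i < 0 := by
  by_contra hcon
  push Not at hcon
  obtain ⟨i, -⟩ : ∃ i, l i ≠ 0 := by
    by_contra hc
    push Not at hc
    exact h0 (funext hc)
  have hd : IsDom C (-l) := fun j => by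
    rw [ip_neg_right]
    have := hl j
    omega
  have h1 := (H22.hRS r C hC).2.2.2 l (-l) hd hcon i
  have h2 : 0 ≤ l i * ip C (al i) (-l) := mul_nonneg (hcon i) (hd i)
  have h3 := hC.ip_pos l h0
  rw [ip_neg_right C l l] at h1
  omega

/-- The pairing of a positive root with an antidominant vector. -/
theorem pos_anti {m : Fin r → ℤ} (hm : IsAnti C m) {β : Rt C}
    (hβ : β.Pos) : ip C β.1 m ≤ 0 := by
  rw [H63.ip_exp]
  refine Finset.sum_nonpos fun i _ => ?_
  exact mul_nonpos_of_nonneg_of_nonpos (hβ i) (hm i)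

/-! ## Roots -/

/-- The reflected root. -/
theorem exists_rf (hC : SimplyLaced C) (i : Fin r) (γ : Rt C) : ∃ δ : Rt C, δ.1 = sf C i γ.1 :=
  ⟨⟨sf C i γ.1, by rw [ip_sf_sf hC, γ.2]⟩, rfl⟩

theorem ht_rf {i : Fin r} {γ δ : Rt C} (h : δ.1 = sf C i γ.1) :
    ht δ = ht γ - ip C (al i) γ.1 := by
  have h1 := hv_sf (C := C) i γ.1
  rw [← h] at h1
  exact h1

theorem ht_al {hC : SimplyLaced C} {i : Fin r} : ht (hC.sr i) = 1 := hv_al i

/-- Conjugation of a root element by `w_i`, up to sign, for the roots of height at least two. -/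
theorem wi_xg (hC : SimplyLaced C) (i : Fin r) {γ : Rt C} (hγ : 2 ≤ ht γ) :
    ∃ δ : Rt C, δ.1 = sf C i γ.1 ∧ ht γ - 1 ≤ ht δ ∧ ∃ e : ℤ, e * e = 1 ∧
      ∀ a : FF K, wi hC K i * xg hC γ a * (wi hC K i)⁻¹ = xg hC δ ((e : FF K) * a) := by
  obtain ⟨δ, hδ⟩ := exists_rf hC i γ
  have hht := ht_rf hδ
  have hne : ip C (al i) γ.1 ≠ 2 := by
    intro h
    have h1 := hC.ip_eq_two (β := hC.sr i) (γ := γ) h
    rw [← h1, ht_al] at hγ
    omega
  have hne' : ip C (al i) γ.1 ≠ -2 := by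
    intro h
    have h1 := hC.ip_eq_neg_two (β := hC.sr i) (γ := γ) h
    have h2 : ht γ = - ht (hC.sr i) := by
      rw [h1]
      simp [ht]
    rw [ht_al] at h2
    omega
  have hb := hC.ip_bound (hC.sr i) γ
  have hb' : -2 ≤ ip C (al i) γ.1 ∧ ip C (al i) γ.1 ≤ 2 := hb
  refine ⟨δ, hδ, by omega, ?_⟩
  have hrel := H22.relC r C hC K (hC.sr i) 1 one_ne_zero
  have hcases : ip C (al i) γ.1 = 1 ∨ ip C (al i) γ.1 = 0 ∨ ip C (al i) γ.1 = -1 := by omega
  rcases hcases with h | h | h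
  · refine ⟨eps C (al i) γ.1, eps_mul_self _ _, fun a => ?_⟩
    have h2 : δ.1 = γ.1 - (hC.sr i).1 := by
      rw [hδ]
      unfold sf
      rw [h, one_smul]
      rfl
    have h3 := (hrel a).2.2.1 γ δ h h2
    rw [inv_one, one_mul] at h3
    exact h3
  · refine ⟨1, by norm_num, fun a => ?_⟩
    have h2 : δ = γ := by
      apply Subtype.ext
      rw [hδ]
      unfold sf
      rw [h, zero_smul, sub_zero]
    have h3 := (hrel a).2.2.2.2 γ h
    rw [h2, Int.cast_one, one_mul]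
    exact h3
  · refine ⟨eps C (al i) γ.1, eps_mul_self _ _, fun a => ?_⟩
    have h2 : δ.1 = γ.1 + (hC.sr i).1 := by
      rw [hδ]
      unfold sf
      rw [h, neg_smul, one_smul, sub_neg_eq_add]
      rfl
    have h3 := (hrel a).2.2.2.1 γ δ h h2
    rw [one_mul] at h3
    exact h3

theorem xg_UH (hC : SimplyLaced C) {h : ℕ} {γ : Rt C} (hγ : (h : ℤ) ≤ ht γ) (a : FF K) :
    xg hC γ a ∈ UH hC K h := Subgroup.subset_closure ⟨γ, a, hγ, rfl⟩

theorem wi_UH (hC : SimplyLaced C) (i : Fin r) {h : ℕ} (hh : 2 ≤ h) {u : grp C K}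
    (hu : u ∈ UH hC K h) : wi hC K i * u * (wi hC K i)⁻¹ ∈ UH hC K (h - 1) := by
  unfold UH at hu
  induction hu using Subgroup.closure_induction with
  | mem x hx =>
    obtain ⟨γ, a, hγ, rfl⟩ := hx
    obtain ⟨δ, -, h2, e, -, h3⟩ := wi_xg (K := K) hC i (γ := γ) (by omega)
    rw [h3]
    exact xg_UH hC (by omega) _
  | one =>
    rw [mul_one, mul_inv_cancel]
    exact one_mem _
  | mul x y _ _ h1 h2 =>
    have : wi hC K i * (x * y) * (wi hC K i)⁻¹ =
        (wi hC K i * x * (wi hC K i)⁻¹) * (wi hC K i * y * (wi hC K i)⁻¹) := by group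
    rw [this]
    exact mul_mem h1 h2
  | inv x _ h1 =>
    have : wi hC K i * x⁻¹ * (wi hC K i)⁻¹ = (wi hC K i * x * (wi hC K i)⁻¹)⁻¹ := by group
    rw [this]
    exact inv_mem h1

/-! ## Coordinates -/

/-- The properties of the coordinates. -/
structure IsCo (hC : SimplyLaced C) (K : Type) [Field K] (co : grp C K → Rt C → FF K) :
    Prop where
  add : ∀ (h : ℕ) (u v : grp C K) (β : Rt C), 1 ≤ h → u ∈ UH hC K h → v ∈ UH hC K h → ht β = h →
      co (u * v) β = co u β + co v β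
  self : ∀ (β : Rt C) (a : FF K), β.Pos → co (xg hC β a) β = a
  oth : ∀ (β γ : Rt C) (a : FF K), β.Pos → ht γ = ht β → γ ≠ β → co (xg hC γ a) β = 0
  nxt : ∀ (h : ℕ) (u : grp C K) (β : Rt C), 1 ≤ h → u ∈ UH hC K (h + 1) → ht β = h →
      co u β = 0
  ker : ∀ (h : ℕ) (u : grp C K), 1 ≤ h → u ∈ UH hC K h → (∀ β : Rt C, ht β = h → co u β = 0) →
      u ∈ UH hC K (h + 1)
  bot : ∃ H : ℕ, ∀ h, H ≤ h → UH hC K h = ⊥

theorem exists_co (coo : CooStmt) (hC : SimplyLaced C) : ∃ co, IsCo hC K co := by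
  obtain ⟨co, h1, h2, h3, h4, h5, -, h7⟩ := coo r C hC K
  exact ⟨co, h1, h2, h3, h4, h5, h7⟩

variable {hC : SimplyLaced C} {co : grp C K → Rt C → FF K}

theorem IsCo.one (hco : IsCo hC K co) {h : ℕ} (hh : 1 ≤ h) {β : Rt C} (hβ : ht β = h) :
    co 1 β = 0 := hco.nxt h 1 β hh (one_mem _) hβ

theorem IsCo.inv (hco : IsCo hC K co) {h : ℕ} (hh : 1 ≤ h) {β : Rt C} (hβ : ht β = h)
    {u : grp C K} (hu : u ∈ UH hC K h) : co u⁻¹ β = - co u β := by
  have h1 := hco.add h u u⁻¹ β hh hu (inv_mem hu) hβ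
  rw [mul_inv_cancel, hco.one hh hβ] at h1
  linear_combination -h1

theorem IsCo.ne (hco : IsCo hC K co) {h : ℕ} (hh : 1 ≤ h) {β γ : Rt C} (hβ : ht β = h)
    (hγ : (h : ℤ) ≤ ht γ) (hne : γ ≠ β) (a : FF K) : co (xg hC γ a) β = 0 := by
  rcases eq_or_lt_of_le hγ with h1 | h1
  · refine hco.oth β γ a ?_ (by omega) hne
    rw [pos_iff hC]
    omega
  · exact hco.nxt h _ β hh (xg_UH hC (by push_cast; omega) a) hβ

/-- The coordinate of a conjugate. -/
theorem IsCo.conj (hco : IsCo hC K co) (i : Fin r) {h : ℕ} (hh : 2 ≤ h) {β δ : Rt C}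
    (hβ : ht β = h) (hδ : ht δ = (h - 1 : ℕ)) (hd : δ.1 = sf C i β.1) :
    ∃ e : ℤ, e * e = 1 ∧ ∀ u ∈ UH hC K h,
      co (wi hC K i * u * (wi hC K i)⁻¹) δ = (e : FF K) * co u β := by
  obtain ⟨δ', hd', -, e, he, hx⟩ := wi_xg (K := K) hC i (γ := β) (by omega)
  have hδδ : δ' = δ := Subtype.ext (hd'.trans hd.symm)
  subst hδδ
  refine ⟨e, he, fun u hu => ?_⟩
  have hu0 := hu
  unfold UH at hu
  induction hu using Subgroup.closure_induction with
  | mem x hx' =>
    obtain ⟨γ, a, hγ, rfl⟩ := hx'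
    by_cases hγβ : γ = β
    · subst hγβ
      rw [hx, hco.self, hco.self]
      · rw [pos_iff hC]; omega
      · rw [pos_iff hC]; omega
    · obtain ⟨γ', hg', hht, e', -, hx'⟩ := wi_xg (K := K) hC i (γ := γ) (by omega)
      rw [hx', hco.ne (h := h) (by omega) hβ hγ hγβ, mul_zero]
      refine hco.ne (h := h - 1) (by omega) hδ (by omega) ?_ _
      intro hEq
      apply hγβ
      apply Subtype.ext
      have h1 : sf C i γ.1 = sf C i β.1 := by rw [← hg', ← hd, hEq]
      have h2 := congrArg (sf C i) h1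
      rwa [H81.sf_sf hC, H81.sf_sf hC] at h2
  | one =>
    rw [mul_one, mul_inv_cancel, hco.one (h := h) (by omega) hβ,
      hco.one (h := h - 1) (by omega) hδ, mul_zero]
  | mul x y hx1 hy1 h1 h2 =>
    have h1' := h1 hx1
    have h2' := h2 hy1
    have e1 : wi hC K i * (x * y) * (wi hC K i)⁻¹ =
        (wi hC K i * x * (wi hC K i)⁻¹) * (wi hC K i * y * (wi hC K i)⁻¹) := by group
    rw [e1, hco.add (h - 1) _ _ _ (by omega) (wi_UH hC i hh hx1) (wi_UH hC i hh hy1) hδ, h1', h2',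
      hco.add h _ _ _ (by omega) hx1 hy1 hβ]
    ring
  | inv x hx1 h1 =>
    have h1' := h1 hx1
    have e1 : wi hC K i * x⁻¹ * (wi hC K i)⁻¹ = (wi hC K i * x * (wi hC K i)⁻¹)⁻¹ := by group
    rw [e1, hco.inv (h := h - 1) (by omega) hδ (wi_UH hC i hh hx1), h1',
      hco.inv (h := h) (by omega) hβ hx1]
    ring

/-- The coordinate at `α_i` of an element of `U_i`. -/
theorem IsCo.un (hco : IsCo hC K co) (i : Fin r) {u : grp C K} (hu : u ∈ Un C K i) :
    co u (hC.sr i) = 0 := by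
  have hUH : Un C K i ≤ UH hC K 1 := by
    rw [UH_one hC]
    exact Un_le i
  have h1 : ht (hC.sr i) = (1 : ℕ) := ht_al
  have hu0 := hu
  rw [Un_eq hC] at hu
  induction hu using Subgroup.closure_induction with
  | mem x hx =>
    obtain ⟨γ, a, hγ, hne, rfl⟩ := hx
    refine hco.ne (h := 1) le_rfl h1 ?_ ?_ a
    · have := (pos_iff hC γ).mp hγ
      exact_mod_cast this
    · intro h
      apply hne
      rw [h]
      rfl
  | one => exact hco.one (h := 1) le_rfl h1
  | mul x y hx hy h2 h3 =>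
    rw [← Un_eq hC] at hx hy
    rw [hco.add 1 x y _ le_rfl (hUH hx) (hUH hy) h1, h2 hx, h3 hy, add_zero]
  | inv x hx h2 =>
    rw [← Un_eq hC] at hx
    rw [hco.inv (h := 1) le_rfl h1 (hUH hx), h2 hx, neg_zero]

/-! ## Maximal norm -/

/-- All the horocycles meeting the orbit of `z` have norm at most `M`. -/
def Mx (hC : SimplyLaced C) (K : Type) [Field K] (z : XX C K) (M : ℤ) : Prop :=
  ∀ k ∈ maxK C K, ∀ u ∈ Ug C K, ∀ m, k • z = u • tp hC K m → ip C m m ≤ M

theorem conj_smul (i : Fin r) {k u : grp C K} {z y : XX C K} (h : k • z = u • y) :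
    (wi hC K i * k) • z = (wi hC K i * u * (wi hC K i)⁻¹) • wi hC K i • y := by
  rw [mul_smul, h, ← mul_smul, ← mul_smul]
  congr 1
  group

/-- Lemma A. -/
theorem bound_b {z : XX C K} {M : ℤ} (hM : Mx hC K z M) {k : grp C K} (hk : k ∈ maxK C K)
    {i : Fin r} {u : grp C K} (hu : u ∈ Un C K i) {b : FF K} {m : Fin r → ℤ}
    (h : k • z = (u * xi hC i b) • tp hC K m) (hm : ip C m m = M) :
    b ∈ Bd K (Max.max 0 (ip C (al i) m)) := by
  obtain ⟨hF1, hF2, hF3, hF4, hF5, hF6, hF7, hF8, hF9⟩ := H22.hF1 K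
  by_contra hb
  have hb0 : b ≠ 0 := by
    rintro rfl
    exact hb (hF1 _)
  obtain ⟨p, u0, e1, e2, -, -, e5⟩ := hF9 b hb0
  have hbp : b ∈ Bd K p := by
    rw [e1]
    exact (hF8 p u0).mpr e2
  have hp : Max.max 0 (ip C (al i) m) < p := by
    by_contra hp
    push Not at hp
    exact hb (hF5 _ _ _ hp hbp)
  have hp0 : 0 < p := lt_of_le_of_lt (le_max_left _ _) hp
  have hpn : ip C (al i) m < p := lt_of_le_of_lt (le_max_right _ _) hp
  have h1 : (wi hC K i * k) • z =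
      (wi hC K i * u * (wi hC K i)⁻¹ * xi hC i (-b⁻¹)) • tp hC K (m - p • al i) := by
    rw [mul_smul] at h
    rw [conj_smul i h, rk1 hC i m hpn hbp e5, ← mul_smul]
  have h2 := hM _ (mul_mem (wi_maxK hC i) hk) _
    (mul_mem (Un_le i (wi_Un hC i hu)) (xg_Ug hC (β := hC.sr i) (by
      rw [pos_iff hC, ht_al]) _)) _ h1
  have h3 : ip C (al i) (al i) = 2 := by
    rw [ip_al_al]
    exact hC.diag i
  simp only [ip_sub_left, ip_sub_right, ip_smul_left, ip_smul_right, h3, hC.ip_comm m (al i),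
    hm] at h2
  nlinarith

/-- One can move to `U_i`. -/
theorem to_un {z : XX C K} {M : ℤ} (hM : Mx hC K z M) {k : grp C K} (hk : k ∈ maxK C K)
    (i : Fin r) {u : grp C K} (hu : u ∈ Ug C K) {m : Fin r → ℤ}
    (h : k • z = u • tp hC K m) (hm : ip C m m = M) :
    ∃ k' ∈ maxK C K, ∃ u' ∈ Un C K i, k' • z = u' • tp hC K m := by
  obtain ⟨b, u', hu', rfl⟩ := ups hC i hu
  have hb := bound_b hM hk hu' h hm
  rcases le_total 0 (ip C (al i) m) with hn | hn
  · rw [max_eq_right hn] at hb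
    refine ⟨k, hk, u', hu', ?_⟩
    rw [h, mul_smul]
    congr 1
    exact xg_tp hC m (hC.sr i) hb
  · rw [max_eq_left hn] at hb
    refine ⟨(xi hC i b)⁻¹ * k, mul_mem (inv_mem (xg_maxK hC _ hb)) hk,
      xi hC i (-b) * u' * (xi hC i (-b))⁻¹, xi_Un hC i hu' (-b), ?_⟩
    have e1 : (xi hC i b)⁻¹ = xi hC i (-b) := xg_inv hC _ b
    rw [mul_smul, h, ← mul_smul, e1]
    congr 1
    rw [← e1, inv_inv, mul_assoc]

/-- Reflection step. -/
theorem refl_step {z : XX C K} {M : ℤ} (hM : Mx hC K z M) {k : grp C K} (hk : k ∈ maxK C K)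
    (i : Fin r) {u : grp C K} (hu : u ∈ Ug C K) {m : Fin r → ℤ}
    (h : k • z = u • tp hC K m) (hm : ip C m m = M) :
    ∃ k' ∈ maxK C K, ∃ u' ∈ Ug C K, k' • z = u' • tp hC K (sf C i m) := by
  obtain ⟨k', hk', u', hu', h'⟩ := to_un hM hk i hu h hm
  refine ⟨wi hC K i * k', mul_mem (wi_maxK hC i) hk', _, Un_le i (wi_Un hC i hu'), ?_⟩
  rw [conj_smul i h', wi_tp]

theorem wr_step {z : XX C K} {M : ℤ} (hM : Mx hC K z M) {m m' : Fin r → ℤ} (hW : WR C m m')
    (hm : ip C m m = M) (h : ∃ k ∈ maxK C K, ∃ u ∈ Ug C K, k • z = u • tp hC K m) :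
    ∃ k ∈ maxK C K, ∃ u ∈ Ug C K, k • z = u • tp hC K m' := by
  induction hW with
  | refl => exact h
  | @tail b c hb hc ih =>
    obtain ⟨k, hk, u, hu, e⟩ := ih
    obtain ⟨i, rfl⟩ := hc
    exact refl_step hM hk i hu e (by rw [wr_norm hC hb, hm])

/-- Lemma D: the coordinates of height `h`. -/
theorem bound_co (hco : IsCo hC K co) {z : XX C K} {M : ℤ} (hM : Mx hC K z M) (n : ℕ) :
    ∀ (k : grp C K), k ∈ maxK C K → ∀ (u : grp C K), u ∈ UH hC K (n + 1) →
    ∀ (m : Fin r → ℤ), k • z = u • tp hC K m → ip C m m = M → ∀ β : Rt C,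
    ht β = (n + 1 : ℕ) → co u β ∈ Bd K (Max.max 0 (ip C β.1 m)) := by
  obtain ⟨hF1, hF2, hF3, hF4, hF5, hF6, hF7, hF8, hF9⟩ := H22.hF1 K
  induction n with
  | zero =>
    intro k hk u hu m h hm β hβ
    have hpos : β.Pos := by
      rw [pos_iff hC, hβ]
      norm_num
    obtain ⟨i, rfl⟩ : ∃ i, β = hC.sr i := by
      rcases (H22.hRD r C hC).1 β hpos with h1 | ⟨i, -, h2⟩
      · exact h1
      · refine ⟨i, ?_⟩
        apply Subtype.ext
        have h3 : ∑ j, (β.1 - al i) j = 0 := by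
          have h4 := hv_al i
          unfold hv at h4
          simp only [Pi.sub_apply, Finset.sum_sub_distrib, h4]
          unfold ht at hβ
          rw [hβ]
          norm_num
        have h5 := (Finset.sum_eq_zero_iff_of_nonneg fun j _ => h2 j).mp h3
        have h6 : β.1 - al i = 0 := funext fun j => h5 j (Finset.mem_univ j)
        exact sub_eq_zero.mp h6
    rw [zero_add, UH_one hC] at hu
    obtain ⟨b, u', hu', rfl⟩ := ups hC i hu
    have hb := bound_b hM hk hu' h hm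
    have h1 : co (u' * xi hC i b) (hC.sr i) = b := by
      have hUH : Un C K i ≤ UH hC K 1 := by
        rw [UH_one hC]
        exact Un_le i
      rw [hco.add 1 _ _ _ le_rfl (hUH hu') (by
        rw [UH_one hC]
        exact xg_Ug hC hpos b) ht_al, hco.un i hu', zero_add]
      exact hco.self _ b hpos
    rw [h1]
    exact hb
  | succ n ih =>
    intro k hk u hu m h hm β hβ
    have hpos : β.Pos := by
      rw [pos_iff hC, hβ]
      push_cast
      omega
    rcases (H22.hRD r C hC).1 β hpos with ⟨i, h1⟩ | ⟨i, h1, -⟩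
    · rw [h1, ht_al] at hβ
      push_cast at hβ
      omega
    · have h1' : ip C (al i) β.1 = 1 := by rw [hC.ip_comm, h1]
      obtain ⟨δ, hδ⟩ := exists_rf hC i β
      have h2 := ht_rf hδ
      have h3 : ht δ = (n + 1 : ℕ) := by
        rw [h2, hβ, h1']
        push_cast
        ring
      obtain ⟨e, he, hcj⟩ := hco.conj i (h := n + 1 + 1) (by omega) hβ (by rw [h3]; rfl) hδ
      have hw : wi hC K i * u * (wi hC K i)⁻¹ ∈ UH hC K (n + 1) := by
        have hw1 := wi_UH hC i (h := n + 1 + 1) (by omega) hu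
        rwa [Nat.add_sub_cancel] at hw1
      have hz1 : (wi hC K i * k) • z = (wi hC K i * u * (wi hC K i)⁻¹) • tp hC K (sf C i m) := by
        rw [conj_smul i h, wi_tp]
      have h4 := ih (wi hC K i * k) (mul_mem (wi_maxK hC i) hk) _ hw
        (sf C i m) hz1 (by rw [ip_sf_sf hC, hm]) δ h3
      rw [hδ, ip_sf_sf hC, hcj u hu] at h4
      have h5 := hF4 _ _ _ _ (hF6 e) h4
      rw [zero_add, ← mul_assoc] at h5
      have h6 : ((e : ℤ) : FF K) * ((e : ℤ) : FF K) = 1 := by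
        exact_mod_cast congrArg (Int.cast : ℤ → FF K) he
      rwa [h6, one_mul] at h5

/-- Removing some coordinates of height `h`. -/
theorem kill_some (hco : IsCo hC K co) {z : XX C K} {M : ℤ} (hM : Mx hC K z M) {n : ℕ}
    {m : Fin r → ℤ} (hm : ip C m m = M) (ha : IsAnti C m)
    (h : ∃ k ∈ maxK C K, ∃ u ∈ UH hC K (n + 1), k • z = u • tp hC K m) (S : Finset (Rt C)) :
    (∀ β ∈ S, ht β = (n + 1 : ℕ)) → ∃ k ∈ maxK C K, ∃ u ∈ UH hC K (n + 1),
      k • z = u • tp hC K m ∧ ∀ β ∈ S, co u β = 0 := by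
  classical
  induction S using Finset.induction_on with
  | empty =>
    intro _
    obtain ⟨k, hk, u, hu, e⟩ := h
    exact ⟨k, hk, u, hu, e, by simp⟩
  | insert β S hβS ih =>
    intro hS
    obtain ⟨k, hk, u, hu, e, hz⟩ := ih fun γ hγ => hS γ (Finset.mem_insert_of_mem hγ)
    have hβ := hS β (Finset.mem_insert_self β S)
    have hpos : β.Pos := by
      rw [pos_iff hC, hβ]
      push_cast
      omega
    have h1 := bound_co hco hM n k hk u hu m e hm β hβ
    rw [max_eq_left (pos_anti ha hpos)] at h1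
    have h2 : -co u β ∈ Bd K 0 := (H22.hF1 K).2.2.1 _ _ h1
    have hx : xg hC β (-co u β) ∈ UH hC K (n + 1) := xg_UH hC (by rw [hβ]) _
    refine ⟨xg hC β (-co u β) * k, mul_mem (xg_maxK hC β h2) hk, xg hC β (-co u β) * u,
      mul_mem hx hu, by rw [mul_smul, e, mul_smul], fun γ hγ => ?_⟩
    have hγh := hS γ hγ
    rw [hco.add (n + 1) _ _ _ (by omega) hx hu hγh]
    rcases Finset.mem_insert.mp hγ with rfl | hγS
    · rw [hco.self _ _ hpos]
      ring
    · rw [hz γ hγS, hco.ne (h := n + 1) (by omega) hγh (by rw [hβ]) (by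
        rintro rfl
        exact hβS hγS), add_zero]

theorem kill_h (hco : IsCo hC K co) {z : XX C K} {M : ℤ} (hM : Mx hC K z M) {n : ℕ}
    {m : Fin r → ℤ} (hm : ip C m m = M) (ha : IsAnti C m)
    (h : ∃ k ∈ maxK C K, ∃ u ∈ UH hC K (n + 1), k • z = u • tp hC K m) :
    ∃ k ∈ maxK C K, ∃ u ∈ UH hC K (n + 1 + 1), k • z = u • tp hC K m := by
  classical
  have hfin : Finite (Rt C) := H22.hRF r C hC
  let _ : Fintype (Rt C) := Fintype.ofFinite _
  obtain ⟨k, hk, u, hu, e, hz⟩ := kill_some hco hM hm ha h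
    (Finset.univ.filter fun β : Rt C => ht β = (n + 1 : ℕ)) (by simp)
  refine ⟨k, hk, u, hco.ker (n + 1) u (by omega) hu fun β hβ => hz β ?_, e⟩
  simp [hβ]

/-- Lemma F. -/
theorem kill_all (hco : IsCo hC K co) {z : XX C K} {M : ℤ} (hM : Mx hC K z M)
    {m : Fin r → ℤ} (hm : ip C m m = M) (ha : IsAnti C m)
    (h : ∃ k ∈ maxK C K, ∃ u ∈ Ug C K, k • z = u • tp hC K m) :
    ∃ k ∈ maxK C K, k • z = tp hC K m := by
  have h1 : ∀ n : ℕ, ∃ k ∈ maxK C K, ∃ u ∈ UH hC K (n + 1), k • z = u • tp hC K m := by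
    intro n
    induction n with
    | zero =>
      rw [zero_add, UH_one hC]
      exact h
    | succ n ih => exact kill_h hco hM hm ha ih
  obtain ⟨H, hH⟩ := hco.bot
  obtain ⟨k, hk, u, hu, e⟩ := h1 H
  rw [hH (H + 1) (by omega), Subgroup.mem_bot] at hu
  subst hu
  exact ⟨k, hk, by rw [e, one_smul]⟩

/-- Lemmas C and F together. -/
theorem anti_point [Finite K] (coo : CooStmt) (hKF : DEN.TMP.KfinStmt) (hor : HorStmt)
    (kor : KorStmt) (hC : SimplyLaced C) {z : XX C K} {M : ℤ} (hM : Mx hC K z M)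
    {m : Fin r → ℤ} (hm : ip C m m = M) (h : ∃ k ∈ maxK C K, ∃ u ∈ Ug C K, k • z = u • tp hC K m) :
    ∃ m', WR C m m' ∧ IsAnti C m' ∧ ∃ k ∈ maxK C K, k • z = tp hC K m' := by
  obtain ⟨co, hco⟩ := exists_co (K := K) coo hC
  obtain ⟨m', hW, ha⟩ := anti_rep (K := K) hC hKF hor kor m
  exact ⟨m', hW, ha, kill_all hco hM (by rw [wr_norm hC hW, hm]) ha (wr_step hM hW hm h)⟩

end

/-- CAT: Cartan decomposition, and the horocycles which meet a `K`-orbit. -/
theorem cat (hKF : DEN.TMP.KfinStmt) (coo : CooStmt) (hor : HorStmt) (ian : IanStmt)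
    (kor : KorStmt) : CatStmt := by
  intro r C hC K _ _
  refine ⟨fun x => ?_, fun l m k hk u hu h => ?_, fun l hl h0 => anti_neg hC hl h0,
    fun l => anti_rep (K := K) hC hKF hor kor l⟩
  · obtain ⟨m, hm, hmax⟩ := lam_max hC hKF hor x
    have hM : Mx hC K x (ip C m m) := fun k hk u hu m' h => hmax m' ⟨k, hk, u, hu, h⟩
    obtain ⟨m', -, ha, k, hk, e⟩ := anti_point coo hKF hor kor hC hM rfl hm
    exact ⟨k⁻¹, inv_mem hk, m', ha, by rw [← e, inv_smul_smul]⟩
  · obtain ⟨m₀, hm₀, hmax⟩ := lam_max hC hKF hor (tp hC K l)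
    have hM : Mx hC K (tp hC K l) (ip C m₀ m₀) := fun k hk u hu m' h => hmax m' ⟨k, hk, u, hu, h⟩
    have key : ∀ m₁, ip C m₁ m₁ = ip C m₀ m₀ →
        (∃ k ∈ maxK C K, ∃ u ∈ Ug C K, k • tp hC K l = u • tp hC K m₁) → WR C l m₁ := by
      intro m₁ hm₁ h₁
      obtain ⟨m', hW, ha, k', hk', e⟩ := anti_point coo hKF hor kor hC hM hm₁ h₁
      obtain ⟨p, hp, g, hg, e2⟩ := (kor r C hC K l).1 k' hk'
      obtain ⟨v, hv, e3⟩ := ian r C hC K m' ha g⁻¹ (inv_mem hg)
      have hvU : v ∈ Ug C K := by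
        have hle : UO hC K ≤ Ug C K := by
          rw [Ug_eq hC]
          refine Subgroup.closure_mono ?_
          rintro g ⟨β, a, hβ, -, rfl⟩
          exact ⟨β, a, hβ, rfl⟩
        exact hle hv
      have e4 : m' = p := by
        refine (hor r C hC K).1 v hvU m' p ?_
        rw [← e3, ← e, e2, inv_smul_smul]
      rw [← e4] at hp
      exact wr_trans hp (wr_symm hC hW)
    have h0 := key m₀ rfl hm₀
    have h1 : ip C m₀ m₀ = ip C l l := wr_norm hC h0
    have h2 := hM k hk u hu m h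
    exact ⟨by omega, fun h3 => key m (by omega) ⟨k, hk, u, hu, h⟩⟩

end Pool.Agent.TMP.H43.Cat
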