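import Pool.Agent.Helper39_TMP.Hor

/-!
# FLA: the adjoint, and the lower bound of the norm
-/

set_option autoImplicit false

open scoped BigOperators

namespace Pool.Agent.TMP.H43

open Pool.Agent.DEN Pool.Agent.TMP

section
variable {r : ℕ} {C : Matrix (Fin r) (Fin r) ℤ} {K : Type} [Field K]

/-- The orbit of `t^{-l} o` under `U(𝒪)`. -/
def UOt (hC : SimplyLaced C) (K : Type) [Field K] (l : Fin r → ℤ) : Set (XX C K) :=
  {y | ∃ u ∈ UO hC K, y = u • tp hC K (-l)}

theorem UO_le (hC : SimplyLaced C) : UO hC K ≤ Ug C K := by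
  refine Subgroup.closure_mono ?_
  rintro g ⟨β, a, hβ, -, rfl⟩
  exact ⟨β, a, hβ, fun _ => rfl⟩

theorem UOt_disj (hC : SimplyLaced C) {l m : Fin r → ℤ} {y : XX C K} (h : y ∈ UOt hC K l)
    (h' : y ∈ UOt hC K m) : l = m := by
  obtain ⟨u, hu, rfl⟩ := h
  obtain ⟨v, hv, e⟩ := h'
  have h1 := H39.hor1 hC (mul_mem (inv_mem (UO_le hC hv)) (UO_le hC hu)) (-l) (-m)
    (by rw [mul_smul, e, ← mul_smul, inv_mul_cancel, one_smul])
  exact neg_injective h1

open Classical in
/-- The orbit as a finite set. -/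
noncomputable def Af (hC : SimplyLaced C) (K : Type) [Field K] (l : Fin r → ℤ) :
    Finset (XX C K) :=
  if h : (UOt hC K l).Finite then h.toFinset else ∅

theorem mem_Af (hC : SimplyLaced C) {l : Fin r → ℤ} (h : (UOt hC K l).Finite) (y : XX C K) :
    y ∈ Af hC K l ↔ y ∈ UOt hC K l := by
  unfold Af
  rw [dif_pos h]
  exact Set.Finite.mem_toFinset h

theorem exists_shift (hC : SimplyLaced C) (B : Finset (Fin r → ℤ)) (D : ℤ) :
    ∃ w : Fin r → ℤ, ∀ x ∈ B, ∀ i, D ≤ ip C (al i) (w + x) := by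
  obtain ⟨v, hv⟩ := H39.exists_rho hC
  have hv2 : ∀ i, ip C (al i) v = 2 := by
    intro i
    have h1 := hv (hC.sr i)
    have h2 : ht (hC.sr i) = 1 := by
      unfold ht
      rw [SimplyLaced.sr_val]
      simp [al, Pi.single_apply]
    rw [h2, SimplyLaced.sr_val] at h1
    simpa using h1
  set M : ℤ := ∑ x ∈ B, ∑ i, |ip C (al i) x| with hM
  refine ⟨(|D| + M) • v, fun x hx i => ?_⟩
  have h1 : |ip C (al i) x| ≤ M := by
    refine le_trans ?_ (Finset.single_le_sum (f := fun x => ∑ i, |ip C (al i) x|)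
      (fun y _ => Finset.sum_nonneg fun i _ => abs_nonneg _) hx)
    exact Finset.single_le_sum (f := fun i => |ip C (al i) x|) (fun i _ => abs_nonneg _)
      (Finset.mem_univ i)
  have h2 : ip C (al i) ((|D| + M) • v + x) = (|D| + M) * 2 + ip C (al i) x := by
    rw [ip_add_right, ip_smul_right, hv2]
  rw [h2]
  have h3 := neg_abs_le (ip C (al i) x)
  have h4 := le_abs_self D
  have h5 := abs_nonneg D
  have h6 : 0 ≤ M := le_trans (abs_nonneg _) h1
  linarith

theorem card_Af (hctu : CtuStmt) (hC : SimplyLaced C) [Finite K] {l : Fin r → ℤ}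
    (hl : IsDom C l) : (UOt hC K l).Finite ∧
      ((Af hC K l).card : ℂ) = (Nat.card K : ℂ) ^ (2 * hv l) := by
  obtain ⟨h1, h2⟩ := hctu r C hC K l hl
  refine ⟨h1, ?_⟩
  rw [← h2]
  have e : Af hC K l = h1.toFinset := by
    unfold Af
    exact dif_pos h1
  rw [e, Nat.card_eq_card_finite_toFinset h1]

theorem row_Af (hctu : CtuStmt) (hC : SimplyLaced C) [Finite K]
    {k : XX C K → XX C K → ℂ} {D : ℤ}
    (hD : ∀ l m : Fin r → ℤ, (∀ i, D ≤ ip C (al i) l) → ∀ u ∈ UO hC K,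
      ∑ᶠ y ∈ {y : XX C K | ∃ u ∈ UO hC K, y = u • tp hC K (-m)}, k (u • tp hC K (-l)) y =
        hsum hC k (l - m)) {l m : Fin r → ℤ} (hl : ∀ i, D ≤ ip C (al i) l) (hm : IsDom C m)
    {x : XX C K} (hx : x ∈ UOt hC K l) :
    ∑ y ∈ Af hC K m, k x y = hsum hC k (l - m) := by
  obtain ⟨u, hu, rfl⟩ := hx
  rw [← hD l m hl u hu]
  have h1 := (card_Af hctu hC hm (K := K)).1
  have e : Af hC K m = h1.toFinset := by
    unfold Af
    exact dif_pos h1
  rw [e]
  exact (finsum_mem_eq_finite_toFinset_sum _ h1).symm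

theorem card_ne (K : Type) [Field K] [Finite K] : (Nat.card K : ℂ) ≠ 0 := by
  have : Nat.card K ≠ 0 := Nat.card_pos.ne'
  exact_mod_cast this

theorem hv_add (l m : Fin r → ℤ) : hv (l + m) = hv l + hv m := by
  unfold hv
  rw [← Finset.sum_add_distrib]
  rfl

theorem hv_neg (l : Fin r → ℤ) : hv (-l) = - hv l := by
  unfold hv
  rw [← Finset.sum_neg_distrib]
  rfl

theorem hv_sub (l m : Fin r → ℤ) : hv (l - m) = hv l - hv m := by
  rw [sub_eq_add_neg, hv_add, hv_neg]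
  ring

theorem fla1 (hctu : CtuStmt) (hdep : DepStmt) (hker : KerStmt) (hC : SimplyLaced C) [Finite K]
    {k : XX C K → XX C K → ℂ} (hk : IsKer k) (l : Fin r → ℤ) :
    sat hC (kst k) l = (starRingEnd ℂ) (sat hC k (-l)) := by
  classical
  have hk' : IsKer (kst k) := (hker r C hC K).2.2.1 k hk
  obtain ⟨D, hD⟩ := hdep r C hC K k hk
  obtain ⟨D', hD'⟩ := hdep r C hC K (kst k) hk'
  obtain ⟨w, hw⟩ := exists_shift hC {0, l} (max (max D D') 0)
  have hw0 : ∀ i, max (max D D') 0 ≤ ip C (al i) w := by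
    intro i
    have := hw 0 (by simp) i
    simpa using this
  have hw1 : ∀ i, max (max D D') 0 ≤ ip C (al i) (w + l) := fun i => hw l (by simp) i
  have hdw : IsDom C w := fun i => le_trans (le_max_right _ _) (hw0 i)
  have hdm : IsDom C (w + l) := fun i => le_trans (le_max_right _ _) (hw1 i)
  obtain ⟨f1, c1⟩ := card_Af hctu hC hdw (K := K)
  obtain ⟨f2, c2⟩ := card_Af hctu hC hdm (K := K)
  have e1 : ∑ x ∈ Af hC K w, ∑ y ∈ Af hC K (w + l), k x y =
      (Nat.card K : ℂ) ^ (2 * hv w) * hsum hC k (-l) := by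
    rw [Finset.sum_congr rfl (fun x hx => row_Af hctu hC hD
      (fun i => le_trans (le_trans (le_max_left _ _) (le_max_left _ _)) (hw0 i)) hdm
      ((mem_Af hC f1 x).1 hx))]
    rw [Finset.sum_const, nsmul_eq_mul, c1]
    congr 2
    abel
  have e2 : ∑ y ∈ Af hC K (w + l), ∑ x ∈ Af hC K w, kst k y x =
      (Nat.card K : ℂ) ^ (2 * hv (w + l)) * hsum hC (kst k) l := by
    rw [Finset.sum_congr rfl (fun x hx => row_Af hctu hC hD'
      (fun i => le_trans (le_trans (le_max_right _ _) (le_max_left _ _)) (hw1 i)) hdw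
      ((mem_Af hC f2 x).1 hx))]
    rw [Finset.sum_const, nsmul_eq_mul, c2]
    congr 2
    abel
  have e3 : (starRingEnd ℂ) (∑ x ∈ Af hC K w, ∑ y ∈ Af hC K (w + l), k x y) =
      ∑ y ∈ Af hC K (w + l), ∑ x ∈ Af hC K w, kst k y x := by
    rw [map_sum, Finset.sum_comm]
    refine Finset.sum_congr rfl fun x _ => ?_
    rw [map_sum]
    rfl
  rw [e1, e2, map_mul, map_zpow₀, Complex.conj_natCast] at e3
  unfold sat
  rw [map_mul, map_zpow₀, Complex.conj_natCast, hv_neg]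
  have hq := card_ne K
  have e4 : hsum hC (kst k) l = (Nat.card K : ℂ) ^ (-(2 * hv (w + l))) *
      ((Nat.card K : ℂ) ^ (2 * hv w) * (starRingEnd ℂ) (hsum hC k (-l))) := by
    rw [e3, ← mul_assoc, ← zpow_add₀ hq]
    simp
  rw [e4, ← mul_assoc, ← mul_assoc, ← zpow_add₀ hq, ← zpow_add₀ hq, hv_add]
  congr 2
  ring

theorem fla2_aux (hctu : CtuStmt) (hdep : DepStmt) (hsmu : SmuStmt) (hC : SimplyLaced C)
    [Finite K] {k : XX C K → XX C K → ℂ} (hk : IsKer k) {τ : ℝ} (hτ : KNorm k τ)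
    (s : (Fin r → ℤ) → ℂ) (hs : ∀ l m, s (l + m) = s l * s m) (hs1 : ∀ l, ‖s l‖ = 1) :
    ∃ S : ℕ, ∀ R : ℕ, (R : ℝ) ^ r * ‖∑ᶠ m, sat hC k m * s (-m)‖ ^ 2 ≤
      τ ^ 2 * ((R : ℝ) + 2 * S) ^ r := by
  classical
  have hfin := (hsmu r C hC K).1 k hk
  obtain ⟨D, hD⟩ := hdep r C hC K k hk
  set P : Finset (Fin r → ℤ) := hfin.toFinset with hP
  have hPm : ∀ m, m ∈ P ↔ sat hC k m ≠ 0 := fun m => Set.Finite.mem_toFinset hfin
  set S : ℕ := ∑ m ∈ P, ∑ i, (m i).natAbs with hS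
  have hSb : ∀ m ∈ P, ∀ i, (m i).natAbs ≤ S := by
    intro m hm i
    refine le_trans ?_ (Finset.single_le_sum (f := fun m : Fin r → ℤ => ∑ i, (m i).natAbs)
      (fun y _ => Nat.zero_le _) hm)
    exact Finset.single_le_sum (f := fun i => (m i).natAbs) (fun i _ => Nat.zero_le _)
      (Finset.mem_univ i)
  refine ⟨S, fun R => ?_⟩
  set Bi : Finset (Fin r → ℤ) := Fintype.piFinset (fun _ => Finset.Ico (0 : ℤ) R) with hBi
  set Bo : Finset (Fin r → ℤ) := Fintype.piFinset (fun _ => Finset.Ico (-(S : ℤ)) (R + S))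
    with hBo
  have hBio : ∀ x ∈ Bi, ∀ m ∈ P, x - m ∈ Bo := by
    intro x hx m hm
    rw [hBi, Fintype.mem_piFinset] at hx
    rw [hBo, Fintype.mem_piFinset]
    intro i
    have h1 := Finset.mem_Ico.1 (hx i)
    have h2 := hSb m hm i
    rw [Finset.mem_Ico, Pi.sub_apply]
    omega
  have hsub : Bi ⊆ Bo := by
    intro x hx
    rw [hBi, Fintype.mem_piFinset] at hx
    rw [hBo, Fintype.mem_piFinset]
    intro i
    have h1 := Finset.mem_Ico.1 (hx i)
    rw [Finset.mem_Ico]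
    omega
  obtain ⟨w, hw⟩ := exists_shift hC Bo (max D 0)
  have hdom : ∀ x ∈ Bo, IsDom C (w + x) := fun x hx i => le_trans (le_max_right _ _) (hw x hx i)
  have hdeep : ∀ x ∈ Bo, ∀ i, D ≤ ip C (al i) (w + x) :=
    fun x hx i => le_trans (le_max_left _ _) (hw x hx i)
  have hq := card_ne K
  set q : ℂ := (Nat.card K : ℂ) with hqd
  -- the test function
  set φ : XX C K → ℂ := fun y => ∑ x ∈ Bo, if y ∈ Af hC K (w + x) then
    s (w + x) * q ^ (-hv (w + x)) else 0 with hφ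
  have hφv : ∀ x ∈ Bo, ∀ y ∈ Af hC K (w + x), φ y = s (w + x) * q ^ (-hv (w + x)) := by
    intro x hx y hy
    rw [hφ]
    simp only
    rw [Finset.sum_eq_single x]
    · rw [if_pos hy]
    · intro z hz hzx
      rw [if_neg]
      intro hy'
      apply hzx
      have h1 := (mem_Af hC (card_Af hctu hC (hdom x hx) (K := K)).1 y).1 hy
      have h2 := (mem_Af hC (card_Af hctu hC (hdom z hz) (K := K)).1 y).1 hy'
      exact add_left_cancel (UOt_disj hC h2 h1)
    · intro h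
      exact absurd hx h
  have hdisj : ∀ B : Finset (Fin r → ℤ), B ⊆ Bo →
      (B : Set (Fin r → ℤ)).PairwiseDisjoint (fun x => Af hC K (w + x)) := by
    intro B hB x hx z hz hxz
    rw [Function.onFun, Finset.disjoint_left]
    intro y hy hy'
    apply hxz
    have h1 := (mem_Af hC (card_Af hctu hC (hdom x (hB hx)) (K := K)).1 y).1 hy
    have h2 := (mem_Af hC (card_Af hctu hC (hdom z (hB hz)) (K := K)).1 y).1 hy'
    exact add_left_cancel (UOt_disj hC h1 h2)
  have hcard : ∀ x ∈ Bo, ((Af hC K (w + x)).card : ℝ) * ‖q ^ (-hv (w + x))‖ ^ 2 = 1 := by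
    intro x hx
    have h1 := (card_Af hctu hC (hdom x hx) (K := K)).2
    have h2 : ((Af hC K (w + x)).card : ℝ) = ‖q‖ ^ (2 * hv (w + x)) := by
      have := congrArg norm h1
      rw [Complex.norm_natCast, norm_zpow] at this
      exact this
    have hq' : ‖q‖ ≠ 0 := norm_ne_zero_iff.2 hq
    rw [h2, norm_zpow, ← zpow_natCast, ← zpow_mul, ← zpow_add₀ hq']
    have : 2 * hv (w + x) + -hv (w + x) * ((2 : ℕ) : ℤ) = 0 := by push_cast; ring
    rw [this, zpow_zero]
  set T : Finset (XX C K) := Bo.biUnion (fun x => Af hC K (w + x)) with hT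
  set S' : Finset (XX C K) := Bi.biUnion (fun x => Af hC K (w + x)) with hS'
  have h1 := hτ S' T φ
  have hright : ∑ y ∈ T, ‖φ y‖ ^ 2 = Bo.card := by
    rw [hT, Finset.sum_biUnion (hdisj Bo (Finset.Subset.refl _))]
    rw [Finset.card_eq_sum_ones, Nat.cast_sum]
    refine Finset.sum_congr rfl fun x hx => ?_
    rw [Finset.sum_congr rfl (fun y hy => by rw [hφv x hx y hy])]
    rw [Finset.sum_const, nsmul_eq_mul, norm_mul, hs1, one_mul, hcard x hx]
    simp
  set A : ℂ := ∑ᶠ m, sat hC k m * s (-m) with hA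
  have hA2 : A = ∑ m ∈ P, sat hC k m * s (-m) := by
    rw [hA]
    refine finsum_eq_sum_of_support_subset _ ?_
    intro m hm
    rw [Function.mem_support] at hm
    rw [Finset.mem_coe, hPm]
    intro h
    exact hm (by rw [h, zero_mul])
  have hrow : ∀ x ∈ Bi, ∀ x' ∈ Af hC K (w + x), ∑ y ∈ T, k x' y * φ y =
      q ^ (-hv (w + x)) * (s (w + x) * A) := by
    intro x hx x' hx'
    have hxo := hsub hx
    have hx2 := (mem_Af hC (card_Af hctu hC (hdom x hxo) (K := K)).1 x').1 hx'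
    rw [hT, Finset.sum_biUnion (hdisj Bo (Finset.Subset.refl _))]
    have e1 : ∀ z ∈ Bo, ∑ y ∈ Af hC K (w + z), k x' y * φ y =
        q ^ (-hv (w + x)) * (s (w + z) * sat hC k (x - z)) := by
      intro z hz
      rw [Finset.sum_congr rfl (fun y hy => by rw [hφv z hz y hy]), ← Finset.sum_mul,
        row_Af hctu hC hD (hdeep x hxo) (hdom z hz) hx2]
      unfold sat
      have e2 : (w + x) - (w + z) = x - z := by abel
      have e3 : -hv (w + z) = -hv (w + x) + hv (x - z) := by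
        rw [hv_add, hv_add, hv_sub]
        ring
      rw [e2, e3, zpow_add₀ hq]
      ring
    rw [Finset.sum_congr rfl e1, ← Finset.mul_sum]
    congr 1
    have e4 : ∑ z ∈ Bo, s (w + z) * sat hC k (x - z) =
        ∑ z ∈ P.image (fun m => x - m), s (w + z) * sat hC k (x - z) := by
      symm
      refine Finset.sum_subset ?_ ?_
      · intro z hz
        obtain ⟨m, hm, rfl⟩ := Finset.mem_image.1 hz
        exact hBio x hx m hm
      · intro z hz hz'
        have : sat hC k (x - z) = 0 := by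
          by_contra h
          apply hz'
          refine Finset.mem_image.2 ⟨x - z, (hPm _).2 h, ?_⟩
          abel
        rw [this, mul_zero]
    rw [e4, Finset.sum_image (fun a _ b _ hab => by simpa using hab), hA2, Finset.mul_sum]
    refine Finset.sum_congr rfl fun m _ => ?_
    have e5 : w + (x - m) = (w + x) + (-m) := by abel
    have e6 : x - (x - m) = m := by abel
    rw [e5, e6, hs]
    ring
  have hleft : ∑ x' ∈ S', ‖∑ y ∈ T, k x' y * φ y‖ ^ 2 = Bi.card * ‖A‖ ^ 2 := by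
    rw [hS', Finset.sum_biUnion (hdisj Bi hsub)]
    rw [Finset.card_eq_sum_ones, Nat.cast_sum, Finset.sum_mul]
    refine Finset.sum_congr rfl fun x hx => ?_
    rw [Finset.sum_congr rfl (fun x' hx' => by rw [hrow x hx x' hx'])]
    rw [Finset.sum_const, nsmul_eq_mul, norm_mul, norm_mul, hs1, one_mul, mul_pow, ← mul_assoc,
      hcard x (hsub hx)]
    simp
  rw [hleft, hright] at h1
  have c1 : (Bi.card : ℝ) = (R : ℝ) ^ r := by
    rw [hBi, Fintype.card_piFinset]
    simp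
  have c2 : (Bo.card : ℝ) = ((R : ℝ) + 2 * S) ^ r := by
    rw [hBo, Fintype.card_piFinset]
    simp only [Int.card_Ico, sub_neg_eq_add, Finset.prod_const, Finset.card_univ,
      Fintype.card_fin, Nat.cast_pow]
    congr 1
    have : ((R : ℤ) + S + S).toNat = R + 2 * S := by omega
    rw [this]
    push_cast
    ring
  rw [c1, c2] at h1
  exact h1

theorem fla2 (hctu : CtuStmt) (hdep : DepStmt) (hsmu : SmuStmt) (hC : SimplyLaced C)
    [Finite K] {k : XX C K → XX C K → ℂ} (hk : IsKer k) {τ : ℝ} (h0 : 0 ≤ τ) (hτ : KNorm k τ)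
    (s : (Fin r → ℤ) → ℂ) (hs : ∀ l m, s (l + m) = s l * s m) (hs1 : ∀ l, ‖s l‖ = 1) :
    ‖∑ᶠ m, sat hC k m * s m‖ ≤ τ := by
  obtain ⟨S, hS⟩ := fla2_aux hctu hdep hsmu hC hk hτ (fun l => s (-l))
    (fun l m => by rw [neg_add, hs]) (fun l => hs1 _)
  simp only [neg_neg] at hS
  set A : ℂ := ∑ᶠ m, sat hC k m * s m with hA
  have h1 : ∀ R : ℕ, 1 ≤ R → ‖A‖ ^ 2 ≤ τ ^ 2 * (1 + 2 * S / (R : ℝ)) ^ r := by
    intro R hR
    have hR' : (0 : ℝ) < R := by exact_mod_cast hR
    have h2 := hS R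
    have h3 : (R : ℝ) + 2 * S = R * (1 + 2 * S / (R : ℝ)) := by
      field_simp
    rw [h3, mul_pow] at h2
    have h4 : (0 : ℝ) < (R : ℝ) ^ r := pow_pos hR' r
    have h5 : (R : ℝ) ^ r * ‖A‖ ^ 2 ≤ (R : ℝ) ^ r * (τ ^ 2 * (1 + 2 * S / (R : ℝ)) ^ r) := by
      linarith
    exact le_of_mul_le_mul_left h5 h4
  have h2 : Filter.Tendsto (fun R : ℕ => τ ^ 2 * (1 + 2 * S / (R : ℝ)) ^ r) Filter.atTop
      (nhds (τ ^ 2 * (1 + 0) ^ r)) := by
    refine Filter.Tendsto.const_mul _ (Filter.Tendsto.pow (Filter.Tendsto.const_add _ ?_) r)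
    exact tendsto_const_div_atTop_nhds_zero_nat _
  have h3 : ‖A‖ ^ 2 ≤ τ ^ 2 := by
    have := ge_of_tendsto h2 (Filter.eventually_atTop.2 ⟨1, fun R hR => h1 R hR⟩)
    simpa using this
  exact (pow_le_pow_iff_left₀ (norm_nonneg _) h0 two_ne_zero).1 h3

end

theorem fla (hctu : CtuStmt) (hdep : DepStmt) (hsmu : SmuStmt) (hker : KerStmt) : FlaStmt := by
  intro r C hC K _ _ k hk
  exact ⟨fun l => fla1 hctu hdep hker hC hk l,
    fun τ h0 hτ s hs hs1 => fla2 hctu hdep hsmu hC hk h0 hτ s hs hs1⟩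

end Pool.Agent.TMP.H43
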