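import Pool.Agent.Helper22_DEN.Asm
import Pool.Agent.Helper2_TMP.StG

/-!
# KFIN: the orbits of the maximal compact subgroup on the vertices are finite
-/

set_option autoImplicit false

open scoped BigOperators

namespace Pool.Agent.TMP.H43

open Pool.Agent.DEN Pool.Agent.DEN.TMP

section
variable {r : ℕ} {C : Matrix (Fin r) (Fin r) ℤ} {K : Type} [Field K]

/-- two integral elements with the same first `2 m` coefficients -/
theorem sub_mem_Bd_of_coeff {m : ℕ} {a b : FF K} (ha : a ∈ Bd K 0) (hb : b ∈ Bd K 0)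
    (h : ∀ j : Fin (2 * m), a.coeff (j : ℤ) = b.coeff (j : ℤ)) :
    a - b ∈ Bd K (-(2 * m : ℕ) : ℤ) := by
  intro j hj
  have hj' : j < (2 * m : ℕ) := by simpa using hj
  rw [HahnSeries.coeff_sub]
  by_cases h0 : j < 0
  · rw [ha j (by simpa using h0), hb j (by simpa using h0), sub_zero]
  · have e : ((j.toNat : ℕ) : ℤ) = j := Int.toNat_of_nonneg (not_lt.1 h0)
    have hlt : j.toNat < 2 * m := by
      have : ((j.toNat : ℕ) : ℤ) < ((2 * m : ℕ) : ℤ) := by rw [e]; exact hj'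
      exact_mod_cast this
    have := h ⟨j.toNat, hlt⟩
    simp only [e] at this
    rw [this, sub_self]

theorem kfin_lin [Finite (Rt C)] {k k' : grp C K} {n p : ℤ}
    (H : ∀ i, Cd (Bd K n) (k'.1 (H63.bas C K i) - k.1 (H63.bas C K i)))
    {v : LieV C (FF K)} (hv : Cd (Bd K p) v) : Cd (Bd K (p + n)) (k'.1 v - k.1 v) := by
  classical
  cases nonempty_fintype (Rt C)
  obtain ⟨z, add, neg, mul, mono, int, tne, tmul, dec⟩ := H22.hF1 K
  have e : v = ∑ i, v.1 i • H63.bas C K (Sum.inl i) + ∑ γ, v.2 γ • H63.bas C K (Sum.inr γ) := by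
    refine Prod.ext ?_ ?_
    · funext j
      simp only [H63.bas, Sum.elim_inl, Sum.elim_inr, Prod.fst_add, Prod.fst_sum, Prod.smul_fst,
        Pi.add_apply, Finset.sum_apply, Pi.smul_apply, smul_eq_mul, Pi.zero_apply, mul_zero,
        Finset.sum_const_zero, add_zero, Pi.single_apply, mul_ite, mul_one]
      rw [Finset.sum_ite_eq]
      simp
    · funext j
      simp only [H63.bas, Sum.elim_inl, Sum.elim_inr, Prod.snd_add, Prod.snd_sum, Prod.smul_snd,
        Pi.add_apply, Finset.sum_apply, Pi.smul_apply, smul_eq_mul, Pi.zero_apply, mul_zero,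
        Finset.sum_const_zero, zero_add, Pi.single_apply, mul_ite, mul_one]
      rw [Finset.sum_ite_eq]
      simp
  have e2 : k'.1 v - k.1 v =
      ∑ i, v.1 i • (k'.1 (H63.bas C K (Sum.inl i)) - k.1 (H63.bas C K (Sum.inl i))) +
      ∑ γ, v.2 γ • (k'.1 (H63.bas C K (Sum.inr γ)) - k.1 (H63.bas C K (Sum.inr γ))) := by
    conv_lhs => rw [e]
    simp only [map_add, map_sum, map_smul, smul_sub, Finset.sum_sub_distrib]
    abel
  rw [e2]
  constructor
  · intro j
    simp only [Prod.fst_add, Prod.fst_sum, Prod.smul_fst, Pi.add_apply, Finset.sum_apply,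
      Pi.smul_apply, smul_eq_mul]
    exact add _ _ _ (H75.bd_sum H22.hF1 _ _ _ fun i _ => mul p n _ _ (hv.1 i) ((H _).1 j))
      (H75.bd_sum H22.hF1 _ _ _ fun γ _ => mul p n _ _ (hv.2 γ) ((H _).1 j))
  · intro j
    simp only [Prod.snd_add, Prod.snd_sum, Prod.smul_snd, Pi.add_apply, Finset.sum_apply,
      Pi.smul_apply, smul_eq_mul]
    exact add _ _ _ (H75.bd_sum H22.hF1 _ _ _ fun i _ => mul p n _ _ (hv.1 i) ((H _).2 j))
      (H75.bd_sum H22.hF1 _ _ _ fun γ _ => mul p n _ _ (hv.2 γ) ((H _).2 j))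

theorem kfin_bnd [Finite (Rt C)] {g k k' : grp C K} {m : ℕ} (hg : bnd (m : ℤ) g)
    (hg' : bnd (m : ℤ) g⁻¹) (hk : bnd (0 : ℤ) k⁻¹)
    (H : ∀ i, Cd (Bd K (-(2 * m : ℕ) : ℤ)) (k'.1 (H63.bas C K i) - k.1 (H63.bas C K i))) :
    bnd (0 : ℤ) ((k * g)⁻¹ * (k' * g)) := by
  obtain ⟨z, add, neg, mul, mono, int, tne, tmul, dec⟩ := H22.hF1 K
  intro v hv
  have h1 : Cd (Bd K m) (g.1 v) := hg v hv
  have h2 : Cd (Bd K ((m : ℤ) + (-(2 * m : ℕ) : ℤ))) (k'.1 (g.1 v) - k.1 (g.1 v)) :=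
    kfin_lin H h1
  have h3 := H75.bnd_apply H22.hF1 hk h2
  have h4 := H75.bnd_apply H22.hF1 hg' h3
  have e0 : (m : ℤ) + (0 + ((m : ℤ) + (-(2 * m : ℕ) : ℤ))) = 0 := by push_cast; ring
  rw [e0] at h4
  have e1 : ((k * g)⁻¹ * (k' * g)).1 v =
      v + (g⁻¹).1 ((k⁻¹).1 (k'.1 (g.1 v) - k.1 (g.1 v))) := by
    rw [map_sub, map_sub]
    have a1 : ((k * g)⁻¹ * (k' * g)).1 v = (g⁻¹).1 ((k⁻¹).1 (k'.1 (g.1 v))) := by
      rw [mul_inv_rev]
      rfl
    have a2 : (g⁻¹).1 ((k⁻¹).1 (k.1 (g.1 v))) = v := by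
      have : (g⁻¹).1 ((k⁻¹).1 (k.1 (g.1 v))) = (g⁻¹ * k⁻¹ * k * g).1 v := rfl
      rw [this]
      have : g⁻¹ * k⁻¹ * k * g = 1 := by group
      rw [this]
      rfl
    rw [a1, a2]
    abel
  rw [e1]
  exact ⟨fun i => add _ _ _ (hv.1 i) (h4.1 i), fun γ => add _ _ _ (hv.2 γ) (h4.2 γ)⟩

theorem kfin : KfinStmt := by
  classical
  intro r C hC K _ _ g
  have : Finite (Rt C) := H22.hRF r C hC
  cases nonempty_fintype (Rt C)
  obtain ⟨hb1, -, hb3⟩ := H22.hBdg r C hC K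
  obtain ⟨m, hm, hm'⟩ := hb1 g
  obtain ⟨z, add, neg, mul, mono, int, tne, tmul, dec⟩ := H22.hF1 K
  have one0 : (1 : FF K) ∈ Bd K 0 := by simpa using int 1
  set S : Set (grp C K ⧸ maxK C K) :=
    {y | ∃ l ∈ maxK C K, y = QuotientGroup.mk (l * g)} with hS
  have hch : ∀ y : S, ∃ l ∈ maxK C K, y.1 = QuotientGroup.mk (l * g) := fun y => y.2
  choose l hl hl' using hch
  let τ : S → (Fin r ⊕ Rt C) → (Fin r → Fin (2 * m) → K) × (Rt C → Fin (2 * m) → K) :=
    fun y i => (fun a j => (((l y).1 (H63.bas C K i)).1 a).coeff (j : ℤ),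
      fun a j => (((l y).1 (H63.bas C K i)).2 a).coeff (j : ℤ))
  have hinj : Function.Injective τ := by
    intro y y' hyy
    have hk := (hb3 (l y)).1 (hl y)
    have hk' := (hb3 (l y')).1 (hl y')
    have key : ∀ w w' : S, τ w = τ w' → bnd (0 : ℤ) ((l w * g)⁻¹ * (l w' * g)) := by
      intro w w' hw
      have kw := (hb3 (l w)).1 (hl w)
      have kw' := (hb3 (l w')).1 (hl w')
      refine kfin_bnd hm hm' kw.2 ?_
      intro i
      have c1 := kw.1 _ (H63.bas_mem (C := C) _ (z 0) one0 i)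
      have c2 := kw'.1 _ (H63.bas_mem (C := C) _ (z 0) one0 i)
      have c3 := congrFun hw i
      have c4 := congrArg Prod.fst c3
      have c5 := congrArg Prod.snd c3
      constructor
      · intro a
        exact sub_mem_Bd_of_coeff (c2.1 a) (c1.1 a) fun j => (congrFun (congrFun c4 a) j).symm
      · intro a
        exact sub_mem_Bd_of_coeff (c2.2 a) (c1.2 a) fun j => (congrFun (congrFun c5 a) j).symm
    have f1 := key y y' hyy
    have f2 := key y' y hyy.symm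
    have f3 : (l y * g)⁻¹ * (l y' * g) ∈ maxK C K := by
      rw [hb3]
      refine ⟨f1, ?_⟩
      have : ((l y * g)⁻¹ * (l y' * g))⁻¹ = (l y' * g)⁻¹ * (l y * g) := by group
      rw [this]
      exact f2
    apply Subtype.ext
    rw [hl' y, hl' y']
    exact QuotientGroup.eq.2 f3
  have : Finite S := Finite.of_injective τ hinj
  exact Set.toFinite S

end

end Pool.Agent.TMP.H43
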