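import Pool.Agent.Helper43_TMP.IwE
import Pool.Agent.Helper22_DEN.Car
import Pool.Agent.Helper64_DEN.Lev
import Pool.Agent.Helper63_DEN.Nrm
import Pool.Agent.Helper76_DEN.Bnd

/-!
# An element of `G(K(t))` which preserves the Chevalley order over `A` is in `G(A)`
(squad TMP, helper43)
-/

set_option autoImplicit false

open scoped BigOperators

namespace Pool.Agent.TMP.H43

open Pool.Agent.DEN Pool.Agent.DEN.H22

section
variable {r : ℕ} {C : Matrix (Fin r) (Fin r) ℤ} {K : Type} [Field K]

/-- `g` maps the Chevalley order over `A` in itself. -/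
def InA (g : grp C K) : Prop :=
  ∀ v : LieV C (FF K), Cd (ringA K 1 : Set (FF K)) v → Cd (ringA K 1 : Set (FF K)) (g.1 v)

theorem InA.mul {g h : grp C K} (hg : InA g) (hh : InA h) : InA (g * h) :=
  fun v hv => hg _ (hh v hv)

theorem inA_arith (hC : SimplyLaced C) {g : grp C K} (hg : g ∈ arith C K 1) :
    InA g ∧ InA g⁻¹ := H63.arith_int hC 1 hg

theorem EE_int (β : Rt C) : Cd (ringA K 1 : Set (FF K)) (EE β : LieV C (FF K)) := by
  classical
  refine ⟨fun i => zero_mem _, fun γ => ?_⟩
  by_cases h : γ = β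
  · subst h
    rw [H76.EE_self]
    exact one_mem _
  · rw [H76.EE_ne h]
    exact zero_mem _

/-! ## A regular dominant element -/

theorem exists_reg (hC : SimplyLaced C) : ∃ l : Fin r → ℤ, ∀ i, ip C (al i) l = 2 := by
  have : Finite (Rt C) := H59.rootFin r C hC
  have : Fintype {β : Rt C // β.Pos} := Fintype.ofFinite _
  refine ⟨∑ β : {β : Rt C // β.Pos}, β.1.1, fun i => ?_⟩
  have h := (rootD r C hC).2.2 i
  rw [finsum_eq_sum_of_fintype] at h
  refine Eq.trans ?_ h
  rw [hC.ip_comm]
  have h2 : ∀ s : Finset {β : Rt C // β.Pos}, ip C (∑ β ∈ s, β.1.1) (al i) =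
      ∑ β ∈ s, ip C β.1.1 (al i) := by
    classical
    intro s
    induction s using Finset.induction_on with
    | empty => simp [ip_zero_left]
    | insert a s ha ih => rw [Finset.sum_insert ha, Finset.sum_insert ha, ip_add_left, ih]
  exact h2 _

theorem reg_pos (hC : SimplyLaced C) {l : Fin r → ℤ} (hl : ∀ i, ip C (al i) l = 2) {β : Rt C}
    (hβ : β.Pos) : 0 < ip C β.1 l := by
  have hdom : IsDom C l := fun i => by rw [hl i]; norm_num
  have hne : ∃ i, β.1 i ≠ 0 := by
    by_contra h
    push Not at h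
    have : β.1 = 0 := funext h
    have h2 := β.2
    rw [this, ip_zero_left] at h2
    omega
  obtain ⟨i, hi⟩ := hne
  have h := (H59.rootSign r C hC).2.2.2 β.1 l hdom hβ i
  rw [hl i] at h
  have := hβ i
  omega

theorem Ug_eq_Ul (hC : SimplyLaced C) {l : Fin r → ℤ} (hl : ∀ i, ip C (al i) l = 2) :
    Ug C K ≤ Ul C K l 0 := by
  apply Subgroup.closure_mono
  rintro g ⟨β, a, h1, h2⟩
  refine ⟨β, a, reg_pos hC hl h1, ?_, h2⟩
  have := H67.one_le_ht h1
  push_cast
  omega

/-- `u ∈ U` has diagonal entries `1`. -/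
theorem uni_diag (hC : SimplyLaced C) {u : grp C K} (hu : u ∈ Ug C K) (β : Rt C) :
    (u.1 (EE β)).2 β = 1 := by
  obtain ⟨l, hl⟩ := exists_reg hC
  have h1 := (H64.ul_luni hC (Ug_eq_Ul hC hl hu)).1 _ _ (H64.EE_fil l β)
  have h2 := h1.2 β (by omega)
  rw [Prod.snd_sub, Pi.sub_apply, H76.EE_self] at h2
  linear_combination h2

/-! ## Integral unipotent elements -/

theorem int_root (hC : SimplyLaced C) (β : Rt C) {c : FF K}
    (h : ∀ i, -(c * ((β.1 i : ℤ) : FF K)) ∈ ringA K 1) : c ∈ ringA K 1 := by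
  obtain ⟨i, hi⟩ := H38.root_ne_zero (K := K) H59.rootSign hC β
  have h1 : ((β.1 i : ℤ) : FF K) = polyL K (Polynomial.C ((β.1 i : ℤ) : K)) := by
    rw [← map_intCast (polyL K)]
    congr 1
  have h2 : ((β.1 i : ℤ) : K) ≠ 0 := by
    intro h2
    rw [h1, h2, map_zero, map_zero] at hi
    exact hi rfl
  have h3 : c = -(polyL K (Polynomial.C (((β.1 i : ℤ) : K)⁻¹)) *
      -(c * ((β.1 i : ℤ) : FF K))) := by
    have h4 : polyL K (Polynomial.C (((β.1 i : ℤ) : K)⁻¹)) * ((β.1 i : ℤ) : FF K) = 1 := by
      rw [h1, ← map_mul, ← Polynomial.C_mul, inv_mul_cancel₀ h2, map_one, map_one]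
    linear_combination -c * h4
  rw [h3]
  exact neg_mem (mul_mem (polyL_mem_ringA 1 _) (h i))

theorem uni_int (hC : SimplyLaced C) {u : grp C K} (hu : u ∈ Ug C K) (hi : InA u) :
    u ∈ arith C K 1 := by
  classical
  obtain ⟨l, hl⟩ := exists_reg hC
  have hdom : IsDom C l := fun i => by rw [hl i]; norm_num
  have : Finite (Rt C) := H59.rootFin r C hC
  obtain ⟨M, hM⟩ := (Set.finite_range (fun β : Rt C => ht β)).bddAbove
  have hM' : ∀ β : Rt C, ht β ≤ M := fun β => hM ⟨β, rfl⟩
  have hcar := fun k => car H59.rootSign H59.rootFin r C hC K l hdom k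
  have hmono : ∀ k, Ul C K l k ≤ Ul C K l 0 := by
    intro k
    apply Subgroup.closure_mono
    rintro g ⟨β, a, h1, h2, h3⟩
    refine ⟨β, a, h1, ?_, h3⟩
    push_cast
    omega
  have key : ∀ n k : ℕ, M < k + n → ∀ u ∈ Ul C K l k, InA u → u ∈ arith C K 1 := by
    intro n
    induction n with
    | zero =>
      intro k hk u hu _
      have e : Ul C K l k = ⊥ := by
        unfold Ul
        rw [Subgroup.closure_eq_bot_iff]
        rintro g ⟨β, a, h1, h2, h3⟩
        have := hM' β
        push_cast at hk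
        omega
      rw [e, Subgroup.mem_bot] at hu
      rw [hu]
      exact one_mem _
    | succ n ih =>
      intro k hk u hu hi
      -- the Cartan coefficients
      have hc : ∀ β : Rt C, ∃ c : FF K, (0 < ip C β.1 l → ht β = k →
          c ∈ ringA K 1 ∧ (u.1 (EE β.neg)).1 = fun i => -(c * ((β.1 i : ℤ) : FF K))) := by
        intro β
        by_cases h : 0 < ip C β.1 l ∧ ht β = k
        · obtain ⟨c, hc⟩ := (hcar k).1 u hu β h.1 h.2
          refine ⟨c, fun _ _ => ⟨?_, hc⟩⟩
          apply int_root hC β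
          intro i
          have := (hi _ (EE_int β.neg)).1 i
          rw [hc] at this
          exact this
        · exact ⟨0, fun h1 h2 => absurd ⟨h1, h2⟩ h⟩
      choose c hc using hc
      have hs : ∀ T : Finset (Rt C), (∀ β ∈ T, 0 < ip C β.1 l ∧ ht β = k) →
          ∃ s ∈ Ul C K l k, s ∈ arith C K 1 ∧ ∀ β : Rt C, 0 < ip C β.1 l → ht β = k → ∀ i,
            (s.1 (EE β.neg)).1 i = if β ∈ T then -(c β * ((β.1 i : ℤ) : FF K)) else 0 := by
        intro T
        induction T using Finset.induction_on with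
        | empty =>
          intro _
          refine ⟨1, one_mem _, one_mem _, fun β _ _ i => ?_⟩
          rw [if_neg (Finset.notMem_empty β)]
          rfl
        | insert γ T hγT ihT =>
          intro hT
          obtain ⟨s, hs1, hs2, hs3⟩ := ihT fun β hβ => hT β (Finset.mem_insert_of_mem hβ)
          obtain ⟨g1, g2⟩ := hT γ (Finset.mem_insert_self γ T)
          have hx : xg hC γ (c γ) ∈ Ul C K l k :=
            Subgroup.subset_closure ⟨γ, c γ, g1, g2.ge, fun _ => rfl⟩
          refine ⟨s * xg hC γ (c γ), mul_mem hs1 hx,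
            mul_mem hs2 (xg_mem_arith hC 1 γ (hc γ g1 g2).1), fun β h1 h2 i => ?_⟩
          rw [(hcar k).2.2 s (hmono k hs1) _ hx β h1 h2, Pi.add_apply, hs3 β h1 h2, H38.xg_EE]
          by_cases hb : β = γ
          · subst hb
            rw [if_neg hγT, if_pos rfl, if_pos (Finset.mem_insert_self _ _), zero_add]
          · have hb' : ¬ γ = β := fun h => hb h.symm
            rw [if_neg hb', add_zero]
            by_cases hbT : β ∈ T
            · rw [if_pos hbT, if_pos (Finset.mem_insert_of_mem hbT)]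
            · rw [if_neg hbT, if_neg]
              intro h
              rcases Finset.mem_insert.1 h with h | h
              · exact hb h
              · exact hbT h
      have : Fintype (Rt C) := Fintype.ofFinite _
      obtain ⟨s, hs1, hs2, hs3⟩ := hs (Finset.univ.filter fun β => 0 < ip C β.1 l ∧ ht β = k)
        fun β hβ => (Finset.mem_filter.1 hβ).2
      have h1 : s⁻¹ * u ∈ Ul C K l k := mul_mem (inv_mem hs1) hu
      have h2 : s⁻¹ * u ∈ Ul C K l (k + 1) := by
        apply (hcar k).2.1 _ h1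
        intro β b1 b2
        rw [(hcar k).2.2 s⁻¹ (hmono k (inv_mem hs1)) u hu β b1 b2]
        have h3 := (hcar k).2.2 s (hmono k hs1) s⁻¹ (inv_mem hs1) β b1 b2
        rw [mul_inv_cancel] at h3
        have h4 : ((1 : grp C K).1 (EE β.neg)).1 = 0 := rfl
        rw [h4] at h3
        funext i
        have h5 := congrFun h3 i
        rw [Pi.add_apply, Pi.zero_apply, hs3 β b1 b2 i, if_pos (Finset.mem_filter.2
          ⟨Finset.mem_univ β, b1, b2⟩)] at h5
        rw [Pi.add_apply, (hc β b1 b2).2, Pi.zero_apply]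
        linear_combination -h5
      have h3 := ih (k + 1) (by push_cast at hk ⊢; omega) _ h2 ((inA_arith hC hs2).2.mul hi)
      have h4 := mul_mem hs2 h3
      rwa [mul_inv_cancel_left] at h4
  exact key (M.toNat + 1) 0 (by push_cast; have := Int.self_le_toNat M; omega) u
    (Ug_eq_Ul hC hl hu) hi

/-! ## Integral torus elements -/

theorem det_ne (hC : SimplyLaced C) : C.det ≠ 0 := by
  intro h
  obtain ⟨v, hv, hv'⟩ := Matrix.exists_mulVec_eq_zero_iff.2 h
  have h1 := hC.ip_pos v hv
  have h2 : ip C v v = 0 := by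
    have : ∀ i, ∑ j, C i j * v j = 0 := fun i => congrFun hv' i
    unfold ip
    refine Finset.sum_eq_zero fun i _ => ?_
    simp only [mul_assoc]
    rw [← Finset.mul_sum, this, mul_zero]
  omega

/-- `e ^ n` a unit of `A`, `n ≠ 0`, `e ∈ K(t)`: then `e` is a unit of `A`. -/
theorem unit_of_pow {e : FF K} (he : e ∈ Kt K) {n : ℕ} (hn : n ≠ 0) {p : Polynomial K}
    (hp : IsUnit p) (h : e ^ n = polyL K p) : ∃ q : Polynomial K, IsUnit q ∧ polyL K q = e := by
  obtain ⟨c, d, hd, hcd, rfl⟩ := exists_coprime he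
  have hdL := polyL_ne hd
  have h1 : c ^ n = p * d ^ n := by
    apply polyL_inj
    rw [map_mul, map_pow, map_pow, ← h, div_pow, div_mul_cancel₀]
    exact pow_ne_zero _ hdL
  have hdu : IsUnit d := by
    have h2 : IsCoprime (c ^ n) (d ^ n) := hcd.pow
    have h3 : d ^ n ∣ c ^ n := ⟨p, by rw [h1, mul_comm]⟩
    have h4 : IsUnit (d ^ n) := h2.isUnit_of_dvd' h3 dvd_rfl
    exact (isUnit_pow_iff hn).1 h4
  have hcu : IsUnit c := by
    have : IsUnit (c ^ n) := by
      rw [h1]
      exact hp.mul (hdu.pow n)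
    exact (isUnit_pow_iff hn).1 this
  obtain ⟨u, rfl⟩ := hdu
  refine ⟨c * ((u⁻¹ : (Polynomial K)ˣ) : Polynomial K), hcu.mul (Units.isUnit _), ?_⟩
  rw [eq_div_iff hdL, ← map_mul, mul_assoc, Units.inv_mul, mul_one]

/-- The units of `A`. -/
def UA (K : Type) [Field K] : Subgroup (FF K)ˣ where
  carrier := {u | ∃ p : Polynomial K, IsUnit p ∧ polyL K p = u}
  mul_mem' := by
    rintro a b ⟨p, hp, hp'⟩ ⟨q, hq, hq'⟩
    exact ⟨p * q, hp.mul hq, by rw [map_mul, hp', hq', Units.val_mul]⟩
  one_mem' := ⟨1, isUnit_one, by rw [map_one, Units.val_one]⟩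
  inv_mem' := by
    rintro a ⟨p, hp, hp'⟩
    obtain ⟨u, rfl⟩ := hp
    refine ⟨((u⁻¹ : (Polynomial K)ˣ) : Polynomial K), Units.isUnit _, ?_⟩
    rw [Units.val_inv_eq_inv_val, ← hp']
    apply eq_inv_of_mul_eq_one_left
    rw [← map_mul, Units.inv_mul, map_one]

/-- Torus elements with unit character values are arithmetic. -/
theorem tor_int (hC : SimplyLaced C) {h : grp C K} (hh : TT h)
    (hu : ∀ β : Rt C, ∃ p : Polynomial K, IsUnit p ∧ h.1 (EE β) = polyL K p • EE β) :
    h ∈ arith C K 1 := by
  classical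
  obtain ⟨e, h1, h2, h3⟩ := hh
  have hch := isCh_chE (C := C) h1
  -- the values at the simple roots
  have hval : ∀ β : Rt C, ∃ p : Polynomial K, IsUnit p ∧ polyL K p = chE C e β.1 := by
    intro β
    obtain ⟨p, hp, hp'⟩ := hu β
    refine ⟨p, hp, ?_⟩
    rw [h3] at hp'
    have := congrFun (congrArg Prod.snd hp') β
    have e1 : (dmap (chE C e) (EE β : LieV C (FF K))).2 β = chE C e β.1 * (EE β : LieV C (FF K)).2 β :=
      rfl
    have e2 : (polyL K p • (EE β : LieV C (FF K))).2 β = polyL K p * (EE β : LieV C (FF K)).2 β :=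
      rfl
    rw [e1, e2, H76.EE_self, mul_one, mul_one] at this
    exact this.symm
  -- all values
  have hall : ∀ x : Fin r → ℤ, ∃ p : Polynomial K, IsUnit p ∧ polyL K p = chE C e x := by
    let S : AddSubgroup (Fin r → ℤ) :=
      { carrier := {x | ∃ p : Polynomial K, IsUnit p ∧ polyL K p = chE C e x}
        add_mem' := by
          rintro a b ⟨p, hp, hp'⟩ ⟨q, hq, hq'⟩
          exact ⟨p * q, hp.mul hq, by rw [map_mul, hp', hq', hch.add]⟩
        zero_mem' := ⟨1, isUnit_one, by rw [map_one, hch.zero]⟩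
        neg_mem' := by
          rintro a ⟨p, hp, hp'⟩
          obtain ⟨u, rfl⟩ := hp
          refine ⟨((u⁻¹ : (Polynomial K)ˣ) : Polynomial K), Units.isUnit _, ?_⟩
          rw [hch.neg, ← hp']
          apply eq_inv_of_mul_eq_one_left
          rw [← map_mul, Units.inv_mul, map_one] }
    have h1 : ∀ i, al i ∈ S := fun i => hval (hC.sr i)
    intro x
    have h2 : x = ∑ i, x i • al i := by
      funext j
      simp [al, Finset.sum_apply, Pi.single_apply]
    have h3 : x ∈ S := by
      rw [h2]
      exact S.sum_mem fun i _ => S.zsmul_mem (h1 i) _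
    exact h3
  -- the coordinates
  have hcoord : ∀ k, ∃ q : Polynomial K, IsUnit q ∧ polyL K q = e k := by
    intro k
    set x : Fin r → ℤ := fun j => C.adjugate j k with hx
    have hx' : ∀ i, ip C (al i) x = if i = k then C.det else 0 := by
      intro i
      have e1 : ip C (al i) x = (C * C.adjugate) i k := by
        rw [Matrix.mul_apply]
        unfold ip
        rw [Finset.sum_eq_single i]
        · refine Finset.sum_congr rfl fun j _ => ?_
          simp [al, hx]
        · intro j _ hj
          refine Finset.sum_eq_zero fun m _ => ?_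
          simp [al, hj]
        · intro h
          exact absurd (Finset.mem_univ i) h
      rw [e1, Matrix.mul_adjugate, Matrix.smul_apply, Matrix.one_apply, smul_eq_mul, mul_ite,
        mul_one, mul_zero]
    have hv : chE C e x = e k ^ C.det := by
      unfold chE
      rw [Finset.prod_eq_single k]
      · rw [hx', if_pos rfl]
      · intro j _ hj
        rw [hx', if_neg hj, zpow_zero]
      · intro h
        exact absurd (Finset.mem_univ k) h
    have hd := det_ne hC
    obtain ⟨n, hn | hn⟩ := C.det.eq_nat_or_neg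
    · obtain ⟨p, hp, hp'⟩ := hall x
      rw [hv, hn, zpow_natCast] at hp'
      exact unit_of_pow (h2 k) (by rintro rfl; exact hd (by rw [hn]; rfl)) hp hp'.symm
    · obtain ⟨p, hp, hp'⟩ := hall (-x)
      rw [hch.neg, hv, hn, zpow_neg, inv_inv, zpow_natCast] at hp'
      exact unit_of_pow (h2 k) (by rintro rfl; exact hd (by rw [hn]; rfl)) hp hp'.symm
  choose q hq hq' using hcoord
  -- construction of an arithmetic element
  have hT : ∀ T : Finset (Fin r), ∃ g ∈ arith C K 1,
      IsDiag (chE C fun i => if i ∈ T then e i else 1) g := by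
    intro T
    induction T using Finset.induction_on with
    | empty =>
      refine ⟨1, one_mem _, ?_⟩
      have e0 : (chE C fun i => if i ∈ (∅ : Finset (Fin r)) then e i else 1) =
          fun _ => (1 : FF K) := by
        funext x
        unfold chE
        refine Finset.prod_eq_one fun i _ => ?_
        beta_reduce
        rw [if_neg (Finset.notMem_empty i), one_zpow]
      rw [e0]
      exact IsDiag.one
    | insert k T hk ih =>
      obtain ⟨g, hg1, hg2⟩ := ih
      refine ⟨hg hC (hC.sr k) (polyL K (q k)) * g, mul_mem (hg_mem hC _ (hq k)) hg1, ?_⟩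
      have := (isDiag_hg hC (hC.sr k) (polyL_ne (hq k).ne_zero)).mul hg2
      have e0 : (chE C fun i => if i ∈ insert k T then e i else 1) =
          fun x => polyL K (q k) ^ ip C (hC.sr k).1 x *
            chE C (fun i => if i ∈ T then e i else 1) x := by
        funext x
        unfold chE
        rw [← Finset.mul_prod_erase _ _ (Finset.mem_univ k), ← Finset.mul_prod_erase _ _
          (Finset.mem_univ k)]
        beta_reduce
        rw [if_pos (Finset.mem_insert_self k T), if_neg hk, one_zpow, one_mul,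
          hq' k, hC.sr_val]
        congr 1
        refine Finset.prod_congr rfl fun i hi => ?_
        have hik := Finset.ne_of_mem_erase hi
        by_cases hiT : i ∈ T
        · rw [if_pos hiT, if_pos (Finset.mem_insert_of_mem hiT)]
        · rw [if_neg hiT, if_neg]
          intro h
          rcases Finset.mem_insert.1 h with h | h
          · exact hik h
          · exact hiT h
      rw [e0]
      exact this
  obtain ⟨g, hg1, hg2⟩ := hT Finset.univ
  have e0 : (fun i => if i ∈ (Finset.univ : Finset (Fin r)) then e i else 1) = e := by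
    funext i
    rw [if_pos (Finset.mem_univ i)]
  rw [e0] at hg2
  rw [h3.ext hg2 fun _ => rfl]
  exact hg1

/-- An element of `G(K(t))` preserving the order over `A` is arithmetic. -/
theorem int_mem (hC : SimplyLaced C) {g : grp C K} (hgE : g ∈ GE C K) (h1 : InA g)
    (h2 : InA g⁻¹) : g ∈ arith C K 1 := by
  obtain ⟨u, hu, h, hh, γ, hγ, rfl⟩ := iwE hC hgE
  have huU : u ∈ Ug C K := UE_le_Ug hu
  -- the product `u h` is integral
  have i1 : InA (u * h) := by
    have := h1.mul (inA_arith hC hγ).2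
    rwa [mul_inv_cancel_right] at this
  have i2 : InA (u * h)⁻¹ := by
    have := (inA_arith hC hγ).1.mul h2
    rwa [mul_inv_rev, mul_inv_cancel_left] at this
  obtain ⟨e, e1, e2, e3⟩ := id hh
  have hch := isCh_chE (C := C) e1
  have hEE : ∀ β : Rt C, h.1 (EE β) = chE C e β.1 • EE β := by
    intro β
    rw [e3]
    refine Prod.ext ?_ (funext fun γ => ?_)
    · show (EE β : LieV C (FF K)).1 = chE C e β.1 • (EE β : LieV C (FF K)).1
      rw [H76.EE_fst, smul_zero]
    · show chE C e γ.1 * (EE β : LieV C (FF K)).2 γ = chE C e β.1 • (EE β : LieV C (FF K)).2 γ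
      by_cases hγβ : γ = β
      · rw [hγβ, smul_eq_mul]
      · rw [H76.EE_ne hγβ, mul_zero, smul_zero]
  have hEE' : ∀ v : LieV C (FF K), ∀ β : Rt C, ((h⁻¹).1 v).2 β = (chE C e β.1)⁻¹ * v.2 β := by
    intro v β
    have k1 : h.1 ((h⁻¹).1 v) = v := H63.inv_apply h v
    rw [e3] at k1
    have k2 : chE C e β.1 * ((h⁻¹).1 v).2 β = v.2 β := congrFun (congrArg Prod.snd k1) β
    rw [← k2, inv_mul_cancel_left₀ (hch.ne _)]
  have hunit : ∀ β : Rt C, ∃ p : Polynomial K, IsUnit p ∧ polyL K p = chE C e β.1 := by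
    intro β
    have k1 := (i1 _ (EE_int β)).2 β
    have k2 : ((u * h).1 (EE β)).2 β = chE C e β.1 := by
      have : (u * h).1 (EE β) = u.1 (h.1 (EE β)) := rfl
      rw [this, hEE, map_smul]
      show chE C e β.1 • (u.1 (EE β)).2 β = _
      rw [uni_diag hC huU, smul_eq_mul, mul_one]
    have k3 := (i2 _ (EE_int β)).2 β
    have k4 : (((u * h)⁻¹).1 (EE β)).2 β = (chE C e β.1)⁻¹ := by
      rw [mul_inv_rev]
      have : (h⁻¹ * u⁻¹).1 (EE β) = (h⁻¹).1 ((u⁻¹).1 (EE β)) := rfl
      rw [this, hEE', uni_diag hC (inv_mem huU), mul_one]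
    rw [k2] at k1
    rw [k4] at k3
    obtain ⟨p, hp⟩ := mem_ringA_one.1 k1
    obtain ⟨p', hp'⟩ := mem_ringA_one.1 k3
    refine ⟨p, ?_, hp⟩
    apply IsUnit.of_mul_eq_one p'
    apply polyL_inj
    rw [map_mul, hp, hp', mul_inv_cancel₀ (hch.ne _), map_one]
  have hhA : h ∈ arith C K 1 := by
    apply tor_int hC hh
    intro β
    obtain ⟨p, hp, hp'⟩ := hunit β
    exact ⟨p, hp, by rw [hEE, hp']⟩
  have huA : u ∈ arith C K 1 := by
    apply uni_int hC huU
    have := i1.mul (inA_arith hC hhA).2
    rwa [mul_inv_cancel_right] at this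
  exact mul_mem (mul_mem huA hhA) hγ

end

end Pool.Agent.TMP.H43
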