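import Pool.Agent.Helper43_TMP.Dens
import Pool.Agent.Helper43_TMP.Int
import Pool.Agent.Helper2_TMP.StG

/-!
# TRP: the place `P` (squad TMP, helper43)
-/

set_option autoImplicit false

open scoped BigOperators

namespace Pool.Agent.TMP.H43

open Pool.Agent.DEN

section
variable {r : ℕ} {C : Matrix (Fin r) (Fin r) ℤ} {K : Type} [Field K] (P : Polynomial K)
  [Fact (Irreducible P)]

theorem card_K2 : Nat.card (AdjoinRoot P) = Nat.card K ^ P.natDegree := by
  have hirr : Irreducible P := Fact.out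
  let pb := AdjoinRoot.powerBasis hirr.ne_zero
  have h1 : Module.Finite K (AdjoinRoot P) := pb.finite
  rw [Module.natCard_eq_pow_finrank (K := K), pb.finrank]
  rfl

variable [Finite K]

theorem finite_K2 : Finite (AdjoinRoot P) := by
  have hirr : Irreducible P := Fact.out
  let pb := AdjoinRoot.powerBasis hirr.ne_zero
  have h1 : Module.Finite K (AdjoinRoot P) := pb.finite
  exact Module.finite_of_finite K

theorem mem_maxK_iff {K : Type} [Field K] (hC : SimplyLaced C) (g : grp C K) :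
    g ∈ maxK C K ↔ bnd 0 g ∧ bnd 0 g⁻¹ := (H75.bdg H99.fld1 r C hC K).2.2 g

theorem phi_int (hC : SimplyLaced C) (g : arith C K P) :
    phi P hC g ∈ maxK C (AdjoinRoot P) ↔ g ∈ (arith C K 1).subgroupOf (arith C K P) := by
  have h0 : ∀ g : arith C K P, bnd 0 (phi P hC g) ↔ InA g.1 := by
    intro g
    have := phi_bnd P hC 0 g
    rw [Nat.cast_zero] at this
    rw [this]
    constructor
    · intro h v hv
      have h1 := h v hv
      rwa [pow_zero, one_smul] at h1
    · intro h v hv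
      rw [pow_zero, one_smul]
      exact h v hv
  rw [mem_maxK_iff hC, ← map_inv, h0, h0, Subgroup.mem_subgroupOf]
  constructor
  · rintro ⟨h1, h2⟩
    exact int_mem hC (arith_le_GE P g.2) h1 h2
  · intro h
    exact inA_arith hC h

/-- The homomorphism is a localisation. -/
theorem isLoc_phi (hC : SimplyLaced C) : IsLoc P (phi P hC) where
  card := card_K2 P
  int := phi_int P hC
  dense := phi_dense P hC
  bound := phi_bnd P hC

end

theorem trp0 : TrpStmt := by
  intro r C hC K _ _ P hP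
  have : Fact (Irreducible P) := ⟨hP⟩
  exact ⟨AdjoinRoot P, inferInstance, finite_K2 P, phi P hC, isLoc_phi P hC⟩

/-! ## Hecke functions -/

section
variable {r : ℕ} {C : Matrix (Fin r) (Fin r) ℤ} {K : Type} [Field K]

/-- Conjugation of a neighbourhood of `1` in the maximal compact group. -/
theorem exists_nbd (hC : SimplyLaced C) (x : grp C K) :
    ∃ M : ℕ, ∀ y : grp C K, Nbd M y → x⁻¹ * y * x ∈ maxK C K := by
  obtain ⟨n, h1, h2⟩ := H75.exists_bnd H99.fld1 hC x
  refine ⟨2 * n, fun y hy => ?_⟩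
  have key : ∀ y : grp C K, (∀ v : LieV C (FF K), Cd (Bd K 0) v →
      Cd (Bd K (-((2 * n : ℕ) : ℤ))) (y.1 v - v)) → bnd 0 (x⁻¹ * y * x) := by
    intro y hy v hv
    have h3 : Cd (Bd K n) (x.1 v) := h1 v hv
    -- scaling
    have h4 : Cd (Bd K 0) (tt K ^ (-(n : ℤ)) • x.1 v) := by
      have k : ∀ a : FF K, a ∈ Bd K n → tt K ^ (-(n : ℤ)) * a ∈ Bd K 0 := by
        intro a ha
        have := H99.bd_mul (H99.tt_mem (K := K) (-(n : ℤ))) ha
        rwa [neg_add_cancel] at this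
      exact ⟨fun i => k _ (h3.1 i), fun γ => k _ (h3.2 γ)⟩
    have h5 := hy _ h4
    have h6 : Cd (Bd K (-(n : ℤ))) (y.1 (x.1 v) - x.1 v) := by
      have e : y.1 (x.1 v) - x.1 v = tt K ^ (n : ℤ) • (y.1 (tt K ^ (-(n : ℤ)) • x.1 v) -
          tt K ^ (-(n : ℤ)) • x.1 v) := by
        rw [map_smul, ← smul_sub, smul_smul, ← zpow_add₀ H99.tt_ne, add_neg_cancel, zpow_zero,
          one_smul]
      rw [e]
      have k : ∀ a : FF K, a ∈ Bd K (-((2 * n : ℕ) : ℤ)) → tt K ^ (n : ℤ) * a ∈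
          Bd K (-(n : ℤ)) := by
        intro a ha
        have := H99.bd_mul (H99.tt_mem (K := K) (n : ℤ)) ha
        refine bd_mono ?_ this
        push_cast
        omega
      exact ⟨fun i => k _ (h5.1 i), fun γ => k _ (h5.2 γ)⟩
    have h7 := H75.bnd_apply H99.fld1 h2 h6
    rw [add_neg_cancel, map_sub] at h7
    have e2 : (x⁻¹).1 (x.1 v) = v := by
      have : (x⁻¹ * x).1 v = v := by rw [inv_mul_cancel]; rfl
      exact this
    rw [e2] at h7
    have h8 := Cd_bd_add h7 hv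
    rw [sub_add_cancel] at h8
    exact h8
  rw [mem_maxK_iff hC]
  refine ⟨key y fun v hv => (hy v hv).1, ?_⟩
  have e : (x⁻¹ * y * x)⁻¹ = x⁻¹ * y⁻¹ * x := by group
  rw [e]
  exact key y⁻¹ fun v hv => (hy v hv).2

end

section
variable {r : ℕ} {C : Matrix (Fin r) (Fin r) ℤ} {K K2 : Type} [Field K] [Field K2]
  {P : Polynomial K} {φ : arith C K P →* grp C K2}

/-- Representatives. -/
theorem loc_surj (hC : SimplyLaced C) (hφ : IsLoc P φ) (x : grp C K2) :
    ∃ g, (φ g)⁻¹ * x ∈ maxK C K2 := by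
  obtain ⟨g, hg⟩ := hφ.dense x 0
  exact ⟨g, Nbd.mem_maxK hC hg⟩

/-- Orbits of the maximal compact group. -/
theorem loc_orb (hC : SimplyLaced C) (hφ : IsLoc P φ) {k : grp C K2} (hk : k ∈ maxK C K2)
    (x : grp C K2) : ∃ γ ∈ (arith C K 1).subgroupOf (arith C K P),
      (φ γ * x)⁻¹ * (k * x) ∈ maxK C K2 := by
  obtain ⟨M, hM⟩ := exists_nbd hC x
  obtain ⟨γ, hγ⟩ := hφ.dense k M
  refine ⟨γ, ?_, ?_⟩
  · rw [← hφ.int]
    have h1 := Nbd.mem_maxK hC hγ
    have h2 := mul_mem hk (inv_mem h1)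
    rwa [mul_inv_rev, inv_inv, mul_inv_cancel_left] at h2
  · have := hM _ hγ
    have e : (φ γ * x)⁻¹ * (k * x) = x⁻¹ * ((φ γ)⁻¹ * k) * x := by group
    rw [e]
    exact this

/-- The extension of a bi-invariant function. -/
noncomputable def ext2 (hC : SimplyLaced C) (hφ : IsLoc P φ) (κ : arith C K P → ℂ)
    (x : grp C K2) : ℂ := κ (loc_surj hC hφ x).choose

theorem ext2_eq (hC : SimplyLaced C) (hφ : IsLoc P φ) {κ : arith C K P → ℂ}
    (hκ : ∀ k ∈ (arith C K 1).subgroupOf (arith C K P), ∀ g, κ (k * g) = κ g ∧ κ (g * k) = κ g)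
    {x : grp C K2} {g : arith C K P} (h : (φ g)⁻¹ * x ∈ maxK C K2) :
    ext2 hC hφ κ x = κ g := by
  unfold ext2
  have h1 := (loc_surj hC hφ x).choose_spec
  set g' := (loc_surj hC hφ x).choose
  have h2 : g⁻¹ * g' ∈ (arith C K 1).subgroupOf (arith C K P) := by
    rw [← hφ.int, map_mul, map_inv]
    have := mul_mem h (inv_mem h1)
    have e : (φ g)⁻¹ * x * ((φ g')⁻¹ * x)⁻¹ = (φ g)⁻¹ * φ g' := by group
    rwa [e] at this
  have h3 := (hκ _ h2 g).2
  rwa [mul_inv_cancel_left] at h3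

theorem ext2_phi (hC : SimplyLaced C) (hφ : IsLoc P φ) {κ : arith C K P → ℂ}
    (hκ : ∀ k ∈ (arith C K 1).subgroupOf (arith C K P), ∀ g, κ (k * g) = κ g ∧ κ (g * k) = κ g)
    (g : arith C K P) : ext2 hC hφ κ (φ g) = κ g :=
  ext2_eq hC hφ hκ (by rw [inv_mul_cancel]; exact one_mem _)

theorem ext2_hecke (hC : SimplyLaced C) (hφ : IsLoc P φ) {κ : arith C K P → ℂ} {R : ℕ}
    (hκ : HeckeFin P κ R) : HeckeInf (ext2 hC hφ κ) R := by
  obtain ⟨h1, h2, h3⟩ := hκ
  refine ⟨?_, ?_, ?_⟩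
  · intro k hk x
    obtain ⟨g, hg⟩ := loc_surj hC hφ x
    constructor
    · obtain ⟨γ, hγ, hγ2⟩ := loc_orb hC hφ hk (φ g)
      have h4 : (φ (γ * g))⁻¹ * (k * x) ∈ maxK C K2 := by
        have := mul_mem hγ2 hg
        have e : (φ γ * φ g)⁻¹ * (k * φ g) * ((φ g)⁻¹ * x) = (φ (γ * g))⁻¹ * (k * x) := by
          rw [map_mul]; group
        rwa [e] at this
      rw [ext2_eq hC hφ h1 h4, ext2_eq hC hφ h1 hg, (h1 γ hγ g).1]
    · have h4 : (φ g)⁻¹ * (x * k) ∈ maxK C K2 := by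
        rw [← mul_assoc]
        exact mul_mem hg hk
      rw [ext2_eq hC hφ h1 h4, ext2_eq hC hφ h1 hg]
  · refine (h2.image fun y => (QuotientGroup.mk (φ y.out) : XX C K2)).subset ?_
    intro x hx
    have hx' : ext2 hC hφ κ x.out ≠ 0 := hx
    obtain ⟨g, hg⟩ := loc_surj hC hφ x.out
    rw [ext2_eq hC hφ h1 hg] at hx'
    have h5 : ((QuotientGroup.mk g : arith C K P ⧸ (arith C K 1).subgroupOf
        (arith C K P)).out)⁻¹ * g ∈ (arith C K 1).subgroupOf (arith C K P) := by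
      rw [← QuotientGroup.eq, QuotientGroup.out_eq']
    refine ⟨QuotientGroup.mk g, ?_, ?_⟩
    · show κ _ ≠ 0
      have := (h1 _ h5 (QuotientGroup.mk g : arith C K P ⧸ (arith C K 1).subgroupOf
        (arith C K P)).out).2
      rw [mul_inv_cancel_left] at this
      rw [← this]
      exact hx'
    · show (QuotientGroup.mk (φ _) : XX C K2) = x
      have h6 : (QuotientGroup.mk x.out : XX C K2) = x := QuotientGroup.out_eq' x
      refine Eq.trans ?_ h6
      rw [QuotientGroup.eq]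
      have h7 := (hφ.int _).2 h5
      have := mul_mem h7 hg
      rw [map_mul, map_inv] at this
      rwa [mul_assoc, mul_inv_cancel_left] at this
  · intro x hx v hv
    obtain ⟨g, hg⟩ := loc_surj hC hφ x
    rw [ext2_eq hC hφ h1 hg] at hx
    have h4 := h3 g hx
    have b1 : bnd R (φ g) := (hφ.bound R g).2 fun v hv => (h4 v hv).1
    have b2 : bnd R (φ g)⁻¹ := by
      rw [← map_inv]
      exact (hφ.bound R g⁻¹).2 fun v hv => (h4 v hv).2
    have b3 := (mem_maxK_iff hC _).1 hg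
    constructor
    · have := H75.bnd_apply H99.fld1 b1 (b3.1 v hv)
      rw [add_zero] at this
      have e : (φ g).1 (((φ g)⁻¹ * x).1 v) = x.1 v := by
        have e1 : (φ g * ((φ g)⁻¹ * x)).1 v = x.1 v := by rw [mul_inv_cancel_left]
        exact e1
      rwa [e] at this
    · have := H75.bnd_apply H99.fld1 b3.2 (b2 v hv)
      rw [zero_add] at this
      have e : ((((φ g)⁻¹ * x)⁻¹).1 (((φ g)⁻¹).1 v)) = (x⁻¹).1 v := by
        have e1 : (((φ g)⁻¹ * x)⁻¹ * (φ g)⁻¹).1 v = (x⁻¹).1 v := by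
          congr 2
          group
        exact e1
      rwa [e] at this

end

/-- TRP (the statement of helper2). -/
theorem trp : Pool.Agent.DEN.TMP.TrpStmt := by
  intro r C hC K _ _ P hP
  have : Fact (Irreducible P) := ⟨hP⟩
  have hφ := isLoc_phi (C := C) P hC
  refine ⟨AdjoinRoot P, inferInstance, finite_K2 P, phi P hC, hφ.card, hφ.int, ?_, ?_, ?_⟩
  · intro h
    obtain ⟨g, hg⟩ := loc_surj hC hφ h
    exact ⟨g, _, hg, by rw [mul_inv_cancel_left]⟩
  · intro R g hg
    exact (hφ.bound R g).1 hg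
  · intro κ R hκ
    have h1 := ext2_hecke hC hφ hκ
    refine ⟨ext2 hC hφ κ, ⟨h1.1, h1.2.1⟩, ?_⟩
    funext g
    exact (ext2_phi hC hφ hκ.1 g).symm

end Pool.Agent.TMP.H43
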