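import Pool.Agent.Helper43_TMP.Kt
import Pool.Agent.Helper22_DEN.Tor
import Pool.Agent.Helper22_DEN.Max

/-!
# Diagonal elements with entries in `K(t)`, and Euclid's algorithm in rank one (squad TMP, helper43)
-/

set_option autoImplicit false

open scoped BigOperators

namespace Pool.Agent.TMP.H43

open Pool.Agent.DEN Pool.Agent.DEN.H22

section
variable {r : ℕ} {C : Matrix (Fin r) (Fin r) ℤ} {K : Type} [Field K]

/-- `χ` is a character of the root lattice. -/
structure IsCh (χ : (Fin r → ℤ) → FF K) : Prop where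
  add : ∀ x y, χ (x + y) = χ x * χ y
  ne : ∀ x, χ x ≠ 0

theorem IsCh.zero {χ : (Fin r → ℤ) → FF K} (h : IsCh χ) : χ 0 = 1 := by
  have h1 := h.add 0 0
  rw [add_zero] at h1
  exact (mul_eq_left₀ (h.ne 0)).1 h1.symm

theorem IsCh.neg {χ : (Fin r → ℤ) → FF K} (h : IsCh χ) (x : Fin r → ℤ) : χ (-x) = (χ x)⁻¹ := by
  apply eq_inv_of_mul_eq_one_left
  rw [← h.add, neg_add_cancel, h.zero]

theorem IsCh.sub {χ : (Fin r → ℤ) → FF K} (h : IsCh χ) (x y : Fin r → ℤ) :
    χ (x - y) = χ x / χ y := by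
  rw [sub_eq_add_neg, h.add, h.neg, div_eq_mul_inv]

/-- The diagonal map. -/
noncomputable def dmap (χ : (Fin r → ℤ) → FF K) (v : LieV C (FF K)) : LieV C (FF K) :=
  (v.1, fun γ => χ γ.1 * v.2 γ)

theorem crd_dmap (χ : (Fin r → ℤ) → FF K) (v : LieV C (FF K)) (x : Fin r → ℤ) :
    crd (dmap χ v) x = χ x * crd v x := by
  unfold crd
  split_ifs with h
  · rfl
  · rw [mul_zero]

/-- `g` is diagonal with character `χ`. -/
def IsDiag (χ : (Fin r → ℤ) → FF K) (g : grp C K) : Prop := ∀ v, g.1 v = dmap χ v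

theorem IsDiag.mul {χ χ' : (Fin r → ℤ) → FF K} {g g' : grp C K} (h : IsDiag χ g)
    (h' : IsDiag χ' g') : IsDiag (fun x => χ x * χ' x) (g * g') := by
  intro v
  have e : (g * g').1 v = g.1 (g'.1 v) := rfl
  rw [e, h, h']
  refine Prod.ext rfl (funext fun γ => ?_)
  show χ γ.1 * (χ' γ.1 * v.2 γ) = χ γ.1 * χ' γ.1 * v.2 γ
  ring

theorem IsDiag.ext {χ χ' : (Fin r → ℤ) → FF K} {g g' : grp C K} (h : IsDiag χ g)
    (h' : IsDiag χ' g') (H : ∀ γ : Rt C, χ γ.1 = χ' γ.1) : g = g' := by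
  apply grp_ext
  intro v
  rw [h, h']
  refine Prod.ext rfl (funext fun γ => ?_)
  show χ γ.1 * v.2 γ = χ' γ.1 * v.2 γ
  rw [H]

theorem IsDiag.one : IsDiag (fun _ => 1) (1 : grp C K) := by
  intro v
  refine Prod.ext rfl (funext fun γ => ?_)
  show v.2 γ = 1 * v.2 γ
  rw [one_mul]

theorem IsDiag.conj (hC : SimplyLaced C) {χ : (Fin r → ℤ) → FF K} (hχ : IsCh χ) {g : grp C K}
    (h : IsDiag χ g) (β : Rt C) (a : FF K) :
    g * xg hC β a * g⁻¹ = xg hC β (χ β.1 * a) := by
  refine mul_inv_eq_iff_eq_mul.mpr (grp_ext fun v => ?_)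
  rw [mul_app, mul_app, xg_apply, xg_apply, h, h]
  have t0 := hχ.ne β.1
  refine vec_ext ?_ ?_
  · intro i
    rw [fst_eq, crd_dmap, hχ.neg]
    show (rootMap β a v).1 i = v.1 i - _
    rw [fst_eq]
    field_simp
  · intro x hx
    have prt : pr (dmap χ v) β.1 = pr v β.1 := rfl
    rw [crd_dmap]
    rcases cases5 hC β hx with hh | hh | hh | hh | hh
    · subst hh
      rw [crd_self, crd_self, crd_dmap, crd_dmap, prt, hχ.neg]
      field_simp
    · subst hh
      have h1 : ip C β.1 (-β.1) ≤ 0 := by rw [ip_neg_right, β.2]; norm_num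
      rw [crd_le β _ _ _ h1, crd_le β _ _ _ h1, crd_dmap]
    · rw [crd_one β _ _ x hx hh, crd_one β _ _ x hx hh, crd_dmap, crd_dmap, hχ.sub]
      field_simp
    · rw [crd_le β _ _ x (by omega), crd_le β _ _ x (by omega), crd_dmap]
    · rw [crd_le β _ _ x (by omega), crd_le β _ _ x (by omega), crd_dmap]

/-- `h_β(c)`. -/
noncomputable def hg (hC : SimplyLaced C) (β : Rt C) (c : FF K) : grp C K :=
  wg hC β c * (wg hC β (1 : FF K))⁻¹

theorem isCh_pow (β : Fin r → ℤ) {c : FF K} (hc : c ≠ 0) : IsCh (fun x => c ^ ip C β x) :=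
  ⟨fun x y => by show c ^ ip C β (x + y) = _; rw [ip_add_right, zpow_add₀ hc],
    fun x => zpow_ne_zero _ hc⟩

theorem isDiag_hg (hC : SimplyLaced C) (β : Rt C) {c : FF K} (hc : c ≠ 0) :
    IsDiag (fun x => c ^ ip C β.1 x) (hg hC β c) := fun v => relH r C hC K β c hc v

theorem hg_mul (hC : SimplyLaced C) (β : Rt C) {c d : FF K} (hc : c ≠ 0) (hd : d ≠ 0) :
    hg hC β c * hg hC β d = hg hC β (c * d) :=
  ((isDiag_hg hC β hc).mul (isDiag_hg hC β hd)).ext (isDiag_hg hC β (mul_ne_zero hc hd))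
    fun γ => (mul_zpow c d _).symm

theorem hg_conj (hC : SimplyLaced C) (β : Rt C) {c : FF K} (hc : c ≠ 0) (a : FF K) :
    hg hC β c * xg hC β a = xg hC β (c ^ 2 * a) * hg hC β c := by
  have := (isDiag_hg hC β hc).conj hC (isCh_pow β.1 hc) β a
  rw [mul_inv_eq_iff_eq_mul] at this
  rw [this, β.2]
  norm_cast

theorem wg_eq_hg (hC : SimplyLaced C) (β : Rt C) (c : FF K) :
    wg hC β c = hg hC β c * wg hC β (1 : FF K) := by
  unfold hg
  group

theorem w_x (hC : SimplyLaced C) (β : Rt C) (b : FF K) :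
    wg hC β (1 : FF K) * xg hC β b = xg hC β.neg b * wg hC β (1 : FF K) := by
  have := (relC r C hC K β 1 one_ne_zero b).1
  rw [one_pow, inv_one, one_mul, mul_inv_eq_iff_eq_mul] at this
  exact this

theorem w_mem (hC : SimplyLaced C) (β : Rt C) : wg hC β (1 : FF K) ∈ arith C K 1 :=
  ((H22.max H99.fld1 r C hC K).2.1 β).2

/-- Units of `A`. -/
theorem hg_mem (hC : SimplyLaced C) (β : Rt C) {d : Polynomial K} (hd : IsUnit d) :
    hg hC β (polyL K d) ∈ arith C K 1 := by
  obtain ⟨u, rfl⟩ := hd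
  have h1 : (polyL K (u : Polynomial K))⁻¹ = polyL K ((u⁻¹ : (Polynomial K)ˣ) : Polynomial K) := by
    symm
    apply eq_inv_of_mul_eq_one_left
    rw [← map_mul, Units.inv_mul, map_one]
  unfold hg
  refine mul_mem ?_ (inv_mem (w_mem hC β))
  unfold wg
  rw [h1]
  exact mul_mem (mul_mem (xg_mem_arith hC 1 _ (polyL_mem_ringA 1 _))
    (xg_mem_arith hC 1 _ (polyL_mem_ringA 1 _))) (xg_mem_arith hC 1 _ (polyL_mem_ringA 1 _))

/-- Euclid's algorithm. -/
theorem euclid (hC : SimplyLaced C) (β : Rt C) (c : Polynomial K) :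
    ∀ d : Polynomial K, d ≠ 0 → IsCoprime c d → ∃ y ∈ Kt K, ∃ γ ∈ arith C K 1,
      xg hC β.neg (polyL K c / polyL K d) = xg hC β y * hg hC β (polyL K d) * γ := by
  induction c using Polynomial.degree_lt_wf.induction with
  | _ c ih =>
    intro d hd hcd
    have hdL := polyL_ne hd
    by_cases hc : c = 0
    · subst hc
      have hu : IsUnit d := isCoprime_zero_left.1 hcd
      refine ⟨0, zero_mem _, (hg hC β (polyL K d))⁻¹, inv_mem (hg_mem hC β hu), ?_⟩
      rw [map_zero, zero_div, xg_zero, xg_zero, one_mul, mul_inv_cancel]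
    · have hcL := polyL_ne hc
      have hmod := EuclideanDomain.div_add_mod d c
      have hlt : (-(d % c)).degree < c.degree := by
        rw [Polynomial.degree_neg]
        exact EuclideanDomain.mod_lt d hc
      have hcop : IsCoprime (-(d % c)) c := by
        apply IsCoprime.neg_left
        have h1 : IsCoprime (d % c + c * (d / c)) c := by
          rw [add_comm, hmod]; exact hcd.symm
        exact h1.of_add_mul_left_left
      obtain ⟨y, hy, γ, hγ, e⟩ := ih _ hlt c hc hcop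
      set z := polyL K c / polyL K d with hz
      have hz0 : z ≠ 0 := div_ne_zero hcL hdL
      have hzK : z ∈ Kt K := div_mem (polyL_mem_Kt c) (polyL_mem_Kt d)
      have h1 : xg hC β.neg z = xg hC β (-z⁻¹) * (hg hC β z⁻¹ * wg hC β (1 : FF K)) *
          xg hC β (-z⁻¹) := by
        rw [← wg_eq_hg]
        unfold wg
        rw [inv_inv, ← xg_inv]
        group
      have h2 : -z⁻¹ = polyL K (-(d % c)) / polyL K c + polyL K (-(d / c)) := by
        rw [hz, inv_div, map_neg, map_neg]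
        have := congrArg (polyL K) hmod
        rw [map_add, map_mul] at this
        rw [← this]
        field_simp
        ring
      have hzc : z⁻¹ * polyL K c = polyL K d := by
        rw [hz]; field_simp
      refine ⟨-z⁻¹ + z⁻¹ ^ 2 * y, add_mem (neg_mem (inv_mem hzK))
        (mul_mem (pow_mem (inv_mem hzK) 2) hy), γ * (wg hC β (1 : FF K) *
        xg hC β (polyL K (-(d / c)))), mul_mem hγ (mul_mem (w_mem hC β)
        (xg_mem_arith hC 1 _ (polyL_mem_ringA 1 _))), ?_⟩
      calc xg hC β.neg z = xg hC β (-z⁻¹) * (hg hC β z⁻¹ * wg hC β (1 : FF K)) *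
            (xg hC β (polyL K (-(d % c)) / polyL K c) * xg hC β (polyL K (-(d / c)))) := by
            rw [← xg_add, ← h2]; exact h1
        _ = xg hC β (-z⁻¹) * hg hC β z⁻¹ * (wg hC β (1 : FF K) *
            xg hC β (polyL K (-(d % c)) / polyL K c)) * xg hC β (polyL K (-(d / c))) := by group
        _ = xg hC β (-z⁻¹) * (hg hC β z⁻¹ * xg hC β y) * hg hC β (polyL K c) * γ *
            (wg hC β (1 : FF K) * xg hC β (polyL K (-(d / c)))) := by
            rw [w_x, e]; group
        _ = xg hC β (-z⁻¹) * xg hC β (z⁻¹ ^ 2 * y) * (hg hC β z⁻¹ * hg hC β (polyL K c)) *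
            (γ * (wg hC β (1 : FF K) * xg hC β (polyL K (-(d / c))))) := by
            rw [hg_conj hC β (inv_ne_zero hz0)]; group
        _ = _ := by rw [hg_mul hC β (inv_ne_zero hz0) hcL, hzc, xg_add]

end

end Pool.Agent.TMP.H43
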