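import Pool.Agent.Helper43_TMP.Kt

/-!
# The embedding of `K(t)` in `K2((T))`, `K2 = K[t]/P`, `t ↦ θ + T` (squad TMP, helper43)
-/

set_option autoImplicit false

namespace Pool.Agent.TMP.H43

open Pool.Agent.DEN

section
variable {K : Type} [Field K]

theorem bd_add {m : ℤ} {a b : FF K} (ha : a ∈ Bd K m) (hb : b ∈ Bd K m) : a + b ∈ Bd K m :=
  (H99.fld1 K).2.1 m a b ha hb

theorem bd_neg {m : ℤ} {a : FF K} (ha : a ∈ Bd K m) : -a ∈ Bd K m := (H99.fld1 K).2.2.1 m a ha

theorem bd_sub {m : ℤ} {a b : FF K} (ha : a ∈ Bd K m) (hb : b ∈ Bd K m) : a - b ∈ Bd K m := by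
  rw [sub_eq_add_neg]
  exact bd_add ha (bd_neg hb)

theorem bd_mono {m n : ℤ} (h : m ≤ n) {a : FF K} (ha : a ∈ Bd K m) : a ∈ Bd K n :=
  (H99.fld1 K).2.2.2.2.1 m n a h ha

theorem bd_int (n : ℤ) : ((n : ℤ) : FF K) ∈ Bd K 0 := (H99.fld1 K).2.2.2.2.2.1 n

theorem bd_one : (1 : FF K) ∈ Bd K 0 := by
  have := bd_int (K := K) 1
  rwa [Int.cast_one] at this

theorem bd_zero (m : ℤ) : (0 : FF K) ∈ Bd K m := (H99.fld1 K).1 m

/-- Every element is bounded; the exact degree. -/
theorem exists_deg {a : FF K} (ha : a ≠ 0) :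
    ∃ m : ℤ, a ∈ Bd K m ∧ a ∉ Bd K (m - 1) ∧ a⁻¹ ∈ Bd K (-m) := by
  obtain ⟨m, u, h1, h2, h3, h4, h5⟩ := (H99.fld1 K).2.2.2.2.2.2.2.2 a ha
  refine ⟨m, ?_, h5, ?_⟩
  · rw [h1]
    have := H99.bd_mul (H99.tt_mem (K := K) m) h2
    rwa [add_zero] at this
  · rw [h1, mul_inv, ← zpow_neg]
    have := H99.bd_mul (H99.tt_mem (K := K) (-m)) h3
    rwa [add_zero] at this

theorem exists_bd (a : FF K) : ∃ m : ℤ, a ∈ Bd K m := by
  by_cases h : a = 0
  · exact ⟨0, by rw [h]; exact bd_zero 0⟩
  · obtain ⟨m, h1, -⟩ := exists_deg h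
    exact ⟨m, h1⟩

theorem inv_mem_Bd {m : ℤ} {a : FF K} (h : a ∈ Bd K m) (h' : a ∉ Bd K (m - 1)) :
    a⁻¹ ∈ Bd K (-m) := by
  have h0 : a ≠ 0 := by
    rintro rfl
    exact h' (bd_zero _)
  obtain ⟨n, h1, h2, h3⟩ := exists_deg h0
  have e : m = n := by
    apply le_antisymm
    · by_contra hlt
      exact h' (bd_mono (by omega) h1)
    · by_contra hlt
      exact h2 (bd_mono (by omega) h)
  rw [e]
  exact h3

theorem bd_npow {m : ℤ} {a : FF K} (h : a ∈ Bd K m) (n : ℕ) : a ^ n ∈ Bd K (n * m) := by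
  induction n with
  | zero => simpa using bd_one
  | succ n ih =>
    rw [pow_succ]
    have := H99.bd_mul ih h
    have e : ((n + 1 : ℕ) : ℤ) * m = n * m + m := by push_cast; ring
    rw [e]
    exact this

theorem bd_zpow {m : ℤ} {a : FF K} (h : a ∈ Bd K m) (h' : a ∉ Bd K (m - 1)) (n : ℤ) :
    a ^ n ∈ Bd K (n * m) := by
  obtain ⟨k, rfl | rfl⟩ := n.eq_nat_or_neg
  · rw [zpow_natCast]
    exact bd_npow h k
  · rw [zpow_neg, zpow_natCast, ← inv_pow]
    have := bd_npow (inv_mem_Bd h h') k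
    rwa [mul_neg, ← neg_mul] at this

end

section
variable {K : Type} [Field K] (P : Polynomial K)

/-- `t ↦ θ + T`, with values in the power series. -/
noncomputable def jps : Polynomial K →+* PowerSeries (AdjoinRoot P) :=
  Polynomial.eval₂RingHom ((PowerSeries.C (R := AdjoinRoot P)).comp (AdjoinRoot.of P))
    (PowerSeries.C (AdjoinRoot.root P) + PowerSeries.X)

theorem jps_C (a : K) : jps P (Polynomial.C a) = PowerSeries.C (AdjoinRoot.of P a) := by
  unfold jps
  rw [Polynomial.coe_eval₂RingHom, Polynomial.eval₂_C]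
  rfl

theorem jps_X : jps P Polynomial.X = PowerSeries.C (AdjoinRoot.root P) + PowerSeries.X := by
  unfold jps
  rw [Polynomial.coe_eval₂RingHom, Polynomial.eval₂_X]

theorem jps_coeff0 (p : Polynomial K) :
    PowerSeries.constantCoeff (jps P p) = AdjoinRoot.mk P p := by
  have : (PowerSeries.constantCoeff (R := AdjoinRoot P)).comp (jps P) = AdjoinRoot.mk P := by
    apply Polynomial.ringHom_ext
    · intro a
      rw [RingHom.comp_apply, jps_C, PowerSeries.constantCoeff_C]
      rfl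
    · rw [RingHom.comp_apply, jps_X, map_add, PowerSeries.constantCoeff_C,
        PowerSeries.constantCoeff_X, add_zero]
      rfl
  exact congrArg (fun f => f p) this

theorem jps_coeff1_mul (x y : PowerSeries (AdjoinRoot P)) :
    PowerSeries.coeff 1 (x * y) = PowerSeries.constantCoeff x * PowerSeries.coeff 1 y +
      PowerSeries.coeff 1 x * PowerSeries.constantCoeff y := by
  rw [PowerSeries.coeff_mul, Finset.Nat.antidiagonal_succ, Finset.sum_cons]
  simp

theorem jps_coeff1 (p : Polynomial K) :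
    PowerSeries.coeff 1 (jps P p) = AdjoinRoot.mk P (Polynomial.derivative p) := by
  induction p using Polynomial.induction_on' with
  | add p q hp hq => rw [map_add, map_add, hp, hq, Polynomial.derivative_add, map_add]
  | monomial n c =>
    induction n with
    | zero =>
      rw [Polynomial.monomial_zero_left, jps_C, Polynomial.derivative_C, map_zero]
      rw [PowerSeries.coeff_C]
      simp
    | succ n ih =>
      have e : Polynomial.monomial (n + 1) c = Polynomial.monomial n c * Polynomial.X := by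
        rw [Polynomial.monomial_mul_X]
      rw [e, map_mul, jps_coeff1_mul, ih, jps_coeff0, jps_X, map_add, map_add,
        Polynomial.derivative_mul, Polynomial.derivative_X, mul_one, map_add, map_mul,
        PowerSeries.coeff_C, PowerSeries.coeff_one_X, PowerSeries.constantCoeff_C,
        PowerSeries.constantCoeff_X]
      simp only [one_ne_zero, if_false, zero_add, add_zero, mul_one]
      rw [AdjoinRoot.mk_X]
      ring

variable [Fact (Irreducible P)]

/-- `t ↦ θ + T`, on polynomials. -/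
noncomputable def j0 : Polynomial K →+* FF (AdjoinRoot P) :=
  (HahnSeries.ofPowerSeries ℤ (AdjoinRoot P)).comp (jps P)

theorem j0_coeff_neg (p : Polynomial K) {j : ℤ} (hj : j < 0) : (j0 P p).coeff j = 0 := by
  have := PowerSeries.coeff_coe (R := AdjoinRoot P) (jps P p) j
  rw [if_pos hj] at this
  exact this

theorem j0_coeff_nat (p : Polynomial K) (n : ℕ) :
    (j0 P p).coeff (n : ℤ) = PowerSeries.coeff n (jps P p) := by
  have := PowerSeries.coeff_coe (R := AdjoinRoot P) (jps P p) n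
  rw [if_neg (by omega)] at this
  exact this

theorem j0_mem (p : Polynomial K) : j0 P p ∈ Bd (AdjoinRoot P) 0 := by
  intro j hj
  exact j0_coeff_neg P p (by omega)

theorem j0_coeff0 (p : Polynomial K) : (j0 P p).coeff 0 = AdjoinRoot.mk P p := by
  have := j0_coeff_nat P p 0
  rw [Nat.cast_zero] at this
  rw [this, ← jps_coeff0, PowerSeries.coeff_zero_eq_constantCoeff_apply]

theorem j0_coeff1 (p : Polynomial K) :
    (j0 P p).coeff 1 = AdjoinRoot.mk P (Polynomial.derivative p) := by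
  have := j0_coeff_nat P p 1
  rw [Nat.cast_one] at this
  rw [this, jps_coeff1]

theorem j0_mem_iff (p : Polynomial K) : j0 P p ∈ Bd (AdjoinRoot P) (-1) ↔ P ∣ p := by
  rw [← AdjoinRoot.mk_eq_zero, ← j0_coeff0]
  constructor
  · intro h
    exact h 0 (by omega)
  · intro h j hj
    rcases lt_or_eq_of_le (show j ≤ 0 by omega) with h1 | h1
    · exact j0_coeff_neg P p h1
    · rw [h1, h]

theorem j0_P_mem : j0 P P ∈ Bd (AdjoinRoot P) (-1) := (j0_mem_iff P P).2 dvd_rfl

variable [Finite K]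

theorem j0_P_not : j0 P P ∉ Bd (AdjoinRoot P) (-1 - 1) := by
  intro h
  have h1 := h 1 (by omega)
  rw [j0_coeff1, AdjoinRoot.mk_eq_zero] at h1
  have hirr : Irreducible P := Fact.out
  have hsep : P.Separable := PerfectField.separable_of_irreducible hirr
  have h2 : IsUnit P := hsep.isUnit_of_dvd' dvd_rfl h1
  exact hirr.not_isUnit h2

theorem j0_P_ne : j0 P P ≠ 0 := by
  intro h
  apply j0_P_not P
  rw [h]
  exact bd_zero _

theorem j0_P_zpow (n : ℤ) : j0 P P ^ n ∈ Bd (AdjoinRoot P) (-n) := by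
  have := bd_zpow (j0_P_mem P) (j0_P_not P) n
  rwa [mul_neg, mul_one] at this

theorem j0_ne {p : Polynomial K} (hp : p ≠ 0) : j0 P p ≠ 0 := by
  have hirr : Irreducible P := Fact.out
  obtain ⟨q, hq1, hq⟩ := (FiniteMultiplicity.of_not_isUnit hirr.not_isUnit
    hp).exists_eq_pow_mul_and_not_dvd
  rw [hq1, map_mul, map_pow]
  refine mul_ne_zero (pow_ne_zero _ (j0_P_ne P)) ?_
  intro h
  apply hq
  rw [← j0_mem_iff, h]
  exact bd_zero _

/-! ## The extension to `K(t)` -/

open Classical in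
/-- The embedding of `K(t)`, extended by `0`. -/
noncomputable def jj (a : FF K) : FF (AdjoinRoot P) :=
  if h : ∃ c d : Polynomial K, d ≠ 0 ∧ polyL K d * a = polyL K c then
    j0 P h.choose / j0 P h.choose_spec.choose else 0

theorem jj_eq {a : FF K} {c d : Polynomial K} (hd : d ≠ 0) (h : polyL K d * a = polyL K c) :
    jj P a = j0 P c / j0 P d := by
  have hex : ∃ c d : Polynomial K, d ≠ 0 ∧ polyL K d * a = polyL K c := ⟨c, d, hd, h⟩
  unfold jj
  rw [dif_pos hex]
  obtain ⟨h1, h2⟩ := hex.choose_spec.choose_spec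
  set c' := hex.choose
  set d' := hex.choose_spec.choose
  rw [div_eq_div_iff (j0_ne P h1) (j0_ne P hd), ← map_mul, ← map_mul]
  congr 1
  apply polyL_inj
  rw [map_mul, map_mul, ← h2, ← h]
  ring

theorem jj_polyL (p : Polynomial K) : jj P (polyL K p) = j0 P p := by
  rw [jj_eq P one_ne_zero (c := p) (by rw [map_one, one_mul]), map_one, div_one]

theorem jj_zero : jj P (0 : FF K) = 0 := by
  have := jj_polyL P (0 : Polynomial K)
  rwa [map_zero, map_zero] at this

theorem jj_one : jj P (1 : FF K) = 1 := by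
  have := jj_polyL P (1 : Polynomial K)
  rwa [map_one, map_one] at this

theorem jj_int (n : ℤ) : jj P ((n : ℤ) : FF K) = ((n : ℤ) : FF (AdjoinRoot P)) := by
  have := jj_polyL P ((n : ℤ) : Polynomial K)
  rwa [map_intCast, map_intCast] at this

theorem jj_add {a b : FF K} (ha : a ∈ Kt K) (hb : b ∈ Kt K) : jj P (a + b) = jj P a + jj P b := by
  obtain ⟨c, d, hd, h⟩ := ha
  obtain ⟨c', d', hd', h'⟩ := hb
  rw [jj_eq P hd h, jj_eq P hd' h', jj_eq P (mul_ne_zero hd hd') (c := c * d' + c' * d)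
    (by rw [map_mul, map_add, map_mul, map_mul, ← h, ← h']; ring), map_add, map_mul, map_mul,
    map_mul]
  have := j0_ne P hd
  have := j0_ne P hd'
  field_simp

theorem jj_mul {a b : FF K} (ha : a ∈ Kt K) (hb : b ∈ Kt K) : jj P (a * b) = jj P a * jj P b := by
  obtain ⟨c, d, hd, h⟩ := ha
  obtain ⟨c', d', hd', h'⟩ := hb
  rw [jj_eq P hd h, jj_eq P hd' h', jj_eq P (mul_ne_zero hd hd') (c := c * c')
    (by rw [map_mul, map_mul, ← h, ← h']; ring), map_mul, map_mul]
  have := j0_ne P hd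
  have := j0_ne P hd'
  field_simp

theorem jj_neg {a : FF K} (ha : a ∈ Kt K) : jj P (-a) = -jj P a := by
  have h1 : (-1 : FF K) ∈ Kt K := neg_mem (one_mem _)
  have h2 := jj_int P (-1)
  push_cast at h2
  rw [← neg_one_mul, jj_mul P h1 ha, h2, neg_one_mul]

theorem jj_pow {a : FF K} (ha : a ∈ Kt K) (n : ℕ) : jj P (a ^ n) = jj P a ^ n := by
  induction n with
  | zero => rw [pow_zero, pow_zero, jj_one]
  | succ n ih => rw [pow_succ, pow_succ, jj_mul P (pow_mem ha n) ha, ih]

theorem jj_inv {a : FF K} (ha : a ∈ Kt K) : jj P a⁻¹ = (jj P a)⁻¹ := by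
  by_cases h : a = 0
  · rw [h, inv_zero, jj_zero, inv_zero]
  · apply eq_inv_of_mul_eq_one_left
    rw [← jj_mul P (inv_mem ha) ha, inv_mul_cancel₀ h, jj_one]

theorem jj_zpow {a : FF K} (ha : a ∈ Kt K) (n : ℤ) : jj P (a ^ n) = jj P a ^ n := by
  obtain ⟨k, rfl | rfl⟩ := n.eq_nat_or_neg
  · rw [zpow_natCast, zpow_natCast, jj_pow P ha]
  · rw [zpow_neg, zpow_neg, zpow_natCast, zpow_natCast, jj_inv P (pow_mem ha k), jj_pow P ha]

theorem jj_ne {a : FF K} (ha : a ∈ Kt K) (h : a ≠ 0) : jj P a ≠ 0 := by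
  intro h0
  have := jj_mul P ha (inv_mem ha)
  rw [mul_inv_cancel₀ h, jj_one, h0, zero_mul] at this
  exact one_ne_zero this

/-- Integrality. -/
theorem jj_int_iff {a : FF K} (ha : a ∈ ringA K P) :
    jj P a ∈ Bd (AdjoinRoot P) 0 ↔ a ∈ ringA K 1 := by
  have hirr : Irreducible P := Fact.out
  constructor
  · intro h
    have key : ∀ n : ℕ, ∀ p : Polynomial K, polyL K P ^ n * a = polyL K p → a ∈ ringA K 1 := by
      intro n
      induction n with
      | zero =>
        intro p hp
        rw [pow_zero, one_mul] at hp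
        rw [hp]
        exact polyL_mem_ringA 1 p
      | succ n ih =>
        intro p hp
        have h1 : polyL K (P ^ (n + 1)) * a = polyL K p := by rw [map_pow]; exact hp
        have h2 := jj_eq P (pow_ne_zero _ hirr.ne_zero) h1
        have h3 : j0 P p = jj P a * j0 P P ^ (n + 1) := by
          rw [h2, map_pow, div_mul_cancel₀]
          exact pow_ne_zero _ (j0_P_ne P)
        have h4 : j0 P p ∈ Bd (AdjoinRoot P) (-1) := by
          rw [h3]
          have := H99.bd_mul h (j0_P_zpow P ((n + 1 : ℕ) : ℤ))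
          rw [zpow_natCast] at this
          exact bd_mono (by push_cast; omega) this
        obtain ⟨q, rfl⟩ := (j0_mem_iff P p).1 h4
        apply ih q
        apply mul_left_cancel₀ (polyL_ne hirr.ne_zero)
        rw [map_mul] at hp
        rw [← hp]
        ring
    obtain ⟨n, p, hp⟩ := ((H99.fld3 K P 1 hirr.ne_zero).1 a).1 ha
    exact key n p hp
  · intro h
    obtain ⟨p, rfl⟩ := mem_ringA_one.1 h
    rw [jj_polyL]
    exact j0_mem P p

theorem zpow_mem_ringA (n : ℤ) : polyL K P ^ n ∈ ringA K P := by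
  obtain ⟨k, rfl | rfl⟩ := n.eq_nat_or_neg
  · rw [zpow_natCast]
    exact pow_mem (polyL_mem_ringA P P) k
  · rw [zpow_neg, zpow_natCast, ← inv_pow]
    exact (ringA K P).pow_mem (Subring.subset_closure (Or.inr rfl)) k

/-- Density of `A[1/P]` in `K2((T))`. -/
theorem jj_dense (a' : FF (AdjoinRoot P)) (m : ℤ) :
    ∃ a ∈ ringA K P, a' - jj P a ∈ Bd (AdjoinRoot P) m := by
  have key : ∀ n : ℕ, ∀ a' : FF (AdjoinRoot P), a' ∈ Bd (AdjoinRoot P) (m + n) →
      ∃ a ∈ ringA K P, a' - jj P a ∈ Bd (AdjoinRoot P) m := by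
    intro n
    induction n with
    | zero =>
      intro a' h
      refine ⟨0, zero_mem _, ?_⟩
      rw [jj_zero, sub_zero]
      rwa [Nat.cast_zero, add_zero] at h
    | succ n ih =>
      intro a' h
      set M : ℤ := m + ((n + 1 : ℕ) : ℤ) with hM
      set x := a' * j0 P P ^ M with hx
      have hx0 : x ∈ Bd (AdjoinRoot P) 0 := by
        have := H99.bd_mul h (j0_P_zpow P M)
        rwa [add_neg_cancel] at this
      obtain ⟨p, hp⟩ := AdjoinRoot.mk_surjective (g := P) (HahnSeries.coeff x 0)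
      have hxp : x - j0 P p ∈ Bd (AdjoinRoot P) (-1) := by
        intro j hj
        rcases lt_or_eq_of_le (show j ≤ 0 by omega) with h1 | h1
        · rw [HahnSeries.coeff_sub, hx0 j (by omega), j0_coeff_neg P p h1, sub_zero]
        · rw [h1, HahnSeries.coeff_sub, j0_coeff0, hp, sub_self]
      have hPK : polyL K P ∈ Kt K := polyL_mem_Kt P
      set a1 := polyL K P ^ (-M) * polyL K p with ha1
      have ha1P : a1 ∈ ringA K P := mul_mem (zpow_mem_ringA P _) (polyL_mem_ringA P p)
      have hj1 : jj P a1 = j0 P P ^ (-M) * j0 P p := by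
        rw [ha1, jj_mul P (zpow_mem hPK _) (polyL_mem_Kt p), jj_zpow P hPK, jj_polyL, jj_polyL]
      have h2 : a' - jj P a1 ∈ Bd (AdjoinRoot P) (m + n) := by
        have e : a' - jj P a1 = j0 P P ^ (-M) * (x - j0 P p) := by
          rw [hj1, mul_sub, hx]
          congr 1
          rw [mul_left_comm, ← zpow_add₀ (j0_P_ne P), neg_add_cancel, zpow_zero, mul_one]
        rw [e]
        have := H99.bd_mul (j0_P_zpow P (-M)) hxp
        refine bd_mono ?_ this
        push_cast at hM
        omega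
      obtain ⟨a2, ha2, h3⟩ := ih _ h2
      refine ⟨a1 + a2, add_mem ha1P ha2, ?_⟩
      rw [jj_add P (ringA_le_Kt P ha1P) (ringA_le_Kt P ha2), ← sub_sub]
      exact h3
  obtain ⟨k, hk⟩ := exists_bd a'
  exact key (k - m).toNat a' (bd_mono (by omega) hk)

end

end Pool.Agent.TMP.H43
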