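import Pool.Agent.Helper43_TMP.Phi

/-!
# Density of `φ(Γ_P)` (squad TMP, helper43)
-/

set_option autoImplicit false

open scoped BigOperators

namespace Pool.Agent.TMP.H43

open Pool.Agent.DEN

section
variable {r : ℕ} {C : Matrix (Fin r) (Fin r) ℤ} {K : Type} [Field K]

theorem Cd_bd_mono {m n : ℤ} (h : m ≤ n) {v : LieV C (FF K)} (hv : Cd (Bd K m) v) :
    Cd (Bd K n) v :=
  ⟨fun i => bd_mono h (hv.1 i), fun γ => bd_mono h (hv.2 γ)⟩

theorem Cd_bd_add {m : ℤ} {v w : LieV C (FF K)} (hv : Cd (Bd K m) v) (hw : Cd (Bd K m) w) :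
    Cd (Bd K m) (v + w) :=
  ⟨fun i => bd_add (hv.1 i) (hw.1 i), fun γ => bd_add (hv.2 γ) (hw.2 γ)⟩

/-- Small root elements move little. -/
theorem rootMap_small (β : Rt C) {a : FF K} {k m : ℤ} (hk : 0 ≤ k) (ha : a ∈ Bd K (-k))
    {v : LieV C (FF K)} (hv : Cd (Bd K m) v) : Cd (Bd K (m - k)) (rootMap β a v - v) := by
  have hcrd : ∀ x : Fin r → ℤ, crd v x ∈ Bd K m := by
    intro x
    unfold crd
    split_ifs with h
    · exact hv.2 _
    · exact bd_zero _
  have hpr : ∀ x : Fin r → ℤ, pr v x ∈ Bd K m := by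
    intro x
    unfold pr
    refine H75.bd_sum H99.fld1 _ _ _ fun i _ => H75.bd_sum H99.fld1 _ _ _ fun j _ => ?_
    have e1 := H99.bd_mul (H99.bd_mul (hv.1 i) (bd_int (C i j))) (bd_int (x j))
    rwa [add_zero, add_zero] at e1
  have m0 : ∀ x : FF K, x ∈ Bd K m → a * x ∈ Bd K (m - k) := by
    intro x hx
    have := H99.bd_mul ha hx
    rwa [neg_add_eq_sub] at this
  have mi : ∀ (x : FF K) (n : ℤ), x ∈ Bd K m → x * (n : FF K) ∈ Bd K m := by
    intro x n hx
    have := H99.bd_mul hx (bd_int n)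
    rwa [add_zero] at this
  have m2 : ∀ x : FF K, x ∈ Bd K m → a ^ 2 * x ∈ Bd K (m - k) := by
    intro x hx
    have := H99.bd_mul ha (m0 x hx)
    rw [← mul_assoc, ← pow_two] at this
    exact bd_mono (by omega) this
  constructor
  · intro i
    rw [Prod.fst_sub, Pi.sub_apply, rootMap_fst]
    have e : v.1 i - a * v.2 β.neg * ((β.1 i : ℤ) : FF K) - v.1 i =
        -(a * (v.2 β.neg * ((β.1 i : ℤ) : FF K))) := by ring
    rw [e]
    exact bd_neg (m0 _ (mi _ _ (hv.2 _)))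
  · intro γ
    rw [Prod.snd_sub, Pi.sub_apply]
    by_cases h2 : γ = β
    · subst h2
      rw [rootMap_snd_self]
      have e : v.2 γ - a * pr v γ.1 + a ^ 2 * v.2 γ.neg - v.2 γ =
          -(a * pr v γ.1) + a ^ 2 * v.2 γ.neg := by ring
      rw [e]
      exact bd_add (bd_neg (m0 _ (hpr _))) (m2 _ (hv.2 _))
    · by_cases h3 : ip C β.1 γ.1 = 1
      · rw [rootMap_snd_one _ _ _ _ h3]
        have e : v.2 γ + a * ((eps C β.1 (γ.1 - β.1) : ℤ) : FF K) * crd v (γ.1 - β.1) - v.2 γ =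
            a * (crd v (γ.1 - β.1) * ((eps C β.1 (γ.1 - β.1) : ℤ) : FF K)) := by ring
        rw [e]
        exact m0 _ (mi _ _ (hcrd _))
      · rw [rootMap_snd_other _ _ _ _ h2 h3, sub_self]
        exact bd_zero _

theorem Nbd.mul {M : ℕ} {g h : grp C K} (hg : Nbd M g) (hh : Nbd M h) : Nbd M (g * h) := by
  have key : ∀ a b : grp C K, (∀ v : LieV C (FF K), Cd (Bd K 0) v →
      Cd (Bd K (-(M : ℤ))) (a.1 v - v)) → (∀ v : LieV C (FF K), Cd (Bd K 0) v →
      Cd (Bd K (-(M : ℤ))) (b.1 v - v)) → ∀ v : LieV C (FF K), Cd (Bd K 0) v →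
      Cd (Bd K (-(M : ℤ))) ((a * b).1 v - v) := by
    intro a b ha hb v hv
    have h1 := hb v hv
    have h2 : Cd (Bd K 0) (b.1 v) := by
      have := Cd_bd_add (Cd_bd_mono (n := 0) (by omega) h1) hv
      rwa [sub_add_cancel] at this
    have h3 := Cd_bd_add (ha _ h2) h1
    rw [sub_add_sub_cancel] at h3
    exact h3
  intro v hv
  refine ⟨key g h (fun v hv => (hg v hv).1) (fun v hv => (hh v hv).1) v hv, ?_⟩
  rw [mul_inv_rev]
  exact key h⁻¹ g⁻¹ (fun v hv => (hh v hv).2) (fun v hv => (hg v hv).2) v hv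

theorem Nbd.mem_maxK (hC : SimplyLaced C) {M : ℕ} {g : grp C K} (h : Nbd M g) :
    g ∈ maxK C K := by
  have key : ∀ a : grp C K, (∀ v : LieV C (FF K), Cd (Bd K 0) v →
      Cd (Bd K (-(M : ℤ))) (a.1 v - v)) → bnd 0 a := by
    intro a ha v hv
    have := Cd_bd_add (Cd_bd_mono (n := 0) (by omega) (ha v hv)) hv
    rwa [sub_add_cancel] at this
  exact ((H75.bdg H99.fld1 r C hC K).2.2 g).2 ⟨key g fun v hv => (h v hv).1,
    key g⁻¹ fun v hv => (h v hv).2⟩

/-- Conjugates of small root elements. -/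
theorem exists_small (hC : SimplyLaced C) (x : grp C K) (M : ℕ) :
    ∃ m : ℤ, ∀ a ∈ Bd K m, ∀ β : Rt C, Nbd M (x⁻¹ * xg hC β a * x) := by
  obtain ⟨n, h1, h2⟩ := H75.exists_bnd H99.fld1 hC x
  refine ⟨-(2 * n + M : ℕ), fun a ha β => ?_⟩
  have key : ∀ a ∈ Bd K (-(2 * n + M : ℕ)), ∀ v : LieV C (FF K), Cd (Bd K 0) v →
      Cd (Bd K (-(M : ℤ))) ((x⁻¹ * xg hC β a * x).1 v - v) := by
    intro a ha v hv
    have h3 : Cd (Bd K n) (x.1 v) := h1 v hv
    have h4 := rootMap_small β (k := (2 * n + M : ℕ)) (by omega) ha h3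
    have h5 := H75.bnd_apply H99.fld1 h2 h4
    have e : (x⁻¹ * xg hC β a * x).1 v - v = (x⁻¹).1 (rootMap β a (x.1 v) - x.1 v) := by
      rw [map_sub]
      congr 1
      have : (x⁻¹ * x).1 v = v := by rw [inv_mul_cancel]; rfl
      exact this.symm
    rw [e]
    refine Cd_bd_mono ?_ h5
    push_cast
    omega
  intro v hv
  refine ⟨key a ha v hv, ?_⟩
  have e : (x⁻¹ * xg hC β a * x)⁻¹ = x⁻¹ * xg hC β (-a) * x := by
    rw [← xg_inv]; group
  rw [e]
  exact key (-a) (bd_neg ha) v hv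

end

section
variable {r : ℕ} {C : Matrix (Fin r) (Fin r) ℤ} {K : Type} [Field K] (P : Polynomial K)
  [Fact (Irreducible P)] [Finite K]

/-- Density of the image. -/
theorem phi_dense (hC : SimplyLaced C) (x : grp C (AdjoinRoot P)) (M : ℕ) :
    ∃ g : arith C K P, Nbd M ((phi P hC g)⁻¹ * x) := by
  have key : ∀ x : grp C (AdjoinRoot P), (∃ g : arith C K P, Nbd M ((phi P hC g)⁻¹ * x)) →
      ∀ (β : Rt C) (a : FF (AdjoinRoot P)),
      ∃ g : arith C K P, Nbd M ((phi P hC g)⁻¹ * (xg hC β a * x)) := by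
    rintro x ⟨g, hg⟩ β a
    obtain ⟨m, hm⟩ := exists_small hC x M
    obtain ⟨b, hb, hab⟩ := jj_dense P a m
    refine ⟨⟨xg hC β b, xg_mem_arith hC P β hb⟩ * g, ?_⟩
    have e : (phi P hC (⟨xg hC β b, xg_mem_arith hC P β hb⟩ * g))⁻¹ * (xg hC β a * x) =
        ((phi P hC g)⁻¹ * x) * (x⁻¹ * xg hC β (a - jj P b) * x) := by
      rw [map_mul, phi_xg P hC β hb, mul_inv_rev, sub_eq_neg_add, xg_add, ← xg_inv]
      group
    rw [e]
    exact Nbd.mul hg (hm _ hab β)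
  have hx : x ∈ Subgroup.closure {g : grp C (AdjoinRoot P) | ∃ (β : Rt C)
      (a : FF (AdjoinRoot P)), g = xg hC β a} := by
    rw [grp_closure hC]; exact Subgroup.mem_top x
  induction hx using Subgroup.closure_induction_left with
  | one =>
    refine ⟨1, ?_⟩
    rw [map_one, inv_one, one_mul]
    intro v hv
    rw [inv_one]
    have e : (1 : grp C (AdjoinRoot P)).1 v - v = 0 := by
      show v - v = 0
      exact sub_self v
    rw [e]
    exact ⟨⟨fun i => bd_zero _, fun γ => bd_zero _⟩, ⟨fun i => bd_zero _, fun γ => bd_zero _⟩⟩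
  | mul_left x hx y hy ih =>
    obtain ⟨β, a, rfl⟩ := hx
    exact key y ih β a
  | inv_mul_cancel x hx y hy ih =>
    obtain ⟨β, a, rfl⟩ := hx
    rw [xg_inv]
    exact key y ih β (-a)

end

end Pool.Agent.TMP.H43
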