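import Pool.Agent.Helper43_TMP.Dg
import Pool.Agent.Helper59_DEN.Roots
import Pool.Agent.Helper64_DEN.Rootd
import Pool.Agent.Helper67_DEN.Iwa
import Pool.Agent.Helper22_DEN.RelB

/-!
# Iwasawa decomposition over `K(t)` with the arithmetic group (squad TMP, helper43)

`G(K(t)) = U(K(t)) T(K(t)) G(A)`.
-/

set_option autoImplicit false

open scoped BigOperators

namespace Pool.Agent.TMP.H43

open Pool.Agent.DEN Pool.Agent.DEN.H22

theorem rootD : RootDescStmt := H64.rootd H59.rootSign H59.rootFin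

section
variable {r : ℕ} {C : Matrix (Fin r) (Fin r) ℤ} {K : Type} [Field K]

/-- The root elements with entries in `K(t)`. -/
noncomputable def GE (C : Matrix (Fin r) (Fin r) ℤ) (K : Type) [Field K] : Subgroup (grp C K) :=
  Subgroup.closure {g | ∃ (β : Rt C) (a : FF K), a ∈ Kt K ∧ ∀ v, g.1 v = rootMap β a v}

/-- The positive root elements with entries in `K(t)`. -/
noncomputable def UE (C : Matrix (Fin r) (Fin r) ℤ) (K : Type) [Field K] : Subgroup (grp C K) :=
  Subgroup.closure {g | ∃ (β : Rt C) (a : FF K), β.Pos ∧ a ∈ Kt K ∧ ∀ v, g.1 v = rootMap β a v}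

/-- The positive root elements for the roots `≠ α_i` with entries in `K(t)`. -/
noncomputable def UnE (C : Matrix (Fin r) (Fin r) ℤ) (K : Type) [Field K] (i : Fin r) : Subgroup (grp C K) :=
  Subgroup.closure {g | ∃ (β : Rt C) (a : FF K), β.Pos ∧ β.1 ≠ al i ∧ a ∈ Kt K ∧
    ∀ v, g.1 v = rootMap β a v}

theorem mem_GE (hC : SimplyLaced C) (β : Rt C) {a : FF K} (ha : a ∈ Kt K) :
    xg hC β a ∈ GE C K := Subgroup.subset_closure ⟨β, a, ha, fun _ => rfl⟩

theorem mem_UE (hC : SimplyLaced C) {β : Rt C} (hβ : β.Pos) {a : FF K} (ha : a ∈ Kt K) :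
    xg hC β a ∈ UE C K := Subgroup.subset_closure ⟨β, a, hβ, ha, fun _ => rfl⟩

theorem mem_UnE (hC : SimplyLaced C) {i : Fin r} {β : Rt C} (hβ : β.Pos) (h2 : β.1 ≠ al i)
    {a : FF K} (ha : a ∈ Kt K) : xg hC β a ∈ UnE C K i :=
  Subgroup.subset_closure ⟨β, a, hβ, h2, ha, fun _ => rfl⟩

theorem UnE_le (i : Fin r) : UnE C K i ≤ UE C K := by
  apply Subgroup.closure_mono
  rintro g ⟨β, a, h1, -, h3, h4⟩
  exact ⟨β, a, h1, h3, h4⟩

theorem UE_le_Ug : UE C K ≤ Ug C K := by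
  apply Subgroup.closure_mono
  rintro g ⟨β, a, h1, -, h4⟩
  exact ⟨β, a, h1, h4⟩

theorem arith_le_GE (P : Polynomial K) : arith C K P ≤ GE C K := by
  apply Subgroup.closure_mono
  rintro g ⟨β, a, h1, h4⟩
  exact ⟨β, a, ringA_le_Kt P h1, h4⟩

theorem conj_wE (hC : SimplyLaced C) (i : Fin r)
    {β : Rt C} (h1 : β.Pos) (h2 : β.1 ≠ al i) {b : FF K} (hb : b ∈ Kt K) :
    wg hC (hC.sr i) (1 : FF K) * xg hC β b * (wg hC (hC.sr i) (1 : FF K))⁻¹ ∈ UnE C K i := by
  obtain ⟨-, -, r1, r2, r3⟩ := relC r C hC K (hC.sr i) 1 one_ne_zero b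
  have hne : β ≠ hC.sr i := fun h => h2 (by rw [h, hC.sr_val])
  have key : ∀ γ : Rt C, γ.1 = β.1 - ip C β.1 (al i) • al i → γ.Pos ∧ γ.1 ≠ al i := by
    intro γ hγ
    have := (rootD r C hC).2.1 i β γ h1 hne hγ
    exact ⟨this.1, fun h => this.2 (Subtype.ext (by rw [h, hC.sr_val]))⟩
  rcases H67.ip_cases hC i β with h | h | h | h | h
  · exact absurd h (H67.ne_two hC i h2)
  · have hr : ip C (β.1 - al i) (β.1 - al i) = 2 := by
      have := hC.ip_sub_self (β := β) (γ := hC.sr i) (by rw [hC.sr_val, hC.ip_comm]; exact h)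
      exact this
    rw [r1 β ⟨_, hr⟩ h rfl]
    obtain ⟨k1, k2⟩ := key ⟨_, hr⟩ (by
      show β.1 - al i = _
      rw [hC.ip_comm, h, one_smul])
    exact mem_UnE hC k1 k2 (mul_mem (mul_mem (inv_mem (one_mem _)) (intCast_mem _ _)) hb)
  · rw [r3 β h]
    exact mem_UnE hC h1 h2 hb
  · have hr : ip C (β.1 + al i) (β.1 + al i) = 2 := by
      have := hC.ip_add_self (β := β) (γ := hC.sr i) (by rw [hC.sr_val, hC.ip_comm]; exact h)
      exact this
    rw [r2 β ⟨_, hr⟩ h rfl]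
    obtain ⟨k1, k2⟩ := key ⟨_, hr⟩ (by
      show β.1 + al i = _
      rw [hC.ip_comm, h, neg_smul, one_smul, sub_neg_eq_add])
    exact mem_UnE hC k1 k2 (mul_mem (mul_mem (one_mem _) (intCast_mem _ _)) hb)
  · exact absurd h (H67.ne_neg hC i h1)

theorem conj_xE (hC : SimplyLaced C)
    (i : Fin r) {β : Rt C} (h1 : β.Pos) (h2 : β.1 ≠ al i) {a b : FF K} (ha : a ∈ Kt K)
    (hb : b ∈ Kt K) :
    xg hC (hC.sr i) a * xg hC β b * (xg hC (hC.sr i) a)⁻¹ ∈ UnE C K i := by
  have hne : β ≠ hC.sr i := fun h => h2 (by rw [h, hC.sr_val])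
  by_cases h0 : 0 ≤ ip C (al i) β.1
  · have e : xg hC (hC.sr i) a * xg hC β b = xg hC β b * xg hC (hC.sr i) a :=
      Subtype.ext (relA r C hC (FF K) (hC.sr i) β a b h0)
    rw [e, mul_assoc, mul_inv_cancel, mul_one]
    exact mem_UnE hC h1 h2 hb
  · have h : ip C (al i) β.1 = -1 := by
      rcases H67.ip_cases hC i β with h | h | h | h | h
      · omega
      · omega
      · omega
      · exact h
      · exact absurd h (H67.ne_neg hC i h1)
    have hr : ip C (al i + β.1) (al i + β.1) = 2 :=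
      hC.ip_add_self (β := hC.sr i) (γ := β) h
    have e : xg hC (hC.sr i) a * xg hC β b = xg hC β b *
        xg hC ⟨_, hr⟩ (((eps C (al i) β.1 : ℤ) : FF K) * a * b) * xg hC (hC.sr i) a :=
      Subtype.ext (relB r C hC (FF K) (hC.sr i) β ⟨_, hr⟩ a b h rfl)
    rw [e, mul_assoc, mul_inv_cancel, mul_one]
    have := (rootD r C hC).2.1 i β ⟨_, hr⟩ h1 hne (by
      show al i + β.1 = _
      rw [hC.ip_comm, h, neg_smul, one_smul, sub_neg_eq_add, add_comm])
    exact mul_mem (mem_UnE hC h1 h2 hb)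
      (mem_UnE hC this.1 (fun h => this.2 (Subtype.ext (by rw [h, hC.sr_val])))
        (mul_mem (mul_mem (intCast_mem _ _) ha) hb))

theorem ups2 (hC : SimplyLaced C) (i : Fin r) : ∀ u ∈ UnE C K i,
    wg hC (hC.sr i) (1 : FF K) * u * (wg hC (hC.sr i) (1 : FF K))⁻¹ ∈ UnE C K i := by
  intro u hu
  refine H67.conj_closure _ _ _ ?_ u hu
  rintro s ⟨β, b, h1, h2, hb, h3⟩
  rw [eq_xg hC β b s h3]
  exact conj_wE hC i h1 h2 hb

theorem ups3 (hC : SimplyLaced C) (i : Fin r) : ∀ u ∈ UnE C K i, ∀ a ∈ Kt K,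
    xg hC (hC.sr i) a * u * (xg hC (hC.sr i) a)⁻¹ ∈ UnE C K i := by
  intro u hu a ha
  refine H67.conj_closure _ _ _ ?_ u hu
  rintro s ⟨β, b, h1, h2, hb, h3⟩
  rw [eq_xg hC β b s h3]
  exact conj_xE hC i h1 h2 ha hb

theorem ups1 (hC : SimplyLaced C) (i : Fin r) : ∀ u ∈ UE C K, ∃ b ∈ Kt K, ∃ u' ∈ UnE C K i,
    u = u' * xg hC (hC.sr i) b := by
  intro u hu
  induction hu using Subgroup.closure_induction with
  | mem x hx =>
    obtain ⟨β, a, h1, ha, h2⟩ := hx
    rw [eq_xg hC β a x h2]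
    by_cases h : β.1 = al i
    · refine ⟨a, ha, 1, one_mem _, ?_⟩
      rw [one_mul, show β = hC.sr i from Subtype.ext h]
    · exact ⟨0, zero_mem _, _, mem_UnE hC h1 h ha, by rw [xg_zero, mul_one]⟩
  | one => exact ⟨0, zero_mem _, 1, one_mem _, by rw [xg_zero, mul_one]⟩
  | mul x y _ _ hx hy =>
    obtain ⟨b, hb, u, hu, rfl⟩ := hx
    obtain ⟨c, hc, v, hv, rfl⟩ := hy
    refine ⟨b + c, add_mem hb hc, _, mul_mem hu (ups3 hC i v hv b hb), ?_⟩
    rw [xg_add]
    group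
  | inv x _ hx =>
    obtain ⟨b, hb, u, hu, rfl⟩ := hx
    refine ⟨-b, neg_mem hb, _, ups3 hC i _ (inv_mem hu) (-b) (neg_mem hb), ?_⟩
    rw [← xg_inv]
    group

/-- Generation of `G(K(t))` by the simple root elements and the `w_i`. -/
theorem genE (hC : SimplyLaced C) (H : Subgroup (grp C K))
    (hx : ∀ i, ∀ a ∈ Kt K, xg hC (hC.sr i) a ∈ H)
    (hw : ∀ i, wg hC (hC.sr i) (1 : FF K) ∈ H) : GE C K ≤ H := by
  have key : ∀ n : ℕ, ∀ β : Rt C, β.Pos → ∑ j, β.1 j = (n : ℤ) → ∀ a ∈ Kt K,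
      xg hC β a ∈ H ∧ xg hC β.neg a ∈ H := by
    intro n
    induction n using Nat.strong_induction_on with
    | _ n ih =>
      intro β hβ hn a ha
      rcases (rootD r C hC).1 β hβ with ⟨i, rfl⟩ | ⟨i, h1, h2⟩
      · refine ⟨hx i a ha, ?_⟩
        have := (relC r C hC K (hC.sr i) 1 one_ne_zero a).1
        rw [one_pow, inv_one, one_mul] at this
        rw [← this]
        exact mul_mem (mul_mem (hw i) (hx i a ha)) (inv_mem (hw i))
      · have h1' : ip C (al i) β.1 = 1 := by rw [hC.ip_comm]; exact h1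
        have hr : ip C (β.1 - al i) (β.1 - al i) = 2 :=
          hC.ip_sub_self (β := β) (γ := hC.sr i) h1
        set γ : Rt C := ⟨_, hr⟩ with hγ
        have hγ1 : γ.1 = β.1 - al i := rfl
        have hs : ∑ j, γ.1 j = (n : ℤ) - 1 := by
          rw [hγ1, ← hn]
          simp [al, Finset.sum_sub_distrib]
        have hγp : γ.Pos := h2
        have hs0 : 0 ≤ ∑ j, γ.1 j := Finset.sum_nonneg fun j _ => hγp j
        have hn1 : 1 ≤ n := by omega
        have ih' := ih (n - 1) (by omega) γ hγp (by rw [hs]; omega)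
          (((eps C (al i) γ.1 : ℤ) : FF K) * a) (mul_mem (intCast_mem _ _) ha)
        have hip : ip C (al i) γ.1 = -1 := by
          rw [hγ1, ip_sub_right, h1', ip_al_al, hC.diag]
          norm_num
        have he : ((eps C (al i) γ.1 : ℤ) : FF K) * (((eps C (al i) γ.1 : ℤ) : FF K) * a) = a := by
          rw [← mul_assoc, ← Int.cast_mul, eps_mul_self, Int.cast_one, one_mul]
        have e1 := (relC r C hC K (hC.sr i) 1 one_ne_zero
          (((eps C (al i) γ.1 : ℤ) : FF K) * a)).2.2.2.1 γ β hip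
          (by rw [hγ1, hC.sr_val, sub_add_cancel])
        rw [hC.sr_val, one_mul, he] at e1
        have e2 := (relC r C hC K (hC.sr i) 1 one_ne_zero
          (((eps C (al i) γ.1 : ℤ) : FF K) * a)).2.2.1 γ.neg β.neg
          (by rw [Rt.neg_val, ip_neg_right, hC.sr_val, hip]; norm_num)
          (by rw [Rt.neg_val, Rt.neg_val, hγ1, hC.sr_val]; abel)
        rw [hC.sr_val, Rt.neg_val, eps_neg_right, inv_one, one_mul, he] at e2
        exact ⟨by rw [← e1]; exact mul_mem (mul_mem (hw i) ih'.1) (inv_mem (hw i)),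
          by rw [← e2]; exact mul_mem (mul_mem (hw i) ih'.2) (inv_mem (hw i))⟩
  unfold GE
  rw [Subgroup.closure_le]
  rintro g ⟨β, a, ha, hg⟩
  rw [eq_xg hC β a g hg]
  rcases (H59.rootSign r C hC).1 β with h | h
  · have h0 : 0 ≤ ∑ j, β.1 j := Finset.sum_nonneg fun j _ => h j
    exact (key (∑ j, β.1 j).toNat β h (by rw [Int.toNat_of_nonneg h0]) a ha).1
  · have h0 : 0 ≤ ∑ j, β.neg.1 j := Finset.sum_nonneg fun j _ => h j
    have := (key (∑ j, β.neg.1 j).toNat β.neg h (by rw [Int.toNat_of_nonneg h0]) a ha).2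
    rw [Rt.neg_neg] at this
    exact this

/-! ## The torus over `K(t)` -/

variable (C) in
/-- The character with values `∏ e_i ^ (α_i, x)`. -/
noncomputable def chE (e : Fin r → FF K) (x : Fin r → ℤ) : FF K := ∏ i, e i ^ ip C (al i) x

theorem isCh_chE {e : Fin r → FF K} (he : ∀ i, e i ≠ 0) : IsCh (chE C e) := by
  constructor
  · intro x y
    unfold chE
    rw [← Finset.prod_mul_distrib]
    exact Finset.prod_congr rfl fun i _ => by rw [ip_add_right, zpow_add₀ (he i)]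
  · intro x
    exact Finset.prod_ne_zero_iff.2 fun i _ => zpow_ne_zero _ (he i)

theorem chE_mem {e : Fin r → FF K} (he : ∀ i, e i ∈ Kt K) (x : Fin r → ℤ) : chE C e x ∈ Kt K :=
  prod_mem fun i _ => zpow_mem (he i) _

/-- `g` is in the torus over `K(t)`. -/
def TT (g : grp C K) : Prop :=
  ∃ e : Fin r → FF K, (∀ i, e i ≠ 0) ∧ (∀ i, e i ∈ Kt K) ∧ IsDiag (chE C e) g

theorem TT.mul {g h : grp C K} (hg : TT g) (hh : TT h) : TT (g * h) := by
  obtain ⟨e, h1, h2, h3⟩ := hg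
  obtain ⟨e', h1', h2', h3'⟩ := hh
  refine ⟨fun i => e i * e' i, fun i => mul_ne_zero (h1 i) (h1' i),
    fun i => mul_mem (h2 i) (h2' i), ?_⟩
  have := h3.mul h3'
  have e0 : (fun x => chE C e x * chE C e' x) = chE C fun i => e i * e' i := by
    funext x
    unfold chE
    rw [← Finset.prod_mul_distrib]
    exact Finset.prod_congr rfl fun i _ => (mul_zpow _ _ _).symm
  rw [← e0]
  exact this

theorem TT.one : TT (1 : grp C K) := by
  refine ⟨fun _ => 1, fun i => one_ne_zero, fun i => one_mem _, ?_⟩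
  have e0 : (chE C fun _ => 1) = fun _ => (1 : FF K) := by
    funext x
    unfold chE
    exact Finset.prod_eq_one fun i _ => one_zpow _
  rw [e0]
  exact IsDiag.one

theorem TT.hg (hC : SimplyLaced C) (i : Fin r) {c : FF K} (hc : c ≠ 0) (hcK : c ∈ Kt K) :
    TT (hg hC (hC.sr i) c) := by
  classical
  refine ⟨fun j => if j = i then c else 1, fun j => ?_, fun j => ?_, ?_⟩
  · beta_reduce
    split_ifs
    · exact hc
    · exact one_ne_zero
  · beta_reduce
    split_ifs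
    · exact hcK
    · exact one_mem _
  · have := isDiag_hg hC (hC.sr i) hc
    have e0 : (chE C fun j => if j = i then c else 1) = fun x => c ^ ip C (hC.sr i).1 x := by
      funext x
      unfold chE
      rw [Finset.prod_eq_single i]
      · beta_reduce
        rw [if_pos rfl]; rfl
      · intro j _ hj
        beta_reduce
        rw [if_neg hj, one_zpow]
      · intro h
        exact absurd (Finset.mem_univ i) h
    rw [e0]
    exact this

/-- Iwasawa: the decomposition. -/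
def Iw (g : grp C K) : Prop := ∃ u ∈ UE C K, ∃ h, TT h ∧ ∃ γ ∈ arith C K 1, g = u * h * γ

theorem TT.conj (hC : SimplyLaced C) {h : grp C K} (hh : TT h) (β : Rt C) :
    ∃ c ∈ Kt K, c ≠ 0 ∧ ∀ a, h * xg hC β a = xg hC β (c * a) * h := by
  obtain ⟨e, h1, h2, h3⟩ := hh
  refine ⟨chE C e β.1, chE_mem h2 _, (isCh_chE h1).ne _, fun a => ?_⟩
  have := h3.conj hC (isCh_chE h1) β a
  rwa [mul_inv_eq_iff_eq_mul] at this

theorem iw_w (hC : SimplyLaced C) (i : Fin r) {g : grp C K} (hgI : Iw g) :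
    Iw (wg hC (hC.sr i) (1 : FF K) * g) := by
  obtain ⟨u, hu, h, hh, γ, hγ, rfl⟩ := hgI
  obtain ⟨b, hb, u', hu', rfl⟩ := ups1 hC i u hu
  set w := wg hC (hC.sr i) (1 : FF K) with hw
  obtain ⟨e, h1, h2, h3⟩ := id hh
  have hch := isCh_chE (C := C) h1
  set χ := chE C e with hχ
  have c0 : χ (al i) ≠ 0 := hch.ne _
  have conj : ∀ (β : Rt C) (a : FF K), h⁻¹ * xg hC β a * h = xg hC β ((χ β.1)⁻¹ * a) := by
    intro β a
    have := h3.conj hC hch β ((χ β.1)⁻¹ * a)
    rw [mul_inv_cancel_left₀ (hch.ne _)] at this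
    rw [← this]
    group
  have hwh : w * h = h * hg hC (hC.sr i) (χ (al i))⁻¹ * w := by
    have e1 : h⁻¹ * w * h = wg hC (hC.sr i) (χ (al i))⁻¹ := by
      have e2 : h⁻¹ * w * h = (h⁻¹ * xg hC (hC.sr i) 1 * h) *
          (h⁻¹ * xg hC (hC.sr i).neg (1 : FF K)⁻¹ * h) * (h⁻¹ * xg hC (hC.sr i) 1 * h) := by
        rw [hw]
        unfold wg
        group
      rw [e2, conj, conj, Rt.neg_val, hC.sr_val, hch.neg, inv_inv, inv_one, mul_one, mul_one]
      unfold wg
      rw [inv_inv]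
    calc w * h = h * (h⁻¹ * w * h) := by group
      _ = _ := by rw [e1, wg_eq_hg, ← hw, mul_assoc]
  have hcK : (χ (al i))⁻¹ ∈ Kt K := inv_mem (chE_mem h2 _)
  have hT : TT (h * hg hC (hC.sr i) (χ (al i))⁻¹) := hh.mul (TT.hg hC i (inv_ne_zero c0) hcK)
  set T := h * hg hC (hC.sr i) (χ (al i))⁻¹ with hTd
  set b' := (χ (al i))⁻¹ * b with hb'
  have hbK : b' ∈ Kt K := mul_mem hcK hb
  obtain ⟨c, d, hd, hcd, hcd'⟩ := exists_coprime hbK
  obtain ⟨y, hy, γ', hγ', e5⟩ := euclid hC (hC.sr i) c d hd hcd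
  obtain ⟨c1, hc1, -, hT2⟩ := hT.conj hC (hC.sr i)
  refine ⟨w * u' * w⁻¹ * xg hC (hC.sr i) (c1 * y),
    mul_mem (UnE_le i (ups2 hC i u' hu')) (mem_UE hC (H67.sr_pos hC i) (mul_mem hc1 hy)),
    T * hg hC (hC.sr i) (polyL K d), hT.mul (TT.hg hC i (polyL_ne hd) (polyL_mem_Kt d)),
    γ' * (w * γ), mul_mem hγ' (mul_mem (w_mem hC _) hγ), ?_⟩
  have e6 : xg hC (hC.sr i) b * h = h * xg hC (hC.sr i) b' := by
    have := conj (hC.sr i) b
    rw [hC.sr_val, ← hb'] at this
    rw [← this]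
    group
  calc w * (u' * xg hC (hC.sr i) b * h * γ)
      = (w * u' * w⁻¹) * (w * (xg hC (hC.sr i) b * h)) * γ := by group
    _ = (w * u' * w⁻¹) * ((w * h) * xg hC (hC.sr i) b') * γ := by rw [e6, mul_assoc w h]
    _ = (w * u' * w⁻¹) * (T * (w * xg hC (hC.sr i) b')) * γ := by
        rw [hwh]; group
    _ = (w * u' * w⁻¹) * (T * (xg hC (hC.sr i) y * hg hC (hC.sr i) (polyL K d) * γ' * w)) * γ := by
        rw [w_x, hcd', e5]
    _ = (w * u' * w⁻¹) * (T * xg hC (hC.sr i) y) * hg hC (hC.sr i) (polyL K d) *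
          (γ' * (w * γ)) := by group
    _ = _ := by rw [hT2]; group

theorem iw_x (hC : SimplyLaced C) (i : Fin r) {a : FF K} (ha : a ∈ Kt K) {g : grp C K}
    (hgI : Iw g) : Iw (xg hC (hC.sr i) a * g) := by
  obtain ⟨u, hu, h, hh, γ, hγ, rfl⟩ := hgI
  exact ⟨xg hC (hC.sr i) a * u, mul_mem (mem_UE hC (H67.sr_pos hC i) ha) hu, h, hh, γ, hγ, by
    simp only [mul_assoc]⟩

/-- Iwasawa decomposition over `K(t)`. -/
theorem iwE (hC : SimplyLaced C) {g : grp C K} (hgE : g ∈ GE C K) : Iw g := by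
  -- the stabilizer of the set of the elements with a decomposition
  have h1 : ∀ g : grp C K, g ∈ GE C K → ∀ x, Iw x → Iw (g * x) := by
    let H : Subgroup (grp C K) :=
      { carrier := {g | (∀ x, Iw x → Iw (g * x)) ∧ ∀ x, Iw x → Iw (g⁻¹ * x)}
        mul_mem' := by
          rintro a b ⟨ha, ha'⟩ ⟨hb, hb'⟩
          refine ⟨fun x hx => ?_, fun x hx => ?_⟩
          · rw [mul_assoc]
            exact ha _ (hb _ hx)
          · rw [mul_inv_rev, mul_assoc]
            exact hb' _ (ha' _ hx)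
        one_mem' := by
          refine ⟨fun x hx => ?_, fun x hx => ?_⟩
          · rwa [one_mul]
          · rwa [inv_one, one_mul]
        inv_mem' := by
          rintro a ⟨ha, ha'⟩
          exact ⟨ha', by rw [inv_inv]; exact ha⟩ }
    have hle : GE C K ≤ H := by
      apply genE hC
      · intro i a ha
        refine ⟨fun x hx => iw_x hC i ha hx, fun x hx => ?_⟩
        rw [xg_inv]
        exact iw_x hC i (neg_mem ha) hx
      · intro i
        refine ⟨fun x hx => iw_w hC i hx, fun x hx => ?_⟩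
        rw [H67.wg_inv_three relH, mul_assoc, mul_assoc]
        exact iw_w hC i (iw_w hC i (iw_w hC i hx))
    intro g hg
    exact (hle hg).1
  have h2 := h1 g hgE 1 ⟨1, one_mem _, 1, TT.one, 1, one_mem _, by simp⟩
  rwa [mul_one] at h2

end

end Pool.Agent.TMP.H43
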