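import Pool.Agent.Helper99_DEN.Fld

/-!
# The field `K(t)` inside `FF K` (squad TMP, helper43)
-/

set_option autoImplicit false

namespace Pool.Agent.TMP.H43

open Pool.Agent.DEN

section
variable {K : Type} [Field K]

theorem polyL_inj : Function.Injective (polyL K) := (H99.fld2 K).1

theorem polyL_ne {d : Polynomial K} (hd : d ≠ 0) : polyL K d ≠ 0 := by
  intro h
  exact hd (polyL_inj (by rw [h, map_zero]))

theorem polyL_eq_zero {d : Polynomial K} : polyL K d = 0 ↔ d = 0 :=
  ⟨fun h => polyL_inj (by rw [h, map_zero]), fun h => by rw [h, map_zero]⟩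

variable (K) in
/-- The field `K(t)`. -/
noncomputable def Kt : Subfield (FF K) where
  carrier := {a | ∃ c d : Polynomial K, d ≠ 0 ∧ polyL K d * a = polyL K c}
  mul_mem' := by
    rintro a b ⟨c, d, hd, h⟩ ⟨c', d', hd', h'⟩
    exact ⟨c * c', d * d', mul_ne_zero hd hd', by rw [map_mul, map_mul, ← h, ← h']; ring⟩
  one_mem' := ⟨1, 1, one_ne_zero, by rw [map_one, mul_one]⟩
  add_mem' := by
    rintro a b ⟨c, d, hd, h⟩ ⟨c', d', hd', h'⟩
    refine ⟨c * d' + c' * d, d * d', mul_ne_zero hd hd', ?_⟩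
    rw [map_mul, map_add, map_mul, map_mul, ← h, ← h']; ring
  zero_mem' := ⟨0, 1, one_ne_zero, by rw [map_one, map_zero, mul_zero]⟩
  neg_mem' := by
    rintro a ⟨c, d, hd, h⟩
    exact ⟨-c, d, hd, by rw [map_neg, ← h]; ring⟩
  inv_mem' := by
    rintro a ⟨c, d, hd, h⟩
    by_cases h0 : a = 0
    · exact ⟨0, 1, one_ne_zero, by rw [h0, inv_zero, map_zero, mul_zero]⟩
    · have hc : c ≠ 0 := by
        intro hc
        rw [hc, map_zero] at h
        rcases mul_eq_zero.1 h with h1 | h1
        · exact polyL_ne hd h1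
        · exact h0 h1
      refine ⟨d, c, hc, ?_⟩
      rw [← h]
      field_simp

theorem mem_Kt {a : FF K} : a ∈ Kt K ↔ ∃ c d : Polynomial K, d ≠ 0 ∧ polyL K d * a = polyL K c :=
  Iff.rfl

theorem polyL_mem_Kt (p : Polynomial K) : polyL K p ∈ Kt K :=
  ⟨p, 1, one_ne_zero, by rw [map_one, one_mul]⟩

theorem polyL_mem_ringA (P p : Polynomial K) : polyL K p ∈ ringA K P :=
  Subring.subset_closure (Or.inl ⟨p, rfl⟩)

theorem mem_ringA_one {a : FF K} : a ∈ ringA K 1 ↔ ∃ p, polyL K p = a := by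
  have h : a ∈ (ringA K 1 : Set (FF K)) ↔ ∃ p, polyL K p = a := by
    rw [H99.ringA_one]
    rfl
  exact h

theorem ringA_one_le (P : Polynomial K) {a : FF K} (ha : a ∈ ringA K 1) : a ∈ ringA K P := by
  obtain ⟨p, rfl⟩ := mem_ringA_one.1 ha
  exact polyL_mem_ringA P p

theorem ringA_le_Kt (P : Polynomial K) {a : FF K} (ha : a ∈ ringA K P) : a ∈ Kt K := by
  unfold ringA at ha
  induction ha using Subring.closure_induction with
  | mem x hx =>
    rcases hx with ⟨p, rfl⟩ | hx
    · exact polyL_mem_Kt p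
    · rw [Set.mem_singleton_iff] at hx
      rw [hx]
      exact inv_mem (polyL_mem_Kt P)
  | zero => exact zero_mem _
  | one => exact one_mem _
  | add x y _ _ hx hy => exact add_mem hx hy
  | neg x _ hx => exact neg_mem hx
  | mul x y _ _ hx hy => exact mul_mem hx hy

/-- Coprime fractions. -/
theorem exists_coprime {a : FF K} (ha : a ∈ Kt K) :
    ∃ c d : Polynomial K, d ≠ 0 ∧ IsCoprime c d ∧ a = polyL K c / polyL K d := by
  classical
  obtain ⟨c, d, hd, h⟩ := ha
  have hg : EuclideanDomain.gcd c d ≠ 0 := by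
    intro h0
    exact hd (EuclideanDomain.gcd_eq_zero_iff.1 h0).2
  obtain ⟨c', hc'⟩ := EuclideanDomain.gcd_dvd_left c d
  obtain ⟨d', hd'⟩ := EuclideanDomain.gcd_dvd_right c d
  have hd0 : d' ≠ 0 := by
    rintro rfl
    rw [mul_zero] at hd'
    exact hd hd'
  refine ⟨c', d', hd0, ?_, ?_⟩
  · have h1 := EuclideanDomain.gcd_eq_gcd_ab c d
    refine ⟨EuclideanDomain.gcdA c d, EuclideanDomain.gcdB c d, ?_⟩
    apply mul_left_cancel₀ hg
    generalize EuclideanDomain.gcdA c d = A at *
    generalize EuclideanDomain.gcdB c d = B at *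
    generalize EuclideanDomain.gcd c d = g at *
    linear_combination -h1 - A * hc' - B * hd'
  · have hgL := polyL_ne hg
    have hdL := polyL_ne hd0
    rw [eq_div_iff hdL]
    apply mul_left_cancel₀ hgL
    rw [← map_mul, ← hc', ← h]
    conv_rhs => rw [hd', map_mul]
    ring

end

end Pool.Agent.TMP.H43
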