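import Pool.Agent.Helper22_DEN.Stmt

/-!
# Squad TMP (MP_eadad4_nt), block TRP: the place `P` is the place `∞` of another field
(statements only; helper43)

`K2 = K[t]/P`, `φ : Γ_P → G(K2((T)))`, and `Γ_P / Γ = G(K2((T))) / G(K2[[T]])`.
-/

set_option autoImplicit false

namespace Pool.Agent.TMP

open Pool.Agent.DEN

section
variable {r : ℕ} {C : Matrix (Fin r) (Fin r) ℤ} {K K2 : Type} [Field K] [Field K2]

/-- `g` and `g⁻¹` are congruent to `1` modulo `t^(-M)` on the Chevalley order. -/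
def Nbd (M : ℕ) (g : grp C K) : Prop :=
  ∀ v : LieV C (FF K), Cd (Bd K 0) v →
    Cd (Bd K (-(M : ℤ))) (g.1 v - v) ∧ Cd (Bd K (-(M : ℤ))) ((g⁻¹).1 v - v)

/-- `φ` identifies `Γ_P / Γ` with the space `X` of the field `K2((1/t))`: it is a localisation at
the place `P`. -/
structure IsLoc (P : Polynomial K) (φ : arith C K P →* grp C K2) : Prop where
  card : Nat.card K2 = Nat.card K ^ P.natDegree
  int : ∀ g, φ g ∈ maxK C K2 ↔ g ∈ (arith C K 1).subgroupOf (arith C K P)
  dense : ∀ (x : grp C K2) (M : ℕ), ∃ g, Nbd M ((φ g)⁻¹ * x)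
  bound : ∀ (R : ℕ) (g : arith C K P), bnd R (φ g) ↔
    ∀ v : LieV C (FF K), Cd (ringA K 1) v → Cd (ringA K 1) (polyL K P ^ R • (g.1.1 v))

end

/-- TRP: localisations exist. -/
def TrpStmt : Prop :=
  ∀ (r : ℕ) (C : Matrix (Fin r) (Fin r) ℤ) (_ : SimplyLaced C) (K : Type) [Field K] [Finite K]
    (P : Polynomial K), Irreducible P →
    ∃ (K2 : Type) (_ : Field K2) (_ : Finite K2) (φ : arith C K P →* grp C K2), IsLoc P φ

end Pool.Agent.TMP
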