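import Pool.Agent.Helper43_TMP.J
import Pool.Agent.Helper43_TMP.StP
import Pool.Agent.Helper59_DEN.Roots
import Pool.Agent.Helper63_DEN.Nrm
import Pool.Agent.Helper75_DEN.Bdg

/-!
# The homomorphism `Γ_P → G(K2((T)))` (squad TMP, helper43)
-/

set_option autoImplicit false

open scoped BigOperators

namespace Pool.Agent.TMP.H43

open Pool.Agent.DEN

/-! ## Base change of vectors -/

section
variable {r : ℕ} {C : Matrix (Fin r) (Fin r) ℤ} {R S : Type} [CommRing R] [CommRing S]

/-- Base change of vectors. -/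
def mv (f : R →+* S) (v : LieV C R) : LieV C S := (fun i => f (v.1 i), fun γ => f (v.2 γ))

theorem crd_mv (f : R →+* S) (v : LieV C R) (x : Fin r → ℤ) : crd (mv f v) x = f (crd v x) := by
  unfold crd
  split_ifs with h
  · rfl
  · rw [map_zero]

theorem pr_mv (f : R →+* S) (v : LieV C R) (x : Fin r → ℤ) : pr (mv f v) x = f (pr v x) := by
  unfold pr
  rw [map_sum]
  refine Finset.sum_congr rfl fun i _ => ?_
  rw [map_sum]
  refine Finset.sum_congr rfl fun j _ => ?_
  rw [map_mul, map_mul, map_intCast, map_intCast]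
  rfl

theorem rootMap_mv (f : R →+* S) (β : Rt C) (a : R) (v : LieV C R) :
    rootMap β (f a) (mv f v) = mv f (rootMap β a v) := by
  refine Prod.ext ?_ ?_
  · funext i
    show _ = f ((rootMap β a v).1 i)
    rw [rootMap_fst, rootMap_fst, map_sub, map_mul, map_mul, map_intCast]
    rfl
  · funext γ
    show _ = f ((rootMap β a v).2 γ)
    by_cases h1 : γ = β
    · subst h1
      rw [rootMap_snd_self, rootMap_snd_self, pr_mv, map_add, map_sub, map_mul, map_mul, map_pow]
      rfl
    · by_cases h2 : ip C β.1 γ.1 = 1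
      · rw [rootMap_snd_one _ _ _ _ h2, rootMap_snd_one _ _ _ _ h2, crd_mv, map_add, map_mul,
          map_mul, map_intCast]
        rfl
      · rw [rootMap_snd_other _ _ _ _ h1 h2, rootMap_snd_other _ _ _ _ h1 h2]
        rfl

theorem mv_inj (f : R →+* S) (hf : Function.Injective f) {v w : LieV C R} (h : mv f v = mv f w) :
    v = w := by
  refine Prod.ext ?_ ?_
  · funext i
    exact hf (congrFun (congrArg Prod.fst h) i)
  · funext γ
    exact hf (congrFun (congrArg Prod.snd h) γ)

/-- The basis vector `h_i`. -/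
def bH (C : Matrix (Fin r) (Fin r) ℤ) (R : Type) [CommRing R] (i : Fin r) : LieV C R :=
  (Pi.single i 1, 0)

open Classical in
/-- The basis vector `e_γ`. -/
noncomputable def bE (R : Type) [CommRing R] (γ : Rt C) : LieV C R := (0, Pi.single γ 1)

theorem mv_bH (f : R →+* S) (i : Fin r) : mv f (bH C R i) = bH C S i := by
  refine Prod.ext ?_ ?_
  · funext j
    show f (Pi.single (M := fun _ => R) i 1 j) = Pi.single (M := fun _ => S) i 1 j
    rw [Pi.single_apply, Pi.single_apply]
    split_ifs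
    · exact map_one f
    · exact map_zero f
  · funext j
    exact map_zero f

theorem mv_bE (f : R →+* S) (γ : Rt C) : mv f (bE (C := C) R γ) = bE S γ := by
  classical
  refine Prod.ext ?_ ?_
  · funext j
    exact map_zero f
  · funext j
    show f (Pi.single (M := fun _ => R) γ 1 j) = Pi.single (M := fun _ => S) γ 1 j
    rw [Pi.single_apply, Pi.single_apply]
    split_ifs
    · exact map_one f
    · exact map_zero f

theorem decomp [Fintype (Rt C)] (v : LieV C R) :
    v = ∑ i, v.1 i • bH C R i + ∑ γ, v.2 γ • bE R γ := by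
  classical
  refine Prod.ext ?_ ?_
  · funext j
    rw [Prod.fst_add, Prod.fst_sum, Prod.fst_sum, Pi.add_apply, Finset.sum_apply, Finset.sum_apply]
    have h1 : ∀ i, (v.1 i • bH C R i).1 j = if i = j then v.1 i else 0 := by
      intro i
      show v.1 i • (Pi.single (M := fun _ => R) i 1 j) = _
      rw [Pi.single_apply, smul_eq_mul, mul_ite, mul_one, mul_zero]
      simp only [eq_comm]
    have h2 : ∀ γ, (v.2 γ • bE (C := C) R γ).1 j = 0 := by
      intro γ
      show v.2 γ • (0 : R) = 0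
      rw [smul_zero]
    simp only [h1, h2, Finset.sum_const_zero, add_zero, Finset.sum_ite_eq', Finset.mem_univ,
      if_true]
  · funext j
    rw [Prod.snd_add, Prod.snd_sum, Prod.snd_sum, Pi.add_apply, Finset.sum_apply, Finset.sum_apply]
    have h1 : ∀ i, (v.1 i • bH C R i).2 j = 0 := by
      intro i
      show v.1 i • (0 : R) = 0
      rw [smul_zero]
    have h2 : ∀ γ, (v.2 γ • bE (C := C) R γ).2 j = if γ = j then v.2 γ else 0 := by
      intro γ
      show v.2 γ • (Pi.single (M := fun _ => R) γ 1 j) = _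
      rw [Pi.single_apply, smul_eq_mul, mul_ite, mul_one, mul_zero]
      simp only [eq_comm]
    simp only [h1, h2, Finset.sum_const_zero, zero_add, Finset.sum_ite_eq', Finset.mem_univ,
      if_true]

end

section
variable {r : ℕ} {C : Matrix (Fin r) (Fin r) ℤ} {K : Type} [Field K]

/-- Expansion of `g v`. -/
theorem grp_decomp [Fintype (Rt C)] (g : grp C K) (v : LieV C (FF K)) :
    g.1 v = ∑ i, v.1 i • g.1 (bH C (FF K) i) + ∑ γ, v.2 γ • g.1 (bE (FF K) γ) := by
  conv_lhs => rw [decomp v]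
  rw [map_add, map_sum, map_sum]
  simp only [map_smul]

theorem grp_eq_one (hC : SimplyLaced C) (g : grp C K)
    (h1 : ∀ i, g.1 (bH C (FF K) i) = bH C (FF K) i)
    (h2 : ∀ γ, g.1 (bE (FF K) γ) = bE (FF K) γ) : g = 1 := by
  have : Finite (Rt C) := H59.rootFin r C hC
  have : Fintype (Rt C) := Fintype.ofFinite _
  apply grp_ext
  intro v
  rw [grp_decomp g v]
  simp only [h1, h2]
  exact (decomp v).symm

theorem bnd_of_basis (hC : SimplyLaced C) {m : ℤ} (g : grp C K)
    (h1 : ∀ i, Cd (Bd K m) (g.1 (bH C (FF K) i)))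
    (h2 : ∀ γ, Cd (Bd K m) (g.1 (bE (FF K) γ))) : bnd m g := by
  have : Finite (Rt C) := H59.rootFin r C hC
  have : Fintype (Rt C) := Fintype.ofFinite _
  intro v hv
  rw [grp_decomp g v]
  have key : ∀ a b : FF K, a ∈ Bd K 0 → b ∈ Bd K m → a * b ∈ Bd K m := by
    intro a b ha hb
    have := H99.bd_mul ha hb
    rwa [zero_add] at this
  constructor
  · intro j
    rw [Prod.fst_add, Prod.fst_sum, Prod.fst_sum, Pi.add_apply, Finset.sum_apply, Finset.sum_apply]
    refine bd_add (H75.bd_sum H99.fld1 _ _ _ fun i _ => ?_) (H75.bd_sum H99.fld1 _ _ _ fun i _ => ?_)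
    · exact key _ _ (hv.1 i) ((h1 i).1 j)
    · exact key _ _ (hv.2 i) ((h2 i).1 j)
  · intro j
    rw [Prod.snd_add, Prod.snd_sum, Prod.snd_sum, Pi.add_apply, Finset.sum_apply, Finset.sum_apply]
    refine bd_add (H75.bd_sum H99.fld1 _ _ _ fun i _ => ?_) (H75.bd_sum H99.fld1 _ _ _ fun i _ => ?_)
    · exact key _ _ (hv.1 i) ((h1 i).2 j)
    · exact key _ _ (hv.2 i) ((h2 i).2 j)

end

/-! ## The homomorphism -/

section
variable {r : ℕ} {C : Matrix (Fin r) (Fin r) ℤ} {K : Type} [Field K] (P : Polynomial K)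

/-- The inclusion. -/
noncomputable abbrev io : ringA K P →+* FF K := (ringA K P).subtype

theorem io_inj : Function.Injective (io P) := Subtype.val_injective

variable [Fact (Irreducible P)] [Finite K]

/-- The embedding of `A[1/P]` in `K2((T))`. -/
noncomputable def jB : ringA K P →+* FF (AdjoinRoot P) where
  toFun a := jj P a.1
  map_one' := jj_one P
  map_zero' := jj_zero P
  map_add' a b := jj_add P (ringA_le_Kt P a.2) (ringA_le_Kt P b.2)
  map_mul' a b := jj_mul P (ringA_le_Kt P a.2) (ringA_le_Kt P b.2)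

theorem jB_apply (a : ringA K P) : jB P a = jj P a.1 := rfl

/-- `g'` acts as `g` on the vectors with coordinates in `A[1/P]`. -/
def RR (g : grp C K) (g' : grp C (AdjoinRoot P)) : Prop :=
  ∀ w : LieV C (ringA K P), ∃ w' : LieV C (ringA K P),
    g.1 (mv (io P) w) = mv (io P) w' ∧ g'.1 (mv (jB P) w) = mv (jB P) w'

theorem RR.mul {g h : grp C K} {g' h' : grp C (AdjoinRoot P)} (h1 : RR P g g') (h2 : RR P h h') :
    RR P (g * h) (g' * h') := by
  intro w
  obtain ⟨w1, a1, a2⟩ := h2 w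
  obtain ⟨w2, b1, b2⟩ := h1 w1
  refine ⟨w2, ?_, ?_⟩
  · rw [← b1, ← a1]; rfl
  · rw [← b2, ← a2]; rfl

theorem RR.one : RR P (1 : grp C K) (1 : grp C (AdjoinRoot P)) := fun w => ⟨w, rfl, rfl⟩

theorem RR.xg (hC : SimplyLaced C) (β : Rt C) (a : ringA K P) :
    RR P (xg hC β a.1) (xg hC β (jj P a.1)) := by
  intro w
  refine ⟨rootMap β a w, ?_, ?_⟩
  · rw [xg_apply]
    exact rootMap_mv (io P) β a w
  · rw [xg_apply]
    exact rootMap_mv (jB P) β a w

theorem RR.eq_one (hC : SimplyLaced C) {g' : grp C (AdjoinRoot P)}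
    (h : RR P (1 : grp C K) g') : g' = 1 := by
  have key : ∀ w : LieV C (ringA K P), g'.1 (mv (jB P) w) = mv (jB P) w := by
    intro w
    obtain ⟨w', h1, h2⟩ := h w
    have e : w = w' := mv_inj (io P) (io_inj P) h1
    rw [h2, ← e]
  apply grp_eq_one hC
  · intro i
    have := key (bH C (ringA K P) i)
    rwa [mv_bH] at this
  · intro γ
    have := key (bE (ringA K P) γ)
    rwa [mv_bE] at this

theorem exists_phi (hC : SimplyLaced C) {g : grp C K} (hg : g ∈ arith C K P) :
    ∃ g' : grp C (AdjoinRoot P), RR P g g' ∧ RR P g⁻¹ g'⁻¹ := by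
  rw [arith_eq hC] at hg
  induction hg using Subgroup.closure_induction with
  | mem x hx =>
    obtain ⟨β, a, ha, rfl⟩ := hx
    refine ⟨xg hC β (jj P a), RR.xg P hC β ⟨a, ha⟩, ?_⟩
    rw [xg_inv, xg_inv, ← jj_neg P (ringA_le_Kt P ha)]
    exact RR.xg P hC β ⟨-a, neg_mem ha⟩
  | one =>
    refine ⟨1, RR.one P, ?_⟩
    rw [inv_one, inv_one]
    exact RR.one P
  | mul x y hx hy h1 h2 =>
    obtain ⟨x', a1, a2⟩ := h1
    obtain ⟨y', b1, b2⟩ := h2
    refine ⟨x' * y', a1.mul P b1, ?_⟩
    rw [mul_inv_rev, mul_inv_rev]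
    exact b2.mul P a2
  | inv x hx h1 =>
    obtain ⟨x', a1, a2⟩ := h1
    exact ⟨x'⁻¹, a2, by rw [inv_inv, inv_inv]; exact a1⟩

theorem RR.unique (hC : SimplyLaced C) {g : grp C K} {g1 g2 : grp C (AdjoinRoot P)}
    (h1 : RR P g⁻¹ g1⁻¹) (h2 : RR P g g2) : g1 = g2 := by
  have h := h1.mul P h2
  rw [inv_mul_cancel] at h
  have := h.eq_one P hC
  exact inv_mul_eq_one.1 this

/-- The homomorphism `Γ_P → G(K2((T)))`. -/
noncomputable def phi (hC : SimplyLaced C) : arith C K P →* grp C (AdjoinRoot P) :=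
  MonoidHom.mk' (fun g => (exists_phi P hC g.2).choose) (by
    intro g h
    have h1 := (exists_phi P hC (g * h).2).choose_spec
    have h2 := (exists_phi P hC g.2).choose_spec
    have h3 := (exists_phi P hC h.2).choose_spec
    exact RR.unique P hC h1.2 (h2.1.mul P h3.1))

theorem phi_spec (hC : SimplyLaced C) (g : arith C K P) : RR P g.1 (phi P hC g) :=
  (exists_phi P hC g.2).choose_spec.1

theorem phi_spec' (hC : SimplyLaced C) (g : arith C K P) : RR P (g.1)⁻¹ (phi P hC g)⁻¹ :=
  (exists_phi P hC g.2).choose_spec.2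

theorem phi_xg (hC : SimplyLaced C) (β : Rt C) {a : FF K} (ha : a ∈ ringA K P) :
    phi P hC ⟨xg hC β a, xg_mem_arith hC P β ha⟩ = xg hC β (jj P a) :=
  RR.unique P hC (phi_spec' P hC _) (RR.xg P hC β ⟨a, ha⟩)

theorem jj_mul_P {a : FF K} (ha : a ∈ ringA K P) (n : ℕ) :
    jj P (polyL K P ^ n * a) = j0 P P ^ n * jj P a := by
  rw [jj_mul P (pow_mem (polyL_mem_Kt P) n) (ringA_le_Kt P ha), jj_pow P (polyL_mem_Kt P),
    jj_polyL]

/-- Degrees at `P`. -/
theorem jj_deg {a : FF K} (ha : a ∈ ringA K P) (n : ℕ) :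
    jj P a ∈ Bd (AdjoinRoot P) n ↔ polyL K P ^ n * a ∈ ringA K 1 := by
  have h1 : polyL K P ^ n * a ∈ ringA K P := mul_mem (pow_mem (polyL_mem_ringA P P) n) ha
  rw [← jj_int_iff P h1, jj_mul_P P ha]
  constructor
  · intro h
    have := H99.bd_mul (j0_P_zpow P (n : ℤ)) h
    rwa [zpow_natCast, neg_add_cancel] at this
  · intro h
    have := H99.bd_mul (j0_P_zpow P (-(n : ℤ))) h
    rwa [zpow_neg, zpow_natCast, inv_mul_cancel_left₀ (pow_ne_zero _ (j0_P_ne P)), neg_neg,
      add_zero] at this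

/-- The radius at `P`. -/
theorem phi_bnd (hC : SimplyLaced C) (n : ℕ) (g : arith C K P) : bnd n (phi P hC g) ↔
    ∀ v : LieV C (FF K), Cd (ringA K 1) v → Cd (ringA K 1) (polyL K P ^ n • (g.1.1 v)) := by
  constructor
  · intro h v hv
    let w : LieV C (ringA K P) := (fun i => ⟨v.1 i, ringA_one_le P (hv.1 i)⟩,
      fun γ => ⟨v.2 γ, ringA_one_le P (hv.2 γ)⟩)
    have hw : mv (io P) w = v := rfl
    have hw' : Cd (Bd (AdjoinRoot P) 0) (mv (jB P) w) :=
      ⟨fun i => (jj_int_iff P (ringA_one_le P (hv.1 i))).2 (hv.1 i),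
        fun γ => (jj_int_iff P (ringA_one_le P (hv.2 γ))).2 (hv.2 γ)⟩
    obtain ⟨w', h1, h2⟩ := phi_spec P hC g w
    have h3 := h _ hw'
    rw [h2] at h3
    rw [← hw, h1]
    exact ⟨fun i => (jj_deg P (w'.1 i).2 n).1 (h3.1 i),
      fun γ => (jj_deg P (w'.2 γ).2 n).1 (h3.2 γ)⟩
  · intro h
    have key : ∀ w : LieV C (ringA K P), Cd (ringA K 1) (mv (io P) w) →
        Cd (Bd (AdjoinRoot P) n) ((phi P hC g).1 (mv (jB P) w)) := by
      intro w hw
      obtain ⟨w', h1, h2⟩ := phi_spec P hC g w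
      have h3 := h _ hw
      rw [h1] at h3
      rw [h2]
      exact ⟨fun i => (jj_deg P (w'.1 i).2 n).2 (h3.1 i),
        fun γ => (jj_deg P (w'.2 γ).2 n).2 (h3.2 γ)⟩
    have h01 : ∀ a : FF K, a = 0 ∨ a = 1 → a ∈ ringA K 1 := by
      rintro a (rfl | rfl)
      · exact zero_mem _
      · exact one_mem _
    apply bnd_of_basis hC
    · intro i
      have := key (bH C (ringA K P) i) (by
        rw [mv_bH]
        refine ⟨fun j => h01 _ ?_, fun j => h01 _ (Or.inl rfl)⟩
        show Pi.single (M := fun _ => FF K) i 1 j = 0 ∨ Pi.single (M := fun _ => FF K) i 1 j = 1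
        rw [Pi.single_apply]
        split_ifs
        · exact Or.inr rfl
        · exact Or.inl rfl)
      rwa [mv_bH] at this
    · intro γ
      classical
      have := key (bE (ringA K P) γ) (by
        rw [mv_bE]
        refine ⟨fun j => h01 _ (Or.inl rfl), fun j => h01 _ ?_⟩
        show Pi.single (M := fun _ => FF K) γ 1 j = 0 ∨ Pi.single (M := fun _ => FF K) γ 1 j = 1
        rw [Pi.single_apply]
        split_ifs
        · exact Or.inr rfl
        · exact Or.inl rfl)
      rwa [mv_bE] at this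

end

end Pool.Agent.TMP.H43
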